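import Mathlib

/-!
Local estimates over a normed field: distances to the points of a divisor on the projective line,
values, determinants and resultants of quadratic forms.
-/

namespace Pool.Agent.Helper77.Voj

open Finset

section

variable {K : Type*} [NormedField K]

/-- `max (1, |y|)` -/
noncomputable def mx (y : K) : ℝ := max 1 ‖y‖

theorem mx_pos (y : K) : 0 < mx y := lt_of_lt_of_le one_pos (le_max_left _ _)
theorem one_le_mx (y : K) : 1 ≤ mx y := le_max_left _ _
theorem norm_le_mx (y : K) : ‖y‖ ≤ mx y := le_max_right _ _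

variable {d : ℕ}

/-- distance of `y` to the point `i`; `none` is the point at infinity -/
noncomputable def del (α : Fin d → K) : Option (Fin d) → K → ℝ
  | none, y => 1 / mx y
  | some i, y => ‖y - α i‖ / mx y

theorem del_nonneg (α : Fin d → K) (i : Option (Fin d)) (y : K) : 0 ≤ del α i y := by
  rcases i with _ | i
  · exact div_nonneg zero_le_one (mx_pos y).le
  · exact div_nonneg (norm_nonneg _) (mx_pos y).le

/-- a bound for all roots -/
noncomputable def rb (α : Fin d → K) : ℝ := 1 + ∑ i, ‖α i‖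

theorem one_le_rb (α : Fin d → K) : 1 ≤ rb α := by
  unfold rb
  have : 0 ≤ ∑ i, ‖α i‖ := Finset.sum_nonneg fun i _ => norm_nonneg _
  linarith

theorem norm_le_rb (α : Fin d → K) (i : Fin d) : ‖α i‖ ≤ rb α := by
  unfold rb
  have : ‖α i‖ ≤ ∑ i, ‖α i‖ := Finset.single_le_sum (f := fun i => ‖α i‖) (fun i _ => norm_nonneg _) (mem_univ i)
  linarith

theorem del_le (α : Fin d → K) (i : Option (Fin d)) (y : K) : del α i y ≤ 2 * rb α := by
  have h1 := one_le_rb α
  rcases i with _ | i
  · change 1 / mx y ≤ _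
    rw [div_le_iff₀ (mx_pos y)]
    nlinarith [one_le_mx y]
  · change ‖y - α i‖ / mx y ≤ _
    rw [div_le_iff₀ (mx_pos y)]
    have h2 := norm_sub_le y (α i)
    have h3 := norm_le_rb α i
    have h4 := norm_le_mx y
    have h5 := one_le_mx y
    nlinarith

/-- the triangle inequality through a point of the divisor -/
theorem dist_le_del (α : Fin d → K) (i : Option (Fin d)) (y y' : K) :
    ‖y - y'‖ ≤ (del α i y + del α i y') * (mx y * mx y') := by
  have h1 := mx_pos y
  have h2 := mx_pos y'
  have h3 := one_le_mx y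
  have h4 := one_le_mx y'
  rcases i with _ | i
  · have e : (del α none y + del α none y') * (mx y * mx y') = mx y' + mx y := by
      change (1 / mx y + 1 / mx y') * (mx y * mx y') = _
      field_simp
    rw [e]
    have := norm_sub_le y y'
    linarith [norm_le_mx y, norm_le_mx y']
  · have e : (del α (some i) y + del α (some i) y') * (mx y * mx y')
        = ‖y - α i‖ * mx y' + ‖y' - α i‖ * mx y := by
      change (‖y - α i‖ / mx y + ‖y' - α i‖ / mx y') * (mx y * mx y') = _
      field_simp
    rw [e]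
    have h5 : ‖y - y'‖ ≤ ‖y - α i‖ + ‖y' - α i‖ := by
      have : y - y' = (y - α i) - (y' - α i) := by ring
      rw [this]; exact norm_sub_le _ _
    have h6 := norm_nonneg (y - α i)
    have h7 := norm_nonneg (y' - α i)
    nlinarith

/-- two distinct points cannot both be close -/
theorem del_two (α : Fin d → K) (hα : Function.Injective α) :
    ∃ c : ℝ, 0 < c ∧ ∀ i j : Option (Fin d), i ≠ j → ∀ y : K, c ≤ max (del α i y) (del α j y) := by
  classical
  -- a pairwise constant
  have key : ∀ i j : Option (Fin d), ∃ c : ℝ, 0 < c ∧ (i ≠ j → ∀ y : K, c ≤ max (del α i y) (del α j y)) := by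
    have hR := one_le_rb α
    -- far away every finite point is at distance at least 1/2
    have far : ∀ (i : Fin d) (y : K), 2 * rb α ≤ ‖y‖ → 1 / 2 ≤ del α (some i) y := by
      intro i y hy
      change 1 / 2 ≤ ‖y - α i‖ / mx y
      have h1 : mx y = ‖y‖ := max_eq_right (by linarith)
      rw [h1, le_div_iff₀ (by linarith)]
      have h2 := norm_sub_norm_le y (α i)
      have h3 := norm_le_rb α i
      linarith
    have near : ∀ y : K, ‖y‖ ≤ 2 * rb α → mx y ≤ 2 * rb α := fun y hy => max_le (by linarith) hy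
    intro i j
    rcases i with _ | i <;> rcases j with _ | j
    · exact ⟨1, one_pos, fun h => absurd rfl h⟩
    · refine ⟨min (1 / 2) (1 / (2 * rb α)), by positivity, fun _ y => ?_⟩
      rcases le_total (2 * rb α) ‖y‖ with h | h
      · exact (min_le_left _ _).trans ((far j y h).trans (le_max_right _ _))
      · refine (min_le_right _ _).trans (le_trans ?_ (le_max_left _ _))
        exact one_div_le_one_div_of_le (mx_pos y) (near y h)
    · refine ⟨min (1 / 2) (1 / (2 * rb α)), by positivity, fun _ y => ?_⟩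
      rcases le_total (2 * rb α) ‖y‖ with h | h
      · exact (min_le_left _ _).trans ((far i y h).trans (le_max_left _ _))
      · refine (min_le_right _ _).trans (le_trans ?_ (le_max_right _ _))
        exact one_div_le_one_div_of_le (mx_pos y) (near y h)
    · by_cases hij : i = j
      · exact ⟨1, one_pos, fun h => absurd (congrArg some hij) h⟩
      · have hne : 0 < ‖α i - α j‖ := norm_pos_iff.mpr (sub_ne_zero.mpr fun h => hij (hα h))
        refine ⟨min (1 / 2) (‖α i - α j‖ / (4 * rb α)), by positivity, fun _ y => ?_⟩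
        rcases le_total (2 * rb α) ‖y‖ with h | h
        · exact (min_le_left _ _).trans ((far i y h).trans (le_max_left _ _))
        · refine (min_le_right _ _).trans ?_
          have h1 : ‖α i - α j‖ ≤ ‖y - α i‖ + ‖y - α j‖ := by
            have : α i - α j = (y - α j) - (y - α i) := by ring
            rw [this]; have := norm_sub_le (y - α j) (y - α i); linarith
          have h2 := near y h
          have h3 : ‖α i - α j‖ / (4 * rb α) ≤ (‖y - α i‖ + ‖y - α j‖) / (2 * mx y) := by
            have h5 : 0 < mx y := mx_pos y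
            have h6 : 0 ≤ ‖y - α i‖ + ‖y - α j‖ := by positivity
            exact div_le_div₀ h6 h1 (by linarith) (by linarith)
          refine h3.trans ?_
          change _ ≤ max (‖y - α i‖ / mx y) (‖y - α j‖ / mx y)
          have h4 : (‖y - α i‖ + ‖y - α j‖) / (2 * mx y) = (‖y - α i‖ / mx y + ‖y - α j‖ / mx y) / 2 := by
            have := (mx_pos y).ne'
            field_simp
          rw [h4]
          have := le_max_left (‖y - α i‖ / mx y) (‖y - α j‖ / mx y)
          have := le_max_right (‖y - α i‖ / mx y) (‖y - α j‖ / mx y)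
          linarith
  choose c hc0 hc using key
  obtain ⟨p, -, hp⟩ := Finset.exists_min_image (univ : Finset (Option (Fin d) × Option (Fin d)))
    (fun p => c p.1 p.2) ⟨(none, none), mem_univ _⟩
  exact ⟨c p.1 p.2, hc0 _ _, fun i j hij y => (hp (i, j) (mem_univ _)).trans (hc i j hij y)⟩

theorem prod_del (α : Fin d → K) (y : K) :
    ∏ i : Option (Fin d), del α i y = ‖∏ i, (y - α i)‖ / mx y ^ (d + 1) := by
  rw [Fintype.prod_option]
  change 1 / mx y * ∏ i, (‖y - α i‖ / mx y) = _
  rw [Finset.prod_div_distrib, norm_prod, Finset.prod_const, Finset.card_univ, Fintype.card_fin, pow_succ]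
  have := (mx_pos y).ne'
  field_simp

/-- `y` is as close to one of the points as the product of all distances says -/
theorem near_point (α : Fin d → K) (hα : Function.Injective α) (γ : K) (hγ : γ ≠ 0) :
    ∃ C : ℝ, 1 ≤ C ∧ ∀ y : K, ∃ i : Option (Fin d),
      del α i y ≤ C * (‖γ * ∏ i, (y - α i)‖ / mx y ^ (d + 1)) := by
  classical
  obtain ⟨c, hc, h⟩ := del_two α hα
  have hγ' : 0 < ‖γ‖ := norm_pos_iff.mpr hγ
  refine ⟨max 1 ((c ^ d)⁻¹ * ‖γ‖⁻¹), le_max_left _ _, fun y => ?_⟩
  obtain ⟨i, -, hi⟩ := Finset.exists_min_image (univ : Finset (Option (Fin d))) (fun i => del α i y)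
    ⟨none, mem_univ _⟩
  refine ⟨i, ?_⟩
  have h1 : ∀ j ∈ univ.erase i, c ≤ del α j y := by
    intro j hj
    have h2 := h i j (Finset.ne_of_mem_erase hj).symm y
    rwa [max_eq_right (hi j (mem_univ j))] at h2
  have h2 : c ^ d ≤ ∏ j ∈ univ.erase i, del α j y := by
    calc c ^ d = ∏ j ∈ univ.erase i, c := by
          rw [Finset.prod_const, Finset.card_erase_of_mem (mem_univ i), Finset.card_univ, Fintype.card_option,
            Fintype.card_fin, Nat.add_sub_cancel]
      _ ≤ _ := Finset.prod_le_prod (fun _ _ => hc.le) h1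
  have h3 : del α i y * c ^ d ≤ ∏ i : Option (Fin d), del α i y := by
    rw [← Finset.mul_prod_erase univ _ (mem_univ i)]
    exact mul_le_mul_of_nonneg_left h2 (del_nonneg _ _ _)
  have hcd : 0 < c ^ d := pow_pos hc d
  have e : (c ^ d)⁻¹ * ‖γ‖⁻¹ * (‖γ * ∏ i, (y - α i)‖ / mx y ^ (d + 1)) = (c ^ d)⁻¹ * ∏ i : Option (Fin d), del α i y := by
    rw [prod_del, norm_mul]
    field_simp
  have h4 : del α i y ≤ (c ^ d)⁻¹ * ∏ i : Option (Fin d), del α i y := by
    rw [← div_eq_inv_mul, le_div_iff₀ hcd]
    exact h3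
  rw [← e] at h4
  exact h4.trans (mul_le_mul_of_nonneg_right (le_max_right _ _) (div_nonneg (norm_nonneg _) (pow_nonneg (mx_pos y).le _)))

/-- Gauss-type lemma for quadratic polynomials -/
theorem gauss_upper (a b c y z : K) (hb : b = -(a * (y + z))) (hc : c = a * (y * z)) (N : ℝ)
    (ha' : ‖a‖ ≤ N) (hb' : ‖b‖ ≤ N) (hc' : ‖c‖ ≤ N) : ‖a‖ * (mx y * mx z) ≤ 8 * N := by
  have hN : 0 ≤ N := (norm_nonneg a).trans ha'
  -- symmetric statement
  have key : ∀ y z : K, ‖z‖ ≤ ‖y‖ → b = -(a * (y + z)) → c = a * (y * z) → ‖a‖ * (mx y * mx z) ≤ 8 * N := by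
    intro y z hzy hb hc
    have ha0 := norm_nonneg a
    rcases le_total ‖z‖ 2 with hz | hz
    · have hmz : mx z ≤ 2 := max_le (by norm_num) hz
      rcases le_total ‖y‖ 4 with hy | hy
      · have hmy : mx y ≤ 4 := max_le (by norm_num) hy
        have : mx y * mx z ≤ 8 := by nlinarith [mx_pos y, mx_pos z]
        nlinarith
      · have hmy : mx y = ‖y‖ := max_eq_right (by linarith)
        have h1 : ‖b‖ = ‖a‖ * ‖y + z‖ := by rw [hb, norm_neg, norm_mul]
        have h2 : ‖y‖ / 2 ≤ ‖y + z‖ := by
          have := norm_sub_norm_le y (-z)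
          rw [norm_neg, sub_neg_eq_add] at this
          linarith
        have h3 : ‖a‖ * (‖y‖ / 2) ≤ N := by
          calc ‖a‖ * (‖y‖ / 2) ≤ ‖a‖ * ‖y + z‖ := mul_le_mul_of_nonneg_left h2 ha0
            _ = ‖b‖ := h1.symm
            _ ≤ N := hb'
        rw [hmy]
        have h4 : ‖a‖ * (‖y‖ * mx z) ≤ ‖a‖ * (‖y‖ * 2) :=
          mul_le_mul_of_nonneg_left (mul_le_mul_of_nonneg_left hmz (norm_nonneg y)) ha0
        nlinarith
    · have hmz : mx z = ‖z‖ := max_eq_right (by linarith)
      have hmy : mx y = ‖y‖ := max_eq_right (by linarith)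
      have : ‖a‖ * (mx y * mx z) = ‖c‖ := by rw [hmz, hmy, hc, norm_mul, norm_mul]
      rw [this]; linarith
  rcases le_total ‖z‖ ‖y‖ with h | h
  · exact key y z h hb hc
  · have := key z y h (by rw [hb]; ring) (by rw [hc]; ring)
    rwa [mul_comm (mx z)] at this

theorem gauss_lower (a b c y z : K) (hb : b = -(a * (y + z))) (hc : c = a * (y * z)) (N : ℝ)
    (hN : N ≤ ‖a‖ ∨ N ≤ ‖b‖ ∨ N ≤ ‖c‖) : N ≤ 2 * (‖a‖ * (mx y * mx z)) := by
  have ha0 := norm_nonneg a
  have h1 := one_le_mx y
  have h2 := one_le_mx z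
  have h3 := norm_le_mx y
  have h4 := norm_le_mx z
  have h12 : 1 ≤ mx y * mx z := by nlinarith
  rcases hN with h | h | h
  · nlinarith
  · have h5 : ‖b‖ ≤ ‖a‖ * (‖y‖ + ‖z‖) := by
      rw [hb, norm_neg, norm_mul]
      exact mul_le_mul_of_nonneg_left (norm_add_le _ _) ha0
    have h6 : ‖y‖ + ‖z‖ ≤ 2 * (mx y * mx z) := by nlinarith
    nlinarith
  · have h5 : ‖c‖ = ‖a‖ * (‖y‖ * ‖z‖) := by rw [hc, norm_mul, norm_mul]
    have h6 : ‖y‖ * ‖z‖ ≤ mx y * mx z := mul_le_mul h3 h4 (norm_nonneg _) (mx_pos y).le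
    nlinarith

end

end Pool.Agent.Helper77.Voj
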