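import Mathlib
import Pool.Agent.Helper77.Voj.Local

/-!
Values, determinants and resultants of quadratic forms.
-/

namespace Pool.Agent.Helper77.Voj

open Finset

/-- resultant of two quadratic forms -/
def res {R : Type*} [CommRing R] (f g : Fin 3 → R) : R :=
  (f 0 * g 2 - f 2 * g 0) ^ 2 - (f 0 * g 1 - f 1 * g 0) * (f 1 * g 2 - f 2 * g 1)

/-- determinant of three quadratic forms -/
def det3 {R : Type*} [CommRing R] (f g h : Fin 3 → R) : R :=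
  f 0 * (g 1 * h 2 - g 2 * h 1) - f 1 * (g 0 * h 2 - g 2 * h 0) + f 2 * (g 0 * h 1 - g 1 * h 0)

section

variable {K : Type*} [NormedField K]

/-- value of a quadratic form at a point -/
def val (f : Fin 3 → K) (P : K × K) : K := f 0 * P.1 ^ 2 + f 1 * (P.1 * P.2) + f 2 * P.2 ^ 2

/-- polar value of a quadratic form at two points -/
def pol (f : Fin 3 → K) (P Q : K × K) : K :=
  2 * f 0 * (P.1 * Q.1) + f 1 * (P.1 * Q.2 + P.2 * Q.1) + 2 * f 2 * (P.2 * Q.2)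

/-- the forms in new coordinates -/
def tr (P Q : K × K) (f : Fin 3 → K) : Fin 3 → K := ![val f P, pol f P Q, val f Q]

theorem det3_tr (P Q : K × K) (f g h : Fin 3 → K) :
    det3 (tr P Q f) (tr P Q g) (tr P Q h) = (P.1 * Q.2 - P.2 * Q.1) ^ 3 * det3 f g h := by
  simp only [det3, tr, val, pol, Matrix.cons_val_zero, Matrix.cons_val_one, Matrix.cons_val]
  ring

theorem res_tr (P Q : K × K) (f g : Fin 3 → K) :
    res (tr P Q f) (tr P Q g) = (P.1 * Q.2 - P.2 * Q.1) ^ 4 * res f g := by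
  simp only [res, tr, val, pol, Matrix.cons_val_zero, Matrix.cons_val_one, Matrix.cons_val]
  ring

theorem norm_mul_sub_le (a b c e : K) {A B : ℝ} (ha : ‖a‖ ≤ A) (hb : ‖b‖ ≤ B) (hc : ‖c‖ ≤ B) (he : ‖e‖ ≤ A) :
    ‖a * b - c * e‖ ≤ 2 * (A * B) := by
  have hA : 0 ≤ A := (norm_nonneg a).trans ha
  have hB : 0 ≤ B := (norm_nonneg b).trans hb
  calc ‖a * b - c * e‖ ≤ ‖a * b‖ + ‖c * e‖ := norm_sub_le _ _
    _ = ‖a‖ * ‖b‖ + ‖c‖ * ‖e‖ := by rw [norm_mul, norm_mul]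
    _ ≤ A * B + B * A := add_le_add (mul_le_mul ha hb (norm_nonneg _) hA) (mul_le_mul hc he (norm_nonneg _) hB)
    _ = 2 * (A * B) := by ring

theorem norm_det3_le (f g h : Fin 3 → K) {A V B : ℝ}
    (hf : ‖f 0‖ ≤ A ∧ ‖f 1‖ ≤ V ∧ ‖f 2‖ ≤ B) (hg : ‖g 0‖ ≤ A ∧ ‖g 1‖ ≤ V ∧ ‖g 2‖ ≤ B)
    (hh : ‖h 0‖ ≤ A ∧ ‖h 1‖ ≤ V ∧ ‖h 2‖ ≤ B) : ‖det3 f g h‖ ≤ 6 * (A * V * B) := by
  have hA : 0 ≤ A := (norm_nonneg _).trans hf.1
  have hV : 0 ≤ V := (norm_nonneg _).trans hf.2.1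
  have hB : 0 ≤ B := (norm_nonneg _).trans hf.2.2
  have e1 : ‖g 1 * h 2 - g 2 * h 1‖ ≤ 2 * (V * B) := norm_mul_sub_le _ _ _ _ hg.2.1 hh.2.2 hg.2.2 hh.2.1
  have e2 : ‖g 0 * h 2 - g 2 * h 0‖ ≤ 2 * (A * B) := norm_mul_sub_le _ _ _ _ hg.1 hh.2.2 hg.2.2 hh.1
  have e3 : ‖g 0 * h 1 - g 1 * h 0‖ ≤ 2 * (A * V) := norm_mul_sub_le _ _ _ _ hg.1 hh.2.1 hg.2.1 hh.1
  have h1 : ‖f 0 * (g 1 * h 2 - g 2 * h 1)‖ ≤ A * (2 * (V * B)) := by
    rw [norm_mul]; exact mul_le_mul hf.1 e1 (norm_nonneg _) hA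
  have h2 : ‖f 1 * (g 0 * h 2 - g 2 * h 0)‖ ≤ V * (2 * (A * B)) := by
    rw [norm_mul]; exact mul_le_mul hf.2.1 e2 (norm_nonneg _) hV
  have h3 : ‖f 2 * (g 0 * h 1 - g 1 * h 0)‖ ≤ B * (2 * (A * V)) := by
    rw [norm_mul]; exact mul_le_mul hf.2.2 e3 (norm_nonneg _) hB
  unfold det3
  calc _ ≤ ‖f 0 * (g 1 * h 2 - g 2 * h 1) - f 1 * (g 0 * h 2 - g 2 * h 0)‖ + ‖f 2 * (g 0 * h 1 - g 1 * h 0)‖ :=
        norm_add_le _ _
    _ ≤ ‖f 0 * (g 1 * h 2 - g 2 * h 1)‖ + ‖f 1 * (g 0 * h 2 - g 2 * h 0)‖ + ‖f 2 * (g 0 * h 1 - g 1 * h 0)‖ :=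
        add_le_add (norm_sub_le _ _) le_rfl
    _ ≤ A * (2 * (V * B)) + V * (2 * (A * B)) + B * (2 * (A * V)) := add_le_add (add_le_add h1 h2) h3
    _ = 6 * (A * V * B) := by ring

theorem norm_res_le (f g : Fin 3 → K) {A V B : ℝ}
    (hf : ‖f 0‖ ≤ A ∧ ‖f 1‖ ≤ V ∧ ‖f 2‖ ≤ B) (hg : ‖g 0‖ ≤ A ∧ ‖g 1‖ ≤ V ∧ ‖g 2‖ ≤ B) :
    ‖res f g‖ ≤ 4 * (A * B) ^ 2 + 4 * (A * V * (V * B)) := by
  have hA : 0 ≤ A := (norm_nonneg _).trans hf.1
  have hV : 0 ≤ V := (norm_nonneg _).trans hf.2.1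
  have hB : 0 ≤ B := (norm_nonneg _).trans hf.2.2
  have e2 : ‖f 0 * g 2 - f 2 * g 0‖ ≤ 2 * (A * B) := norm_mul_sub_le _ _ _ _ hf.1 hg.2.2 hf.2.2 hg.1
  have e3 : ‖f 0 * g 1 - f 1 * g 0‖ ≤ 2 * (A * V) := norm_mul_sub_le _ _ _ _ hf.1 hg.2.1 hf.2.1 hg.1
  have e1 : ‖f 1 * g 2 - f 2 * g 1‖ ≤ 2 * (V * B) := norm_mul_sub_le _ _ _ _ hf.2.1 hg.2.2 hf.2.2 hg.2.1
  unfold res
  calc _ ≤ ‖(f 0 * g 2 - f 2 * g 0) ^ 2‖ + ‖(f 0 * g 1 - f 1 * g 0) * (f 1 * g 2 - f 2 * g 1)‖ := norm_sub_le _ _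
    _ = ‖f 0 * g 2 - f 2 * g 0‖ ^ 2 + ‖f 0 * g 1 - f 1 * g 0‖ * ‖f 1 * g 2 - f 2 * g 1‖ := by
        rw [norm_pow, norm_mul]
    _ ≤ (2 * (A * B)) ^ 2 + (2 * (A * V)) * (2 * (V * B)) :=
        add_le_add (pow_le_pow_left₀ (norm_nonneg _) e2 2)
          (mul_le_mul e3 e1 (norm_nonneg _) (by positivity))
    _ = _ := by ring

variable {d : ℕ}

/-- the points of the divisor -/
def pt (α : Fin d → K) : Option (Fin d) → K × K
  | none => (1, 0)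
  | some i => (α i, 1)

theorem pt_fst_le (α : Fin d → K) (i : Option (Fin d)) : ‖(pt α i).1‖ ≤ rb α := by
  rcases i with _ | i
  · simpa [pt] using one_le_rb α
  · exact norm_le_rb α i

theorem pt_snd_le (α : Fin d → K) (i : Option (Fin d)) : ‖(pt α i).2‖ ≤ rb α := by
  rcases i with _ | i
  · simpa [pt] using zero_le_one.trans (one_le_rb α)
  · simpa [pt] using one_le_rb α

theorem pt_cross (α : Fin d → K) (hα : Function.Injective α) {i j : Option (Fin d)} (hij : i ≠ j) :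
    (pt α i).1 * (pt α j).2 - (pt α i).2 * (pt α j).1 ≠ 0 := by
  rcases i with _ | i <;> rcases j with _ | j
  · exact absurd rfl hij
  · simp [pt]
  · simp [pt]
  · simp only [pt, mul_one, one_mul]
    exact sub_ne_zero.mpr fun h => hij (congrArg some (hα h))

theorem norm_two_le : ‖(2 : K)‖ ≤ 2 := by
  have : (2 : K) = 1 + 1 := by norm_num
  rw [this]
  refine (norm_add_le _ _).trans ?_
  rw [norm_one]; norm_num

theorem pol_le (α : Fin d → K) (i j : Option (Fin d)) (f : Fin 3 → K) {N : ℝ} (hf : ∀ k, ‖f k‖ ≤ N) :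
    ‖pol f (pt α i) (pt α j)‖ ≤ 6 * rb α ^ 2 * N := by
  have hN : 0 ≤ N := (norm_nonneg _).trans (hf 0)
  have hR := one_le_rb α
  have a1 := pt_fst_le α i
  have a2 := pt_snd_le α i
  have b1 := pt_fst_le α j
  have b2 := pt_snd_le α j
  have m : ∀ x y : K, ‖x‖ ≤ rb α → ‖y‖ ≤ rb α → ‖x * y‖ ≤ rb α ^ 2 := by
    intro x y hx hy
    rw [norm_mul, sq]
    exact mul_le_mul hx hy (norm_nonneg _) (by linarith)
  have t1 : ‖2 * f 0 * ((pt α i).1 * (pt α j).1)‖ ≤ 2 * N * rb α ^ 2 := by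
    rw [norm_mul, norm_mul]
    exact mul_le_mul (mul_le_mul norm_two_le (hf 0) (norm_nonneg _) (by norm_num)) (m _ _ a1 b1)
      (norm_nonneg _) (by positivity)
  have t3 : ‖2 * f 2 * ((pt α i).2 * (pt α j).2)‖ ≤ 2 * N * rb α ^ 2 := by
    rw [norm_mul, norm_mul]
    exact mul_le_mul (mul_le_mul norm_two_le (hf 2) (norm_nonneg _) (by norm_num)) (m _ _ a2 b2)
      (norm_nonneg _) (by positivity)
  have t2 : ‖f 1 * ((pt α i).1 * (pt α j).2 + (pt α i).2 * (pt α j).1)‖ ≤ N * (rb α ^ 2 + rb α ^ 2) := by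
    rw [norm_mul]
    exact mul_le_mul (hf 1) ((norm_add_le _ _).trans (add_le_add (m _ _ a1 b2) (m _ _ a2 b1)))
      (norm_nonneg _) hN
  unfold pol
  calc _ ≤ ‖2 * f 0 * ((pt α i).1 * (pt α j).1) + f 1 * ((pt α i).1 * (pt α j).2 + (pt α i).2 * (pt α j).1)‖
        + ‖2 * f 2 * ((pt α i).2 * (pt α j).2)‖ := norm_add_le _ _
    _ ≤ ‖2 * f 0 * ((pt α i).1 * (pt α j).1)‖ + ‖f 1 * ((pt α i).1 * (pt α j).2 + (pt α i).2 * (pt α j).1)‖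
        + ‖2 * f 2 * ((pt α i).2 * (pt α j).2)‖ := add_le_add (norm_add_le _ _) le_rfl
    _ ≤ 2 * N * rb α ^ 2 + N * (rb α ^ 2 + rb α ^ 2) + 2 * N * rb α ^ 2 := add_le_add (add_le_add t1 t2) t3
    _ = 6 * rb α ^ 2 * N := by ring

theorem val_le (α : Fin d → K) (i : Option (Fin d)) (f : Fin 3 → K) {N : ℝ} (hf : ∀ k, ‖f k‖ ≤ N) :
    ‖val f (pt α i)‖ ≤ 3 * rb α ^ 2 * N := by
  have hN : 0 ≤ N := (norm_nonneg _).trans (hf 0)
  have hR := one_le_rb α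
  have a1 := pt_fst_le α i
  have a2 := pt_snd_le α i
  have m : ∀ x y : K, ‖x‖ ≤ rb α → ‖y‖ ≤ rb α → ‖x * y‖ ≤ rb α ^ 2 := by
    intro x y hx hy
    rw [norm_mul, sq]
    exact mul_le_mul hx hy (norm_nonneg _) (by linarith)
  have t : ∀ (k : Fin 3) (z : K), ‖z‖ ≤ rb α ^ 2 → ‖f k * z‖ ≤ N * rb α ^ 2 := by
    intro k z hz
    rw [norm_mul]
    exact mul_le_mul (hf k) hz (norm_nonneg _) hN
  unfold val
  calc _ ≤ ‖f 0 * (pt α i).1 ^ 2 + f 1 * ((pt α i).1 * (pt α i).2)‖ + ‖f 2 * (pt α i).2 ^ 2‖ := norm_add_le _ _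
    _ ≤ ‖f 0 * (pt α i).1 ^ 2‖ + ‖f 1 * ((pt α i).1 * (pt α i).2)‖ + ‖f 2 * (pt α i).2 ^ 2‖ :=
        add_le_add (norm_add_le _ _) le_rfl
    _ ≤ N * rb α ^ 2 + N * rb α ^ 2 + N * rb α ^ 2 :=
        add_le_add (add_le_add (t 0 _ (by rw [sq]; exact m _ _ a1 a1)) (t 1 _ (m _ _ a1 a2)))
          (t 2 _ (by rw [sq]; exact m _ _ a2 a2))
    _ = 3 * rb α ^ 2 * N := by ring

/-- value at a point of the divisor in terms of the distances of the roots -/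
theorem val_eq (α : Fin d → K) (i : Option (Fin d)) (a y z : K) :
    ‖val ![a, -(a * (y + z)), a * (y * z)] (pt α i)‖ = ‖a‖ * (mx y * mx z) * (del α i y * del α i z) := by
  have h1 := (mx_pos y).ne'
  have h2 := (mx_pos z).ne'
  rcases i with _ | i
  · have e : val ![a, -(a * (y + z)), a * (y * z)] (pt α none) = a := by
      simp [val, pt]
    rw [e]
    change ‖a‖ = ‖a‖ * (mx y * mx z) * (1 / mx y * (1 / mx z))
    field_simp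
  · have e : val ![a, -(a * (y + z)), a * (y * z)] (pt α (some i)) = a * ((y - α i) * (z - α i)) := by
      simp only [val, pt, Matrix.cons_val_zero, Matrix.cons_val_one, Matrix.cons_val]
      ring
    rw [e, norm_mul, norm_mul]
    change _ = ‖a‖ * (mx y * mx z) * (‖y - α i‖ / mx y * (‖z - α i‖ / mx z))
    field_simp

/-- determinants and resultants of forms in a common box are small -/
theorem box_bounds (α : Fin d → K) (hα : Function.Injective α) : ∃ C : ℝ, 1 ≤ C ∧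
    ∀ i j : Option (Fin d), i ≠ j → ∀ N A B : ℝ, 
      (∀ f g h : Fin 3 → K, (∀ k, ‖f k‖ ≤ N) → (∀ k, ‖g k‖ ≤ N) → (∀ k, ‖h k‖ ≤ N) →
        ‖val f (pt α i)‖ ≤ A → ‖val g (pt α i)‖ ≤ A → ‖val h (pt α i)‖ ≤ A →
        ‖val f (pt α j)‖ ≤ B → ‖val g (pt α j)‖ ≤ B → ‖val h (pt α j)‖ ≤ B →
        ‖det3 f g h‖ ≤ C * (N * A * B)) ∧
      (∀ f g : Fin 3 → K, (∀ k, ‖f k‖ ≤ N) → (∀ k, ‖g k‖ ≤ N) →
        ‖val f (pt α i)‖ ≤ A → ‖val g (pt α i)‖ ≤ A → ‖val f (pt α j)‖ ≤ B → ‖val g (pt α j)‖ ≤ B →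
        ‖res f g‖ ≤ C * (N ^ 2 * A * B + (A * B) ^ 2)) := by
  classical
  -- lower bound for the cross products
  have hex : ∃ c : ℝ, 0 < c ∧ c ≤ 1 ∧ ∀ i j : Option (Fin d), i ≠ j →
      c ≤ ‖(pt α i).1 * (pt α j).2 - (pt α i).2 * (pt α j).1‖ := by
    obtain ⟨p, -, hp⟩ := Finset.exists_min_image (univ : Finset (Option (Fin d) × Option (Fin d)))
      (fun p => if p.1 = p.2 then (1 : ℝ) else min 1 ‖(pt α p.1).1 * (pt α p.2).2 - (pt α p.1).2 * (pt α p.2).1‖)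
      ⟨(none, none), mem_univ _⟩
    refine ⟨if p.1 = p.2 then (1 : ℝ) else min 1 ‖(pt α p.1).1 * (pt α p.2).2 - (pt α p.1).2 * (pt α p.2).1‖, ?_, ?_, ?_⟩
    · split_ifs with h
      · exact one_pos
      · exact lt_min one_pos (norm_pos_iff.mpr (pt_cross α hα h))
    · split_ifs with h
      · exact le_rfl
      · exact min_le_left _ _
    · intro i j hij
      refine (hp (i, j) (mem_univ _)).trans ?_
      simp only [if_neg hij]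
      exact min_le_right _ _
  obtain ⟨c, hc0, hc1, hc⟩ := hex
  set R := rb α with hR
  have hR1 : 1 ≤ R := one_le_rb α
  have hci : 1 ≤ c⁻¹ := one_le_inv_iff₀.mpr ⟨hc0, hc1⟩
  refine ⟨144 * R ^ 4 * c⁻¹ ^ 4, ?_, ?_⟩
  · have h1 : 1 ≤ R ^ 4 := one_le_pow₀ hR1
    have h2 : 1 ≤ c⁻¹ ^ 4 := one_le_pow₀ hci
    nlinarith
  intro i j hij N A B
  have hcr := hc i j hij
  have hcr0 : 0 < ‖(pt α i).1 * (pt α j).2 - (pt α i).2 * (pt α j).1‖ := hc0.trans_le hcr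
  constructor
  · intro f g h hf hg hh f1 g1 h1 f2 g2 h2
    have hN : 0 ≤ N := (norm_nonneg _).trans (hf 0)
    have hA : 0 ≤ A := (norm_nonneg _).trans f1
    have hB : 0 ≤ B := (norm_nonneg _).trans f2
    have e := det3_tr (pt α i) (pt α j) f g h
    have b := norm_det3_le (tr (pt α i) (pt α j) f) (tr (pt α i) (pt α j) g) (tr (pt α i) (pt α j) h)
      (A := A) (V := 6 * R ^ 2 * N) (B := B)
      ⟨f1, pol_le α i j f hf, f2⟩ ⟨g1, pol_le α i j g hg, g2⟩ ⟨h1, pol_le α i j h hh, h2⟩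
    rw [e, norm_mul, norm_pow] at b
    have h3 : c ^ 3 * ‖det3 f g h‖ ≤ 6 * (A * (6 * R ^ 2 * N) * B) :=
      (mul_le_mul_of_nonneg_right (pow_le_pow_left₀ hc0.le hcr 3) (norm_nonneg _)).trans b
    have h4 : ‖det3 f g h‖ ≤ c⁻¹ ^ 3 * (6 * (A * (6 * R ^ 2 * N) * B)) := by
      rw [inv_pow, ← div_eq_inv_mul, le_div_iff₀ (pow_pos hc0 3), mul_comm]
      exact h3
    have h5 : c⁻¹ ^ 3 ≤ c⁻¹ ^ 4 := pow_le_pow_right₀ hci (by norm_num)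
    have h6 : R ^ 2 ≤ R ^ 4 := pow_le_pow_right₀ hR1 (by norm_num)
    have h7 : 0 ≤ N * A * B := by positivity
    calc ‖det3 f g h‖ ≤ c⁻¹ ^ 3 * (6 * (A * (6 * R ^ 2 * N) * B)) := h4
      _ = 36 * (R ^ 2 * c⁻¹ ^ 3) * (N * A * B) := by ring
      _ ≤ 144 * (R ^ 4 * c⁻¹ ^ 4) * (N * A * B) := by
          apply mul_le_mul_of_nonneg_right _ h7
          have h8 : R ^ 2 * c⁻¹ ^ 3 ≤ R ^ 4 * c⁻¹ ^ 4 := mul_le_mul h6 h5 (by positivity) (by positivity)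
          have h9 : 0 ≤ R ^ 2 * c⁻¹ ^ 3 := by positivity
          linarith
      _ = _ := by ring
  · intro f g hf hg f1 g1 f2 g2
    have hN : 0 ≤ N := (norm_nonneg _).trans (hf 0)
    have hA : 0 ≤ A := (norm_nonneg _).trans f1
    have hB : 0 ≤ B := (norm_nonneg _).trans f2
    have e := res_tr (pt α i) (pt α j) f g
    have b := norm_res_le (tr (pt α i) (pt α j) f) (tr (pt α i) (pt α j) g)
      (A := A) (V := 6 * R ^ 2 * N) (B := B)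
      ⟨f1, pol_le α i j f hf, f2⟩ ⟨g1, pol_le α i j g hg, g2⟩
    rw [e, norm_mul, norm_pow] at b
    have h3 : c ^ 4 * ‖res f g‖ ≤ 4 * (A * B) ^ 2 + 4 * (A * (6 * R ^ 2 * N) * ((6 * R ^ 2 * N) * B)) :=
      (mul_le_mul_of_nonneg_right (pow_le_pow_left₀ hc0.le hcr 4) (norm_nonneg _)).trans b
    have h4 : ‖res f g‖ ≤ c⁻¹ ^ 4 * (4 * (A * B) ^ 2 + 4 * (A * (6 * R ^ 2 * N) * ((6 * R ^ 2 * N) * B))) := by
      rw [inv_pow, ← div_eq_inv_mul, le_div_iff₀ (pow_pos hc0 4), mul_comm]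
      exact h3
    have h6 : 1 ≤ R ^ 4 := one_le_pow₀ hR1
    have h7 : 0 ≤ c⁻¹ ^ 4 := by positivity
    calc ‖res f g‖ ≤ c⁻¹ ^ 4 * (4 * (A * B) ^ 2 + 4 * (A * (6 * R ^ 2 * N) * ((6 * R ^ 2 * N) * B))) := h4
      _ ≤ c⁻¹ ^ 4 * (144 * R ^ 4 * (N ^ 2 * A * B + (A * B) ^ 2)) := by
          apply mul_le_mul_of_nonneg_left _ h7
          have h8 : 0 ≤ (A * B) ^ 2 := sq_nonneg _
          nlinarith
      _ = _ := by ring

end

end Pool.Agent.Helper77.Voj
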