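import Mathlib
import Pool.Agent.Helper77.Voj.Forms

/-!
The local estimates, restated for absolute values.
-/

namespace Pool.Agent.Helper77.Voj

open Finset

section

variable {K : Type*} [Field K] (v : AbsoluteValue K ℝ)

/-- `max (1, |y|)` -/
noncomputable def vmx (y : K) : ℝ := max 1 (v y)

theorem vmx_pos (y : K) : 0 < vmx v y := lt_of_lt_of_le one_pos (le_max_left _ _)
theorem one_le_vmx (y : K) : 1 ≤ vmx v y := le_max_left _ _

variable {d : ℕ}

/-- distance of `y` to the point `i`; `none` is the point at infinity -/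
noncomputable def vdel (α : Fin d → K) : Option (Fin d) → K → ℝ
  | none, y => 1 / vmx v y
  | some i, y => v (y - α i) / vmx v y

theorem vdel_nonneg (α : Fin d → K) (i : Option (Fin d)) (y : K) : 0 ≤ vdel v α i y := by
  rcases i with _ | i
  · exact div_nonneg zero_le_one (vmx_pos v y).le
  · exact div_nonneg (apply_nonneg v _) (vmx_pos v y).le

/-- a bound for all roots -/
noncomputable def vrb (α : Fin d → K) : ℝ := 1 + ∑ i, v (α i)

theorem one_le_vrb (α : Fin d → K) : 1 ≤ vrb v α := by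
  unfold vrb
  have : 0 ≤ ∑ i, v (α i) := Finset.sum_nonneg fun i _ => apply_nonneg v _
  linarith

theorem vdel_eq (α : Fin d → K) (i : Option (Fin d)) (y : K) :
    vdel v α i y = @del K v.toNormedField d α i y := by
  rcases i with _ | i <;> rfl

theorem vdel_le (α : Fin d → K) (i : Option (Fin d)) (y : K) : vdel v α i y ≤ 2 * vrb v α := by
  rw [vdel_eq]
  letI := v.toNormedField
  exact del_le α i y

theorem dist_le_vdel (α : Fin d → K) (i : Option (Fin d)) (y y' : K) :
    v (y - y') ≤ (vdel v α i y + vdel v α i y') * (vmx v y * vmx v y') := by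
  rw [vdel_eq, vdel_eq]
  letI := v.toNormedField
  exact dist_le_del α i y y'

theorem near_point_av (α : Fin d → K) (hα : Function.Injective α) (γ : K) (hγ : γ ≠ 0) :
    ∃ C : ℝ, 1 ≤ C ∧ ∀ y : K, ∃ i : Option (Fin d),
      vdel v α i y ≤ C * (v (γ * ∏ i, (y - α i)) / vmx v y ^ (d + 1)) := by
  simp_rw [vdel_eq]
  letI := v.toNormedField
  exact near_point α hα γ hγ

theorem gauss_upper_av (a b c y z : K) (hb : b = -(a * (y + z))) (hc : c = a * (y * z)) (N : ℝ)
    (ha' : v a ≤ N) (hb' : v b ≤ N) (hc' : v c ≤ N) : v a * (vmx v y * vmx v z) ≤ 8 * N := by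
  letI := v.toNormedField
  exact gauss_upper a b c y z hb hc N ha' hb' hc'

theorem gauss_lower_av (a b c y z : K) (hb : b = -(a * (y + z))) (hc : c = a * (y * z)) (N : ℝ)
    (hN : N ≤ v a ∨ N ≤ v b ∨ N ≤ v c) : N ≤ 2 * (v a * (vmx v y * vmx v z)) := by
  letI := v.toNormedField
  exact gauss_lower a b c y z hb hc N hN

/-- value of a quadratic form at a point -/
def vval (f : Fin 3 → K) (P : K × K) : K := f 0 * P.1 ^ 2 + f 1 * (P.1 * P.2) + f 2 * P.2 ^ 2

/-- the points of the divisor -/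
def vpt (α : Fin d → K) : Option (Fin d) → K × K
  | none => (1, 0)
  | some i => (α i, 1)

theorem vpt_eq (α : Fin d → K) (i : Option (Fin d)) : vpt α i = @pt K v.toNormedField d α i := by
  rcases i with _ | i <;> rfl

theorem vval_le (α : Fin d → K) (i : Option (Fin d)) (f : Fin 3 → K) {N : ℝ} (hf : ∀ k, v (f k) ≤ N) :
    v (vval f (vpt α i)) ≤ 3 * vrb v α ^ 2 * N := by
  rw [vpt_eq v]
  letI := v.toNormedField
  exact val_le α i f hf

theorem vval_eq (α : Fin d → K) (i : Option (Fin d)) (a y z : K) :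
    v (vval ![a, -(a * (y + z)), a * (y * z)] (vpt α i))
      = v a * (vmx v y * vmx v z) * (vdel v α i y * vdel v α i z) := by
  rw [vpt_eq v, vdel_eq, vdel_eq]
  letI := v.toNormedField
  exact val_eq α i a y z

theorem box_bounds_av (α : Fin d → K) (hα : Function.Injective α) : ∃ C : ℝ, 1 ≤ C ∧
    ∀ i j : Option (Fin d), i ≠ j → ∀ N A B : ℝ, 
      (∀ f g h : Fin 3 → K, (∀ k, v (f k) ≤ N) → (∀ k, v (g k) ≤ N) → (∀ k, v (h k) ≤ N) →
        v (vval f (vpt α i)) ≤ A → v (vval g (vpt α i)) ≤ A → v (vval h (vpt α i)) ≤ A →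
        v (vval f (vpt α j)) ≤ B → v (vval g (vpt α j)) ≤ B → v (vval h (vpt α j)) ≤ B →
        v (det3 f g h) ≤ C * (N * A * B)) ∧
      (∀ f g : Fin 3 → K, (∀ k, v (f k) ≤ N) → (∀ k, v (g k) ≤ N) →
        v (vval f (vpt α i)) ≤ A → v (vval g (vpt α i)) ≤ A → v (vval f (vpt α j)) ≤ B →
        v (vval g (vpt α j)) ≤ B →
        v (res f g) ≤ C * (N ^ 2 * A * B + (A * B) ^ 2)) := by
  simp_rw [vpt_eq v]
  letI := v.toNormedField
  exact box_bounds α hα

end

end Pool.Agent.Helper77.Voj
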