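import Mathlib
import Pool.Agent.Helper77.Voj.Av

/-!
Absolute values on the algebraic numbers extending the absolute values of the rational numbers.
-/

namespace Pool.Agent.Helper77.Voj

open Finset

/-- the algebraic numbers -/
abbrev Qb : Type := AlgebraicClosure ℚ

theorem qb_alg : Algebra.IsAlgebraic ℚ Qb := by
  have h := AlgebraicClosure.isAlgebraic ℚ
  have e : (AlgebraicClosure.instAlgebra ℚ : Algebra ℚ Qb) = DivisionRing.toRatAlgebra := Subsingleton.elim _ _
  rw [e] at h
  exact h

instance : Algebra.IsAlgebraic ℚ Qb := qb_alg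

/-- an embedding into the complex numbers -/
noncomputable def toC : Qb →ₐ[ℚ] ℂ := IsAlgClosed.lift

/-- the archimedean absolute value -/
noncomputable def vinf : AbsoluteValue Qb ℝ :=
  (NormedField.toAbsoluteValue ℂ).comp (f := toC.toRingHom) toC.toRingHom.injective

theorem vinf_apply (x : Qb) : vinf x = ‖toC x‖ := rfl

theorem exists_vp (p : ℕ) (hp : p.Prime) : ∃ v : AbsoluteValue Qb ℝ, IsNonarchimedean v ∧
    ∀ z : ℚ, v (algebraMap ℚ Qb z) = (padicNorm p z : ℝ) := by
  haveI : Fact p.Prime := ⟨hp⟩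
  haveI : CharZero (PadicAlgCl p) := charZero_of_injective_algebraMap (algebraMap ℚ_[p] (PadicAlgCl p)).injective
  let τ : Qb →ₐ[ℚ] PadicAlgCl p := IsAlgClosed.lift
  refine ⟨(NormedField.toAbsoluteValue (PadicAlgCl p)).comp (f := τ.toRingHom) τ.toRingHom.injective, ?_, ?_⟩
  · intro x y
    change ‖τ (x + y)‖ ≤ max ‖τ x‖ ‖τ y‖
    rw [map_add]
    exact PadicAlgCl.isNonarchimedean p (τ x) (τ y)
  · intro z
    change ‖τ (algebraMap ℚ Qb z)‖ = _
    rw [AlgHom.commutes]
    have e : algebraMap ℚ (PadicAlgCl p) z = algebraMap ℚ_[p] (PadicAlgCl p) (z : ℚ_[p]) := by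
      rw [eq_ratCast, map_ratCast]
    rw [e]
    have h := PadicAlgCl.norm_extends p (z : ℚ_[p])
    rw [Padic.eq_padicNorm] at h
    exact h

/-- a `p`-adic absolute value -/
noncomputable def vp (p : ℕ) (hp : p.Prime) : AbsoluteValue Qb ℝ := (exists_vp p hp).choose

theorem vp_nonarch (p : ℕ) (hp : p.Prime) : IsNonarchimedean (vp p hp) := (exists_vp p hp).choose_spec.1

theorem vp_rat (p : ℕ) (hp : p.Prime) (z : ℚ) : vp p hp (algebraMap ℚ Qb z) = (padicNorm p z : ℝ) :=
  (exists_vp p hp).choose_spec.2 z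

theorem vinf_rat (z : ℚ) : vinf (algebraMap ℚ Qb z) = |(z : ℝ)| := by
  rw [vinf_apply, AlgHom.commutes, eq_ratCast]
  rw [Complex.norm_ratCast]

variable {S : Finset ℕ} (hS : ∀ p ∈ S, p.Prime)

/-- the absolute values attached to infinity and to the primes in `S` -/
noncomputable def va : Option S → AbsoluteValue Qb ℝ
  | none => vinf
  | some p => vp p.1 (hS p.1 p.2)

theorem va_none : va hS none = vinf := rfl

theorem va_some (p : S) : va hS (some p) = vp p.1 (hS p.1 p.2) := rfl

theorem va_some_int (p : S) (z : ℤ) : va hS (some p) (z : Qb) = (padicNorm p.1 (z : ℚ) : ℝ) := by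
  rw [va_some, ← vp_rat p.1 (hS p.1 p.2), eq_ratCast, Rat.cast_intCast]

theorem va_none_int (z : ℤ) : va hS none (z : Qb) = |(z : ℝ)| := by
  have := vinf_rat z
  rw [eq_ratCast, Rat.cast_intCast, Rat.cast_intCast] at this
  exact this

theorem va_some_int_le (p : S) (z : ℤ) : va hS (some p) (z : Qb) ≤ 1 := by
  haveI : Fact p.1.Prime := ⟨hS p.1 p.2⟩
  rw [va_some_int]
  exact_mod_cast padicNorm.of_int z

/-- product of the local absolute values of a nonzero integer -/
theorem one_le_prod_va {z : ℤ} (hz : z ≠ 0) : 1 ≤ ∏ v : Option S, va hS v (z : Qb) := by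
  rw [Fintype.prod_option, va_none_int]
  have h1 : ∀ p : S, va hS (some p) (z : Qb) = ((p.1 ^ z.natAbs.factorization p.1 : ℕ) : ℝ)⁻¹ := by
    intro p
    haveI : Fact p.1.Prime := ⟨hS p.1 p.2⟩
    rw [va_some_int, padicNorm.eq_zpow_of_nonzero (by exact_mod_cast hz), padicValRat.of_int]
    push_cast
    rw [zpow_neg, zpow_natCast, padicValInt, Nat.factorization_def _ (hS p.1 p.2)]
  simp_rw [h1]
  rw [Finset.prod_inv_distrib, ← Nat.cast_prod]
  have h2 : ∏ p : S, p.1 ^ z.natAbs.factorization p.1 ≤ z.natAbs := by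
    rw [Finset.prod_coe_sort S (fun p => p ^ z.natAbs.factorization p)]
    have h0 : z.natAbs ≠ 0 := Int.natAbs_ne_zero.mpr hz
    calc ∏ p ∈ S, p ^ z.natAbs.factorization p
        ≤ ∏ p ∈ S ∪ z.natAbs.primeFactors, p ^ z.natAbs.factorization p := by
          apply Finset.prod_le_prod_of_subset_of_one_le' Finset.subset_union_left
          intro p hp _
          have hp0 : 0 < p := by
            rcases Finset.mem_union.mp hp with h | h
            · exact (hS p h).pos
            · exact (Nat.prime_of_mem_primeFactors h).pos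
          exact Nat.one_le_pow _ _ hp0
      _ = ∏ p ∈ z.natAbs.primeFactors, p ^ z.natAbs.factorization p := by
          symm
          apply Finset.prod_subset Finset.subset_union_right
          intro p _ hp
          rw [← Nat.support_factorization, Finsupp.notMem_support_iff] at hp
          rw [hp, pow_zero]
      _ = z.natAbs := Nat.factorization_prod_pow_eq_self h0
  have h3 : (0 : ℝ) < ((∏ p : S, p.1 ^ z.natAbs.factorization p.1 : ℕ) : ℝ) := by
    have : 0 < ∏ p : S, p.1 ^ z.natAbs.factorization p.1 :=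
      Finset.prod_pos fun p _ => pow_pos (hS p.1 p.2).pos _
    exact_mod_cast this
  rw [← div_eq_mul_inv, one_le_div h3]
  have h4 : ((∏ p : S, p.1 ^ z.natAbs.factorization p.1 : ℕ) : ℝ) ≤ (z.natAbs : ℝ) := by exact_mod_cast h2
  rw [Nat.cast_natAbs, Int.cast_abs] at h4
  exact h4

end Pool.Agent.Helper77.Voj
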