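import Mathlib
import Pool.Agent.Helper77.Voj.Abs

/-!
Heights, Weil functions and discriminants of algebraic points of the projective line.
-/

namespace Pool.Agent.Helper77.Voj

open NumberField IntermediateField Polynomial

/-- the residue field of an algebraic point is a number field -/
noncomputable instance instNF (x : AlgebraicClosure ℚ) : NumberField ℚ⟮x⟯ :=
  haveI : FiniteDimensional ℚ ℚ⟮x⟯ := adjoin.finiteDimensional (Algebra.IsIntegral.isIntegral x)
  {}

/-- the point `x` with coordinate in its residue field -/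
noncomputable def pnt (x : AlgebraicClosure ℚ) : ℚ⟮x⟯ := AdjoinSimple.gen ℚ x

/-- local Weil function `q log max (1, |x|) - log |g(x)|` from the values `u = |x|`, `v = |g(x)|` -/
noncomputable def weil (q : ℕ) (u v : ℝ) : ℝ := q * Real.log (max 1 u) - Real.log v

/-- `∑ λ_D(x, v)` over the infinite place and the primes in `S`, for the divisor `D` of degree `q`
with finite part `g = 0` -/
noncomputable def lamD (S : Finset ℕ) (g : ℚ[X]) (q : ℕ) (x : AlgebraicClosure ℚ) : ℝ :=
  ((∑ w : InfinitePlace ℚ⟮x⟯, (w.mult : ℝ) * weil q (w (pnt x)) (w (aeval (pnt x) g)))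
    + ∑ᶠ w ∈ {w : FinitePlace ℚ⟮x⟯ | ∃ p ∈ S, w (p : ℚ⟮x⟯) < 1}, weil q (w (pnt x)) (w (aeval (pnt x) g)))
  / Module.finrank ℚ ℚ⟮x⟯

/-- normalised logarithmic discriminant -/
noncomputable def dQ (x : AlgebraicClosure ℚ) : ℝ := Real.log |(discr ℚ⟮x⟯ : ℝ)| / Module.finrank ℚ ℚ⟮x⟯

theorem absLog_eq (x : AlgebraicClosure ℚ) :
    absLogHeight₁ x = Height.logHeight₁ (pnt x) / Module.finrank ℚ ℚ⟮x⟯ := by
  have hx : IsIntegral ℚ x := Algebra.IsIntegral.isIntegral x
  unfold absLogHeight₁ absMulHeight₁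
  rw [dif_pos hx, Real.log_rpow (Height.mulHeight₁_pos _), Height.logHeight₁_eq_log_mulHeight₁, div_eq_inv_mul]
  rfl

end Pool.Agent.Helper77.Voj
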