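import Mathlib
import Pool.Agent.Helper77.Voj.Abs

/-!
Primitive integral quadratic forms together with their roots.
-/

namespace Pool.Agent.Helper77.Voj

open Finset

/-- a primitive integral quadratic polynomial with positive leading coefficient and irrational
roots `y`, `z` -/
structure FR (f : Fin 3 → ℤ) (y z : Qb) : Prop where
  pos : 0 < f 0
  hb : (f 1 : Qb) = -(f 0 * (y + z))
  hc : (f 2 : Qb) = f 0 * (y * z)
  prim : ∃ u v w : ℤ, u * f 0 + v * f 1 + w * f 2 = 1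
  irr : ∀ r : ℚ, (r : Qb) ≠ y

theorem FR.a_ne {f : Fin 3 → ℤ} {y z : Qb} (h : FR f y z) : (f 0 : Qb) ≠ 0 := by
  exact_mod_cast h.pos.ne'

theorem FR.irr' {f : Fin 3 → ℤ} {y z : Qb} (h : FR f y z) (r : ℚ) : (r : Qb) ≠ z := by
  intro e
  have ha := h.a_ne
  have h1 : y = ((-(f 1 : ℚ) / f 0 - r : ℚ) : Qb) := by
    push_cast
    rw [e, h.hb]
    field_simp
    ring
  exact h.irr _ h1.symm

theorem FR.symm {f : Fin 3 → ℤ} {y z : Qb} (h : FR f y z) : FR f z y where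
  pos := h.pos
  hb := by rw [h.hb]; ring
  hc := by rw [h.hc]; ring
  prim := h.prim
  irr := h.irr'

theorem FR.eval {f : Fin 3 → ℤ} {y z : Qb} (h : FR f y z) (x : Qb) :
    (f 0 : Qb) * x ^ 2 + f 1 * x + f 2 = f 0 * ((x - y) * (x - z)) := by
  rw [h.hb, h.hc]; ring

theorem eq_of_prop {f g : Fin 3 → ℤ} (hf : 0 < f 0) (hg : 0 < g 0)
    (pf : ∃ u v w : ℤ, u * f 0 + v * f 1 + w * f 2 = 1) (pg : ∃ u v w : ℤ, u * g 0 + v * g 1 + w * g 2 = 1)
    (h1 : f 0 * g 1 = f 1 * g 0) (h2 : f 0 * g 2 = f 2 * g 0) : f = g := by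
  obtain ⟨u, v, w, huvw⟩ := pf
  obtain ⟨u', v', w', huvw'⟩ := pg
  have d1 : f 0 ∣ g 0 := ⟨u * g 0 + v * g 1 + w * g 2, by linear_combination (-g 0) * huvw - v * h1 - w * h2⟩
  have d2 : g 0 ∣ f 0 := ⟨u' * f 0 + v' * f 1 + w' * f 2, by linear_combination (-f 0) * huvw' + v' * h1 + w' * h2⟩
  have e0 : f 0 = g 0 := Int.dvd_antisymm hf.le hg.le d1 d2
  have e1 : f 1 = g 1 := by
    apply mul_left_cancel₀ hf.ne'
    rw [h1, mul_comm (f 1), e0]
  have e2 : f 2 = g 2 := by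
    apply mul_left_cancel₀ hf.ne'
    rw [h2, mul_comm (f 2), e0]
  funext i
  fin_cases i
  · exact e0
  · exact e1
  · exact e2

theorem FR.eq_of_common {f g : Fin 3 → ℤ} {y z z' : Qb} (hf : FR f y z) (hg : FR g y z') : f = g := by
  have ef : (f 0 : Qb) * y ^ 2 + f 1 * y + f 2 = 0 := by rw [hf.eval]; ring
  have eg : (g 0 : Qb) * y ^ 2 + g 1 * y + g 2 = 0 := by rw [hg.eval]; ring
  have h1 : ((f 0 * g 1 - f 1 * g 0 : ℤ) : Qb) * y + ((f 0 * g 2 - f 2 * g 0 : ℤ) : Qb) = 0 := by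
    push_cast
    linear_combination (f 0 : Qb) * eg - (g 0 : Qb) * ef
  have h2 : f 0 * g 1 - f 1 * g 0 = 0 := by
    by_contra hne
    have hne' : ((f 0 * g 1 - f 1 * g 0 : ℤ) : Qb) ≠ 0 := by exact_mod_cast hne
    apply hf.irr ((-((f 0 * g 2 - f 2 * g 0 : ℤ) : ℚ)) / ((f 0 * g 1 - f 1 * g 0 : ℤ) : ℚ))
    rw [Rat.cast_div, Rat.cast_neg, Rat.cast_intCast, Rat.cast_intCast, div_eq_iff hne']
    linear_combination (-1 : Qb) * h1
  have h3 : f 0 * g 2 - f 2 * g 0 = 0 := by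
    rw [h2, Int.cast_zero, zero_mul, zero_add] at h1
    exact_mod_cast h1
  exact eq_of_prop hf.pos hg.pos hf.prim hg.prim (sub_eq_zero.mp h2) (sub_eq_zero.mp h3)

theorem FR.res_ne {f g : Fin 3 → ℤ} {y z y' z' : Qb} (hf : FR f y z) (hg : FR g y' z') (hne : f ≠ g) :
    res f g ≠ 0 := by
  intro h0
  unfold res at h0
  set P := f 0 * g 1 - f 1 * g 0 with hP
  set Q := f 0 * g 2 - f 2 * g 0 with hQ
  set R := f 1 * g 2 - f 2 * g 1 with hR
  have hPR : f 0 * R - f 1 * Q + f 2 * P = 0 := by rw [hP, hQ, hR]; ring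
  by_cases hP0 : P = 0
  · rw [hP0, zero_mul, sub_zero] at h0
    have hQ0 : Q = 0 := pow_eq_zero_iff (two_ne_zero) |>.mp h0
    exact hne (eq_of_prop hf.pos hg.pos hf.prim hg.prim (sub_eq_zero.mp hP0) (sub_eq_zero.mp hQ0))
  · have hP' : (P : Qb) ≠ 0 := by exact_mod_cast hP0
    have e := hf.eval ((-(Q : ℚ) / P : ℚ) : Qb)
    have hx : (((-(Q : ℚ) / P : ℚ)) : Qb) = -(Q : Qb) / P := by push_cast; rfl
    have h0' : (Q : Qb) ^ 2 - P * R = 0 := by exact_mod_cast congrArg (fun z : ℤ => (z : Qb)) h0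
    have hPR' : (f 0 : Qb) * R - f 1 * Q + f 2 * P = 0 := by
      exact_mod_cast congrArg (fun z : ℤ => (z : Qb)) hPR
    have e2 : (f 0 : Qb) * ((-(Q : ℚ) / P : ℚ) : Qb) ^ 2 + f 1 * ((-(Q : ℚ) / P : ℚ) : Qb) + f 2 = 0 := by
      rw [hx]
      field_simp
      linear_combination (f 0 : Qb) * h0' + (P : Qb) * hPR'
    rw [e] at e2
    rcases mul_eq_zero.mp e2 with h | h
    · exact hf.a_ne h
    · rcases mul_eq_zero.mp h with h | h
      · exact hf.irr _ (sub_eq_zero.mp h)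
      · exact hf.irr' _ (sub_eq_zero.mp h)

/-- the key identity of the gap principle -/
theorem gap_identity {f g : Fin 3 → ℤ} {y z y' z' r : Qb} (hf : FR f y z) (hg : FR g y' z') {D t t' : ℤ}
    (hr : r ^ 2 = D) (h1 : (f 0 : Qb) * (y - z) = t * r) (h2 : (g 0 : Qb) * (y' - z') = t' * r) :
    ((f 1 * g 1 - 2 * f 0 * g 2 - 2 * f 2 * g 0 - D * t * t' : ℤ) : Qb)
      = -2 * (f 0 * g 0) * ((y - y') * (z - z')) := by
  push_cast
  have h3 : (D : Qb) * t * t' = (f 0 : Qb) * (y - z) * ((g 0 : Qb) * (y' - z')) := by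
    rw [h1, h2, ← hr]; ring
  rw [h3, hf.hb, hf.hc, hg.hb, hg.hc]
  ring

end Pool.Agent.Helper77.Voj
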