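import Mathlib

/-!
Local norms of ideals and elements at the places above a prime number.
-/

namespace Pool.Agent.Helper77.Voj

open NumberField Ideal IsDedekindDomain

variable {L : Type*} [Field L] [NumberField L]

/-- the finite places of `L` above the prime number `p` -/
def plAb (L : Type*) [Field L] [NumberField L] (p : ℕ) : Set (FinitePlace L) := {w | w (p : L) < 1}

theorem lt_one_iff (w : FinitePlace L) (x : 𝓞 L) : w (x : L) < 1 ↔ x ∈ w.maximalIdeal.asIdeal := by
  rw [← FinitePlace.norm_embedding_eq]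
  exact FinitePlace.norm_lt_one_iff_mem L w.maximalIdeal x

theorem mem_over (w : FinitePlace L) (p : ℕ) : w ∈ plAb L p ↔ (p : 𝓞 L) ∈ w.maximalIdeal.asIdeal := by
  rw [← lt_one_iff]
  simp [plAb]

theorem over_finite (L : Type*) [Field L] [NumberField L] (p : ℕ) (hp : p ≠ 0) : (plAb L p).Finite := by
  have h := FinitePlace.hasFiniteMulSupport (K := L) (x := (p : L)) (by exact_mod_cast hp)
  refine Set.Finite.subset h ?_
  intro w hw
  simp only [Function.mem_mulSupport]
  exact (show w (p : L) < 1 from hw).ne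

theorem exists_char (w : FinitePlace L) : ∃ ℓ n : ℕ, ℓ.Prime ∧
    absNorm w.maximalIdeal.asIdeal = ℓ ^ n ∧ (ℓ : 𝓞 L) ∈ w.maximalIdeal.asIdeal := by
  classical
  have hmax := w.maximalIdeal.isMaximal
  let F := 𝓞 L ⧸ w.maximalIdeal.asIdeal
  letI : Field F := Ideal.Quotient.field _
  haveI : Finite F := w.maximalIdeal.asIdeal.finiteQuotientOfFreeOfNeBot w.maximalIdeal.ne_bot
  letI : Fintype F := Fintype.ofFinite F
  obtain ⟨ℓ, hℓ⟩ := CharP.exists F
  obtain ⟨n, hpr, hcard⟩ := FiniteField.card F ℓ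
  refine ⟨ℓ, n, hpr, ?_, ?_⟩
  · rw [absNorm_apply, Submodule.cardQuot_apply, ← hcard, Nat.card_eq_fintype_card]
  · rw [← Ideal.Quotient.eq_zero_iff_mem]
    have : ((ℓ : ℕ) : F) = 0 := CharP.cast_eq_zero F ℓ
    simpa using this

theorem over_iff {p ℓ : ℕ} (hp : p.Prime) (hℓ : ℓ.Prime) (w : FinitePlace L)
    (h : (ℓ : 𝓞 L) ∈ w.maximalIdeal.asIdeal) : w ∈ plAb L p ↔ p = ℓ := by
  rw [mem_over]
  constructor
  · intro h'
    by_contra hne
    have hcop : IsCoprime (p : ℤ) (ℓ : ℤ) := by
      rw [Nat.isCoprime_iff_coprime]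
      exact (Nat.coprime_primes hp hℓ).mpr hne
    obtain ⟨a, b, hab⟩ := hcop
    have : (1 : 𝓞 L) ∈ w.maximalIdeal.asIdeal := by
      have e : (1 : 𝓞 L) = (a : 𝓞 L) * (p : 𝓞 L) + (b : 𝓞 L) * (ℓ : 𝓞 L) := by
        exact_mod_cast (congrArg (fun z : ℤ => (z : 𝓞 L)) hab).symm
      rw [e]
      exact Ideal.add_mem _ (Ideal.mul_mem_left _ _ h') (Ideal.mul_mem_left _ _ h)
    exact w.maximalIdeal.isPrime.ne_top ((Ideal.eq_top_iff_one _).mpr this)
  · rintro rfl; exact h

/-- local factor of an ideal at a finite place -/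
noncomputable def lf (w : FinitePlace L) (I : Ideal (𝓞 L)) : ℕ :=
  absNorm w.maximalIdeal.asIdeal ^ multiplicity w.maximalIdeal.asIdeal I

theorem absNorm_eq_finprod {I : Ideal (𝓞 L)} (hI : I ≠ ⊥) :
    absNorm I = ∏ᶠ w : FinitePlace L, lf w I := by
  conv_lhs => rw [← FinitePlace.finprod_finitePlace_pow_multiplicity hI]
  rw [map_finprod _ (FinitePlace.hasFiniteMulSupport_fun_pow_multiplicity hI (fun J => J))]
  simp only [map_pow, lf]

theorem lf_support {I : Ideal (𝓞 L)} (hI : I ≠ ⊥) : (fun w : FinitePlace L => lf w I).HasFiniteMulSupport :=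
  FinitePlace.hasFiniteMulSupport_fun_pow_multiplicity hI (fun J => absNorm J)

/-- the local norm at `p` of an ideal is the `p`-part of its norm -/
theorem prod_over {p : ℕ} (hp : p.Prime) {I : Ideal (𝓞 L)} (hI : I ≠ ⊥) :
    ∏ w ∈ (over_finite L p hp.ne_zero).toFinset, lf w I = p ^ padicValNat p (absNorm I) := by
  classical
  haveI : Fact p.Prime := ⟨hp⟩
  set A := (over_finite L p hp.ne_zero).toFinset with hA
  have hfs : (Function.mulSupport (fun w : FinitePlace L => lf w I)).Finite := lf_support hI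
  have hT : absNorm I = ∏ w ∈ hfs.toFinset ∪ A, lf w I := by
    rw [absNorm_eq_finprod hI]
    apply finprod_eq_prod_of_mulSupport_subset
    intro w hw
    simp only [Finset.coe_union, Set.mem_union]
    left; simpa using hw
  have hsplit : absNorm I = (∏ w ∈ A, lf w I) * ∏ w ∈ (hfs.toFinset ∪ A) \ A, lf w I := by
    rw [hT, mul_comm, Finset.prod_sdiff (Finset.subset_union_right)]
  have hpow : ∃ m : ℕ, ∏ w ∈ A, lf w I = p ^ m := by
    have : ∀ B : Finset (FinitePlace L), B ⊆ A → ∃ m : ℕ, ∏ w ∈ B, lf w I = p ^ m := by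
      intro B
      induction B using Finset.induction_on with
      | empty => intro _; exact ⟨0, by simp⟩
      | insert w B hw ih =>
        intro hB
        obtain ⟨m, hm⟩ := ih (fun x hx => hB (Finset.mem_insert_of_mem hx))
        obtain ⟨ℓ, n, hℓ, h1, h2⟩ := exists_char w
        have hwA : w ∈ plAb L p := by
          have := hB (Finset.mem_insert_self w B)
          simpa [hA] using this
        have e := (over_iff hp hℓ w h2).mp hwA
        refine ⟨n * multiplicity w.maximalIdeal.asIdeal I + m, ?_⟩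
        rw [Finset.prod_insert hw, hm, lf, h1, ← e, ← pow_mul, pow_add]
    exact this A (Finset.Subset.refl _)
  obtain ⟨m, hm⟩ := hpow
  have hcop : Nat.Coprime p (∏ w ∈ (hfs.toFinset ∪ A) \ A, lf w I) := by
    apply Nat.Coprime.prod_right
    intro w hw
    obtain ⟨ℓ, n, hℓ, h1, h2⟩ := exists_char w
    have hne : p ≠ ℓ := by
      intro e
      have := (over_iff hp hℓ w h2).mpr e
      have hwA : w ∈ A := by simpa [hA] using this
      exact (Finset.mem_sdiff.mp hw).2 hwA
    rw [lf, h1]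
    exact Nat.Coprime.pow_right _ (Nat.Coprime.pow_right _ ((Nat.coprime_primes hp hℓ).mpr hne))
  rw [hm, hsplit, hm]
  have h0 : ∏ w ∈ (hfs.toFinset ∪ A) \ A, lf w I ≠ 0 := by
    intro h; rw [h, Nat.coprime_zero_right] at hcop; exact hp.one_lt.ne' hcop
  rw [padicValNat.mul (pow_ne_zero _ hp.ne_zero) h0, padicValNat.prime_pow,
    padicValNat.eq_zero_of_not_dvd ((Nat.Prime.coprime_iff_not_dvd hp).mp hcop), add_zero]

end Pool.Agent.Helper77.Voj
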