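import Mathlib
import Pool.Agent.Helper77.Voj.Loc

/-!
Products of local absolute values over the places above a prime number.
-/

namespace Pool.Agent.Helper77.Voj

open NumberField Ideal IsDedekindDomain

variable {L : Type*} [Field L] [NumberField L]

/-- the places above a prime number, as a finset -/
noncomputable def ab (L : Type*) [Field L] [NumberField L] (p : ℕ) (hp : p.Prime) :
    Finset (FinitePlace L) := (over_finite L p hp.ne_zero).toFinset

theorem mem_ab {p : ℕ} {hp : p.Prime} {w : FinitePlace L} : w ∈ ab L p hp ↔ w (p : L) < 1 := by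
  simp [ab, plAb]

theorem prod_ab {p : ℕ} (hp : p.Prime) {I : Ideal (𝓞 L)} (hI : I ≠ ⊥) :
    ∏ w ∈ ab L p hp, lf w I = p ^ padicValNat p (absNorm I) := prod_over hp hI

theorem lf_pos (w : FinitePlace L) (I : Ideal (𝓞 L)) : 0 < lf w I := by
  unfold lf
  apply pow_pos
  rw [Nat.pos_iff_ne_zero]
  exact absNorm_eq_zero_iff.not.mpr w.maximalIdeal.ne_bot

theorem apply_mul_lf (w : FinitePlace L) {y : 𝓞 L} (hy : y ≠ 0) : w (y : L) * lf w (span {y}) = 1 := by
  have := FinitePlace.apply_mul_absNorm_pow_eq_one w hy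
  rw [lf]; push_cast; exact this

theorem padicNorm_nat (p : ℕ) [Fact p.Prime] {n : ℕ} (hn : n ≠ 0) :
    (padicNorm p (n : ℚ) : ℝ) = ((p : ℝ) ^ padicValNat p n)⁻¹ := by
  rw [padicNorm.eq_zpow_of_nonzero (by exact_mod_cast hn), padicValRat.of_nat]
  push_cast
  rw [zpow_neg, padicValRat.of_nat, zpow_natCast]

theorem padicNorm_natAbs (p : ℕ) (z : ℤ) : padicNorm p (z : ℚ) = padicNorm p ((z.natAbs : ℕ) : ℚ) := by
  have h : ((z.natAbs : ℕ) : ℚ) = |(z : ℚ)| := by
    rw [← Int.cast_abs, Int.abs_eq_natAbs]; rfl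
  rw [h]
  rcases abs_choice (z : ℚ) with h | h
  · rw [h]
  · rw [h, padicNorm.neg]

/-- product of the absolute values of an integral element over the places above `p` -/
theorem prod_int {p : ℕ} (hp : p.Prime) [Fact p.Prime] {y : 𝓞 L} (hy : y ≠ 0) :
    ∏ w ∈ ab L p hp, w (y : L) = (padicNorm p (Algebra.norm ℚ (y : L)) : ℝ) := by
  have hI : span {y} ≠ ⊥ := by simpa using hy
  have h1 := prod_ab (L := L) hp hI
  have h2 : (∏ w ∈ ab L p hp, w (y : L)) * ∏ w ∈ ab L p hp, (lf w (span {y}) : ℝ) = 1 := by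
    rw [← Finset.prod_mul_distrib]
    exact Finset.prod_eq_one fun w _ => apply_mul_lf w hy
  have h3 : ∏ w ∈ ab L p hp, (lf w (span {y}) : ℝ) = (p : ℝ) ^ padicValNat p (absNorm (span {y})) := by
    exact_mod_cast congrArg (fun n : ℕ => (n : ℝ)) h1
  rw [h3] at h2
  have hN : (Algebra.norm ℚ (y : L)) = ((Algebra.norm ℤ y : ℤ) : ℚ) := (Algebra.coe_norm_int y).symm
  have hN0 : Algebra.norm ℤ y ≠ 0 := Algebra.norm_ne_zero_iff.mpr hy
  rw [hN, padicNorm_natAbs, padicNorm_nat p (Int.natAbs_ne_zero.mpr hN0), ← absNorm_span_singleton]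
  exact eq_inv_of_mul_eq_one_left h2

theorem prod_elt {p : ℕ} (hp : p.Prime) [Fact p.Prime] (y : L) (hy : y ≠ 0) :
    ∏ w ∈ ab L p hp, w y = (padicNorm p (Algebra.norm ℚ y) : ℝ) := by
  obtain ⟨a, b, hb, rfl⟩ := IsFractionRing.div_surjective (A := 𝓞 L) y
  have hb0 : b ≠ 0 := nonZeroDivisors.ne_zero hb
  have ha0 : a ≠ 0 := by
    rintro rfl; simp at hy
  have h1 := prod_int (L := L) hp ha0
  have h2 := prod_int (L := L) hp hb0
  have h3 : Algebra.norm ℚ (algebraMap (𝓞 L) L a / algebraMap (𝓞 L) L b)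
      = Algebra.norm ℚ (algebraMap (𝓞 L) L a) / Algebra.norm ℚ (algebraMap (𝓞 L) L b) := by
    have hb' : algebraMap (𝓞 L) L b ≠ 0 := by simpa using hb0
    rw [eq_div_iff (Algebra.norm_ne_zero_iff.mpr hb'), ← map_mul, div_mul_cancel₀ _ hb']
  rw [h3, padicNorm.div]
  push_cast
  rw [← RingOfIntegers.coe_eq_algebraMap, ← RingOfIntegers.coe_eq_algebraMap, ← h1, ← h2,
    ← Finset.prod_div_distrib]
  exact Finset.prod_congr rfl fun w _ => by rw [map_div₀]

theorem max_mul_lf (w : FinitePlace L) {y z : 𝓞 L} (hy : y ≠ 0) (hz : z ≠ 0) :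
    max (w (y : L)) (w (z : L)) * lf w (span {y, z}) = 1 := by
  have e : (span {y, z} : Ideal (𝓞 L)) = ⨆ i : Bool, span {cond i y z} := by
    rw [iSup_bool_eq]
    simp [Ideal.span_insert]
  have H : ∀ i : Bool, (span {cond i y z} : Ideal (𝓞 L)) ≠ ⊥ := by
    intro i; cases i <;> simpa
  have h1 : multiplicity w.maximalIdeal.asIdeal (span {y, z})
      = min (multiplicity w.maximalIdeal.asIdeal (span {y})) (multiplicity w.maximalIdeal.asIdeal (span {z})) := by
    rw [e, IsDedekindDomain.HeightOneSpectrum.multiplicity_iSup _ H]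
    apply le_antisymm
    · refine le_min ?_ ?_
      · exact ciInf_le' (fun i : Bool => multiplicity w.maximalIdeal.asIdeal (span {cond i y z})) true
      · exact ciInf_le' (fun i : Bool => multiplicity w.maximalIdeal.asIdeal (span {cond i y z})) false
    · refine le_ciInf fun i => ?_
      cases i
      · exact min_le_right _ _
      · exact min_le_left _ _
  have hy1 := apply_mul_lf w hy
  have hz1 := apply_mul_lf w hz
  have hypos : (0 : ℝ) < lf w (span {y}) := by exact_mod_cast lf_pos w _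
  have hzpos : (0 : ℝ) < lf w (span {z}) := by exact_mod_cast lf_pos w _
  have hN : 1 ≤ absNorm w.maximalIdeal.asIdeal := by
    rw [Nat.one_le_iff_ne_zero]
    exact absNorm_eq_zero_iff.not.mpr w.maximalIdeal.ne_bot
  have ey : w (y : L) = (lf w (span {y}) : ℝ)⁻¹ := eq_inv_of_mul_eq_one_left hy1
  have ez : w (z : L) = (lf w (span {z}) : ℝ)⁻¹ := eq_inv_of_mul_eq_one_left hz1
  have hmin : lf w (span {y, z}) = min (lf w (span {y})) (lf w (span {z})) := by
    unfold lf
    rw [h1]
    rcases le_total (multiplicity w.maximalIdeal.asIdeal (span {y})) (multiplicity w.maximalIdeal.asIdeal (span {z})) with h | h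
    · rw [min_eq_left h, min_eq_left (Nat.pow_le_pow_right hN h)]
    · rw [min_eq_right h, min_eq_right (Nat.pow_le_pow_right hN h)]
  rw [ey, ez, hmin]
  rcases le_total (lf w (span {y})) (lf w (span {z})) with h | h
  · rw [min_eq_left h, max_eq_left (inv_anti₀ hypos (by exact_mod_cast h)), inv_mul_cancel₀ hypos.ne']
  · rw [min_eq_right h, max_eq_right (inv_anti₀ hzpos (by exact_mod_cast h)), inv_mul_cancel₀ hzpos.ne']

end Pool.Agent.Helper77.Voj
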