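import Mathlib
import Pool.Agent.Helper77.Voj.Loc2

/-!
Quadratic irrationals: primitive integral quadratic equation, content formula.
-/

namespace Pool.Agent.Helper77.Voj

open NumberField Ideal IsDedekindDomain

variable {L : Type*} [Field L] [NumberField L]

/-- `x` is a root of the primitive integral quadratic polynomial `a X ^ 2 + b X + c` -/
structure QD (x : L) (a b c : ℤ) : Prop where
  ha : a ≠ 0
  root : (a : L) * x ^ 2 + b * x + c = 0
  prim : ∃ u v w : ℤ, u * a + v * b + w * c = 1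

theorem exists_prim (a b c : ℤ) (ha : a ≠ 0) : ∃ g a' b' c' : ℤ, g ≠ 0 ∧ a = g * a' ∧ b = g * b' ∧ c = g * c' ∧
    ∃ u v w : ℤ, u * a' + v * b' + w * c' = 1 := by
  obtain ⟨g1, hg1⟩ : ∃ g1 : ℤ, g1 = ((Int.gcd a b : ℕ) : ℤ) := ⟨_, rfl⟩
  obtain ⟨g, hg⟩ : ∃ g : ℤ, g = ((Int.gcd g1 c : ℕ) : ℤ) := ⟨_, rfl⟩
  have hg10 : g1 ≠ 0 := by
    intro h
    rw [hg1] at h
    have h2 : Int.gcd a b = 0 := by exact_mod_cast h
    rw [Int.gcd_eq_zero_iff] at h2
    exact ha h2.1
  have hg0 : g ≠ 0 := by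
    intro h
    rw [hg] at h
    have h1 : Int.gcd g1 c = 0 := by exact_mod_cast h
    rw [Int.gcd_eq_zero_iff] at h1
    exact hg10 h1.1
  have hd1 : g ∣ g1 := by rw [hg]; exact Int.gcd_dvd_left ..
  have hdc : g ∣ c := by rw [hg]; exact Int.gcd_dvd_right ..
  have hda : g ∣ a := hd1.trans (by rw [hg1]; exact Int.gcd_dvd_left ..)
  have hdb : g ∣ b := hd1.trans (by rw [hg1]; exact Int.gcd_dvd_right ..)
  obtain ⟨a', ha'⟩ := hda
  obtain ⟨b', hb'⟩ := hdb
  obtain ⟨c', hc'⟩ := hdc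
  have e1 : g = g1 * Int.gcdA g1 c + c * Int.gcdB g1 c := by rw [hg]; exact Int.gcd_eq_gcd_ab g1 c
  have e2 : g1 = a * Int.gcdA a b + b * Int.gcdB a b := by rw [hg1]; exact Int.gcd_eq_gcd_ab a b
  refine ⟨g, a', b', c', hg0, ha', hb', hc', Int.gcdA a b * Int.gcdA g1 c, Int.gcdB a b * Int.gcdA g1 c,
    Int.gcdB g1 c, ?_⟩
  apply mul_left_cancel₀ hg0
  have : g * (Int.gcdA a b * Int.gcdA g1 c * a' + Int.gcdB a b * Int.gcdA g1 c * b' + Int.gcdB g1 c * c')
      = (a * Int.gcdA a b + b * Int.gcdB a b) * Int.gcdA g1 c + c * Int.gcdB g1 c := by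
    rw [ha', hb', hc']; ring
  rw [this, ← e2, ← e1, mul_one]

theorem exists_QD (hL : Module.finrank ℚ L = 2) (x : L) (hx : x ∉ (algebraMap ℚ L).range) :
    ∃ a b c : ℤ, QD x a b c := by
  -- a quadratic equation over the rationals
  have hint : IsIntegral ℚ x := Algebra.IsIntegral.isIntegral x
  have hdeg : (minpoly ℚ x).natDegree ≤ 2 := by rw [← hL]; exact minpoly.natDegree_le x
  have hdeg2 : (minpoly ℚ x).natDegree = 2 := by
    have h0 : 0 < (minpoly ℚ x).natDegree := minpoly.natDegree_pos hint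
    have h1 : (minpoly ℚ x).natDegree ≠ 1 := by
      intro h
      apply hx
      rw [minpoly.natDegree_eq_one_iff] at h
      exact h
    omega
  have hm := minpoly.monic hint
  set r := (minpoly ℚ x).coeff 1 with hr
  set s := (minpoly ℚ x).coeff 0 with hs
  have hroot : x ^ 2 + (algebraMap ℚ L r) * x + algebraMap ℚ L s = 0 := by
    have h := minpoly.aeval ℚ x
    rw [Polynomial.aeval_eq_sum_range, hdeg2, Finset.sum_range_succ, Finset.sum_range_succ,
      Finset.sum_range_one] at h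
    have hc2 : (minpoly ℚ x).coeff 2 = 1 := by rw [← hdeg2]; exact hm
    rw [hc2, ← hr, ← hs, pow_zero, pow_one, one_smul, Algebra.smul_def, Algebra.smul_def, mul_one] at h
    linear_combination h
  obtain ⟨g, a, b, c, hg, h1, h2, h3, h4⟩ := exists_prim ((r.den : ℤ) * s.den) (r.num * s.den) (s.num * r.den)
    (by have := r.den_ne_zero; have := s.den_ne_zero; positivity)
  have hgL : (g : L) ≠ 0 := by exact_mod_cast hg
  have ha : a ≠ 0 := by
    rintro rfl
    rw [mul_zero] at h1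
    have := r.den_ne_zero; have := s.den_ne_zero
    have h5 : (r.den : ℤ) * s.den ≠ 0 := by positivity
    exact h5 h1
  refine ⟨a, b, c, ha, ?_, h4⟩
  apply mul_left_cancel₀ hgL
  have e1 : (g : L) * a = (r.den : L) * s.den := by exact_mod_cast congrArg (fun z : ℤ => (z : L)) h1.symm
  have e2 : (g : L) * b = (r.num : L) * s.den := by exact_mod_cast congrArg (fun z : ℤ => (z : L)) h2.symm
  have e3 : (g : L) * c = (s.num : L) * r.den := by exact_mod_cast congrArg (fun z : ℤ => (z : L)) h3.symm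
  have er : (r.den : L) * algebraMap ℚ L r = r.num := by
    have := Rat.den_mul_eq_num r
    have h := congrArg (algebraMap ℚ L) this
    rw [map_mul, map_natCast, map_intCast] at h
    exact h
  have es : (s.den : L) * algebraMap ℚ L s = s.num := by
    have := Rat.den_mul_eq_num s
    have h := congrArg (algebraMap ℚ L) this
    rw [map_mul, map_natCast, map_intCast] at h
    exact h
  linear_combination e1 * x ^ 2 + e2 * x + e3 + (r.den : L) * s.den * hroot - s.den * er * x - r.den * es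

/-- the nontrivial automorphism moves `x` to the other root -/
theorem exists_conj (hL : Module.finrank ℚ L = 2) {x : L} (hx : x ∉ (algebraMap ℚ L).range) {a b c : ℤ}
    (h : QD x a b c) : ∃ σ : L ≃ₐ[ℚ] L, (a : L) * (x + σ x) = -b ∧ (a : L) * (x * σ x) = c ∧ σ x ≠ x := by
  haveI : Algebra.IsQuadraticExtension ℚ L := ⟨hL⟩
  have hGal : IsGalois ℚ L := inferInstance
  have hmem : x ∉ (⊥ : IntermediateField ℚ L) := by
    intro hb
    rw [IntermediateField.mem_bot] at hb
    exact hx (by simpa using hb)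
  have : ∃ σ : L ≃ₐ[ℚ] L, σ x ≠ x := by
    by_contra hcon
    push Not at hcon
    exact hmem ((IsGalois.mem_bot_iff_fixed x).mpr hcon)
  obtain ⟨σ, hσ⟩ := this
  have h2 := congrArg σ h.root
  simp only [map_add, map_mul, map_pow, map_intCast, map_zero] at h2
  have haL : (a : L) ≠ 0 := by exact_mod_cast h.ha
  have e1 : (a : L) * (x + σ x) = -b := by
    have h3 : (σ x - x) * ((a : L) * (x + σ x) + b) = 0 := by linear_combination h2 - h.root
    rcases mul_eq_zero.mp h3 with h4 | h4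
    · exact absurd (sub_eq_zero.mp h4) hσ
    · linear_combination h4
  exact ⟨σ, e1, by linear_combination x * e1 - h.root, hσ⟩

theorem absNorm_map_equiv (e : 𝓞 L ≃+* 𝓞 L) (I : Ideal (𝓞 L)) :
    absNorm (I.map (e : 𝓞 L →+* 𝓞 L)) = absNorm I := by
  rw [absNorm_apply, absNorm_apply, Submodule.cardQuot_apply, Submodule.cardQuot_apply]
  exact (Nat.card_congr (Ideal.quotientEquiv I (I.map (e : 𝓞 L →+* 𝓞 L)) e rfl).toEquiv).symm

/-- content formula: the ideal `(a, a x)` has norm `|a|` -/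
theorem absNorm_content (hL : Module.finrank ℚ L = 2) {x : L} (hx : x ∉ (algebraMap ℚ L).range)
    {a b c : ℤ} (h : QD x a b c) (z : 𝓞 L) (hz : (z : L) = a * x) :
    absNorm (span {(a : 𝓞 L), z}) = a.natAbs := by
  obtain ⟨σ, h1, h2, h3⟩ := exists_conj hL hx h
  set e : 𝓞 L ≃+* 𝓞 L := RingOfIntegers.mapRingEquiv σ.toRingEquiv with he
  have hez : ((e z : 𝓞 L) : L) = σ (z : L) := by
    rw [he]; rfl
  have hzb : (z : 𝓞 L) + e z = -(b : 𝓞 L) := by
    apply RingOfIntegers.ext
    have : ((z : 𝓞 L) : L) + ((e z : 𝓞 L) : L) = -(b : L) := by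
      rw [hez, hz, map_mul, map_intCast]
      linear_combination h1
    simpa using this
  have hzz : (z : 𝓞 L) * e z = (a : 𝓞 L) * c := by
    apply RingOfIntegers.ext
    have : ((z : 𝓞 L) : L) * ((e z : 𝓞 L) : L) = (a : L) * (c : L) := by
      rw [hez, hz, map_mul, map_intCast]
      linear_combination (a : L) * h2
    simpa using this
  have hmap : (span {(a : 𝓞 L), z}).map (e : 𝓞 L →+* 𝓞 L) = span {(a : 𝓞 L), e z} := by
    rw [Ideal.map_span, Set.image_pair]
    congr 2
    simp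
  have hprod : span {(a : 𝓞 L), z} * span {(a : 𝓞 L), e z} = span {(a : 𝓞 L)} := by
    apply le_antisymm
    · rw [Ideal.span_mul_span', Ideal.span_le]
      rintro _ ⟨y, hy, y', hy', rfl⟩
      simp only [Set.mem_insert_iff, Set.mem_singleton_iff] at hy hy'
      rw [SetLike.mem_coe, Ideal.mem_span_singleton]
      rcases hy with rfl | rfl <;> rcases hy' with rfl | rfl
      · exact Dvd.intro _ rfl
      · exact Dvd.intro _ rfl
      · exact Dvd.intro_left _ rfl
      · change (a : 𝓞 L) ∣ y * e y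
        rw [hzz]; exact Dvd.intro _ rfl
    · rw [Ideal.span_singleton_le_iff_mem]
      obtain ⟨u, v, w, huvw⟩ := h.prim
      have ha1 : (a : 𝓞 L) ∈ span {(a : 𝓞 L), z} := Ideal.subset_span (by simp)
      have hz1 : z ∈ span {(a : 𝓞 L), z} := Ideal.subset_span (by simp)
      have ha2 : (a : 𝓞 L) ∈ span {(a : 𝓞 L), e z} := Ideal.subset_span (by simp)
      have hz2 : e z ∈ span {(a : 𝓞 L), e z} := Ideal.subset_span (by simp)
      have m1 : (a : 𝓞 L) * a ∈ span {(a : 𝓞 L), z} * span {(a : 𝓞 L), e z} := Ideal.mul_mem_mul ha1 ha2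
      have m2 : (a : 𝓞 L) * e z ∈ span {(a : 𝓞 L), z} * span {(a : 𝓞 L), e z} := Ideal.mul_mem_mul ha1 hz2
      have m3 : z * (a : 𝓞 L) ∈ span {(a : 𝓞 L), z} * span {(a : 𝓞 L), e z} := Ideal.mul_mem_mul hz1 ha2
      have m4 : z * e z ∈ span {(a : 𝓞 L), z} * span {(a : 𝓞 L), e z} := Ideal.mul_mem_mul hz1 hz2
      have huvw' : (u : 𝓞 L) * a + v * b + w * c = 1 := by exact_mod_cast congrArg (fun z : ℤ => (z : 𝓞 L)) huvw
      have hfin : (a : 𝓞 L) = u * (a * a) + (-v) * (a * e z) + (-v) * (z * a) + w * (z * e z) := by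
        linear_combination (-(a : 𝓞 L)) * huvw' + (v : 𝓞 L) * a * hzb - w * hzz
      have hmem := Ideal.add_mem _ (Ideal.add_mem _ (Ideal.add_mem _ (Ideal.mul_mem_left _ (u : 𝓞 L) m1)
        (Ideal.mul_mem_left _ (-v : 𝓞 L) m2)) (Ideal.mul_mem_left _ (-v : 𝓞 L) m3)) (Ideal.mul_mem_left _ (w : 𝓞 L) m4)
      rwa [← hfin] at hmem
  have hN := congrArg absNorm hprod
  rw [map_mul, ← hmap, absNorm_map_equiv, Ideal.absNorm_span_singleton] at hN
  have hna : Algebra.norm ℤ (a : 𝓞 L) = a ^ 2 := by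
    have := Algebra.norm_algebraMap (S := 𝓞 L) (a : ℤ)
    rw [show (algebraMap ℤ (𝓞 L)) a = (a : 𝓞 L) from rfl, RingOfIntegers.rank, hL] at this
    exact this
  rw [hna, Int.natAbs_pow, ← sq] at hN
  exact Nat.pow_left_injective (by norm_num : (2 : ℕ) ≠ 0) hN

end Pool.Agent.Helper77.Voj
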