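import Mathlib
import Pool.Agent.Helper77.Voj.Quad

/-!
Automorphisms, norms and the discriminant of a quadratic field.
-/

namespace Pool.Agent.Helper77.Voj

open NumberField Ideal

open scoped Matrix

variable {L : Type*} [Field L] [NumberField L]

theorem univ_gal (hL : Module.finrank ℚ L = 2) {σ : L ≃ₐ[ℚ] L} (hσ : σ ≠ 1) [DecidableEq (L ≃ₐ[ℚ] L)] :
    (Finset.univ : Finset (L ≃ₐ[ℚ] L)) = {1, σ} := by
  haveI : Algebra.IsQuadraticExtension ℚ L := ⟨hL⟩
  have hGal : IsGalois ℚ L := inferInstance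
  symm
  apply Finset.eq_univ_of_card
  rw [Finset.card_pair hσ.symm, ← Nat.card_eq_fintype_card]
  rw [IsGalois.card_aut_eq_finrank, hL]

theorem trace_two (hL : Module.finrank ℚ L = 2) {σ : L ≃ₐ[ℚ] L} (hσ : σ ≠ 1) (y : L) :
    ((Algebra.trace ℚ L y : ℚ) : L) = y + σ y := by
  classical
  haveI : Algebra.IsQuadraticExtension ℚ L := ⟨hL⟩
  have hGal : IsGalois ℚ L := inferInstance
  have h := trace_eq_sum_automorphisms (K := ℚ) y
  rw [univ_gal hL hσ, Finset.sum_pair hσ.symm, eq_ratCast] at h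
  exact h

theorem norm_two (hL : Module.finrank ℚ L = 2) {σ : L ≃ₐ[ℚ] L} (hσ : σ ≠ 1) (y : L) :
    ((Algebra.norm ℚ y : ℚ) : L) = y * σ y := by
  classical
  haveI : Algebra.IsQuadraticExtension ℚ L := ⟨hL⟩
  have hGal : IsGalois ℚ L := inferInstance
  have h := Algebra.norm_eq_prod_automorphisms (K := ℚ) y
  rw [univ_gal hL hσ, Finset.prod_pair hσ.symm, eq_ratCast] at h
  exact h

theorem ne_one_of_ne {σ : L ≃ₐ[ℚ] L} {x : L} (h : σ x ≠ x) : σ ≠ 1 := by
  rintro rfl; exact h rfl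

/-- the discriminant of the quadratic polynomial is the discriminant of the field times a square -/
theorem exists_disc (hL : Module.finrank ℚ L = 2) {x : L} (hx : x ∉ (algebraMap ℚ L).range) {a b c : ℤ}
    (h : QD x a b c) : ∃ t : ℤ, t ≠ 0 ∧ b ^ 2 - 4 * a * c = discr L * t ^ 2 := by
  classical
  obtain ⟨σ, h1, h2, h3⟩ := exists_conj hL hx h
  have hσ := ne_one_of_ne h3
  have hint : IsIntegral ℤ ((a : L) * x) := by
    refine ⟨Polynomial.X ^ 2 + Polynomial.C b * Polynomial.X + Polynomial.C (a * c), ?_, ?_⟩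
    · monicity!
    · rw [Polynomial.eval₂_add, Polynomial.eval₂_add, Polynomial.eval₂_mul, Polynomial.eval₂_pow,
        Polynomial.eval₂_X, Polynomial.eval₂_C, Polynomial.eval₂_C, eq_intCast, eq_intCast]
      push_cast
      linear_combination (a : L) * h.root
  let z : 𝓞 L := ⟨(a : L) * x, hint⟩
  have hz : (z : L) = a * x := rfl
  have hcard : Fintype.card (Module.Free.ChooseBasisIndex ℤ (𝓞 L)) = 2 := by
    rw [← Module.finrank_eq_card_chooseBasisIndex, RingOfIntegers.rank, hL]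
  let e := Fintype.equivFinOfCardEq hcard
  let B := (RingOfIntegers.basis L).reindex e
  let v : Fin 2 → 𝓞 L := ![1, z]
  let P := B.toMatrix v
  have hv : (fun i => B i) ᵥ* P.map (algebraMap ℤ (𝓞 L)) = v := by
    funext j
    have := B.sum_toMatrix_smul_self v j
    rw [← this]
    simp only [Matrix.vecMul, dotProduct, Matrix.map_apply, P]
    refine Finset.sum_congr rfl fun i _ => ?_
    rw [Algebra.smul_def, mul_comm]
  have hd := Algebra.discr_of_matrix_vecMul (fun i => B i) P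
  rw [hv, discr_eq_discr L B] at hd
  have hdet : Algebra.discr ℤ v = Algebra.trace ℤ (𝓞 L) 1 * Algebra.trace ℤ (𝓞 L) (z * z)
      - Algebra.trace ℤ (𝓞 L) z * Algebra.trace ℤ (𝓞 L) z := by
    rw [Algebra.discr_def, Matrix.det_fin_two]
    simp [Algebra.traceMatrix_apply, Algebra.traceForm_apply, v]
  have hcast : ∀ y : 𝓞 L, ((Algebra.trace ℤ (𝓞 L) y : ℤ) : L) = (y : L) + σ (y : L) := by
    intro y
    rw [← trace_two hL hσ, ← Algebra.coe_trace_int]
    push_cast; rfl
  have hfin : (((b ^ 2 - 4 * a * c : ℤ)) : L) = ((Algebra.discr ℤ v : ℤ) : L) := by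
    rw [hdet]
    push_cast
    rw [hcast, hcast, hcast]
    have e1 : ((1 : 𝓞 L) : L) = 1 := rfl
    have e2 : ((z * z : 𝓞 L) : L) = (a * x) * (a * x) := rfl
    rw [e1, e2, hz, map_mul, map_mul, map_intCast, map_one]
    linear_combination (4 * (a : L)) * h2 - ((a : L) * (x + σ x) - b) * h1
  have hfin' : b ^ 2 - 4 * a * c = Algebra.discr ℤ v := by exact_mod_cast hfin
  refine ⟨P.det, ?_, ?_⟩
  · intro h0
    rw [h0, zero_pow two_ne_zero, zero_mul] at hd
    rw [hd] at hfin'
    have h5 : ((b : L) ^ 2 - 4 * a * c) = 0 := by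
      have : (((b ^ 2 - 4 * a * c : ℤ)) : L) = 0 := by rw [hfin']; simp
      push_cast at this
      exact this
    have h6 : ((a : L) * (x - σ x)) ^ 2 = 0 := by
      linear_combination h5 + ((a : L) * (x + σ x) - b) * h1 - 4 * (a : L) * h2
    have haL : (a : L) ≠ 0 := by exact_mod_cast h.ha
    have h7 := pow_eq_zero_iff (two_ne_zero) |>.mp h6
    rcases mul_eq_zero.mp h7 with h8 | h8
    · exact haL h8
    · exact h3 (sub_eq_zero.mp h8).symm
  · rw [hfin', hd]; ring

end Pool.Agent.Helper77.Voj
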