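import Mathlib
import Pool.Agent.Helper77.Voj.Disc

/-!
Sums over the places of a quadratic field.
-/

namespace Pool.Agent.Helper77.Voj

open NumberField Ideal

variable {L : Type*} [Field L] [NumberField L]

/-- the two embeddings of a quadratic field -/
theorem univ_emb (hL : Module.finrank ℚ L = 2) {σ : L ≃ₐ[ℚ] L} (hσ : σ ≠ 1) (φ : L →+* ℂ)
    [DecidableEq (L →+* ℂ)] : (Finset.univ : Finset (L →+* ℂ)) = {φ, φ.comp (σ : L →+* L)} := by
  have hne : φ ≠ φ.comp (σ : L →+* L) := by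
    intro h
    apply hσ
    ext y
    have := congrArg (fun ψ : L →+* ℂ => ψ y) h
    exact (φ.injective this).symm
  symm
  apply Finset.eq_univ_of_card
  rw [Finset.card_pair hne, Embeddings.card, hL]

theorem sum_inf (hL : Module.finrank ℚ L = 2) {σ : L ≃ₐ[ℚ] L} (hσ : σ ≠ 1) (φ : L →+* ℂ)
    (F : InfinitePlace L → ℝ) :
    ∑ w : InfinitePlace L, (w.mult : ℝ) * F w
      = F (InfinitePlace.mk φ) + F (InfinitePlace.mk (φ.comp (σ : L →+* L))) := by
  classical
  have hne : φ ≠ φ.comp (σ : L →+* L) := by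
    intro h
    apply hσ
    ext y
    have := congrArg (fun ψ : L →+* ℂ => ψ y) h
    exact (φ.injective this).symm
  have h1 : ∑ ψ : L →+* ℂ, F (InfinitePlace.mk ψ) = ∑ w : InfinitePlace L, (w.mult : ℝ) * F w := by
    rw [← Finset.sum_fiberwise Finset.univ InfinitePlace.mk (fun ψ => F (InfinitePlace.mk ψ))]
    refine Finset.sum_congr rfl fun w _ => ?_
    have h2 : ∀ ψ ∈ (Finset.univ.filter fun ψ : L →+* ℂ => InfinitePlace.mk ψ = w), F (InfinitePlace.mk ψ) = F w :=
      fun ψ hψ => by rw [(Finset.mem_filter.mp hψ).2]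
    rw [Finset.sum_congr rfl h2, Finset.sum_const, nsmul_eq_mul, InfinitePlace.card_filter_mk_eq]
  rw [← h1, univ_emb hL hσ φ, Finset.sum_pair hne]

theorem norm_int_two (hL : Module.finrank ℚ L = 2) (a : ℤ) : Algebra.norm ℚ (a : L) = (a : ℚ) ^ 2 := by
  have := Algebra.norm_algebraMap (S := L) (a : ℚ)
  rw [hL] at this
  rw [← this]
  simp

/-- product of `max (1, w x)` over the places above a prime -/
theorem prod_max_ab (hL : Module.finrank ℚ L = 2) {x : L} (hx : x ∉ (algebraMap ℚ L).range) {a b c : ℤ}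
    (h : QD x a b c) {p : ℕ} (hp : p.Prime) :
    ∏ w ∈ ab L p hp, max 1 (w x) = ((padicNorm p (a : ℚ) : ℚ) : ℝ)⁻¹ := by
  haveI : Fact p.Prime := ⟨hp⟩
  have haL : (a : L) ≠ 0 := by exact_mod_cast h.ha
  have hx0 : x ≠ 0 := by
    rintro rfl
    exact hx ⟨0, map_zero _⟩
  have hint : IsIntegral ℤ ((a : L) * x) := by
    refine ⟨Polynomial.X ^ 2 + Polynomial.C b * Polynomial.X + Polynomial.C (a * c), ?_, ?_⟩
    · monicity!
    · rw [Polynomial.eval₂_add, Polynomial.eval₂_add, Polynomial.eval₂_mul, Polynomial.eval₂_pow,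
        Polynomial.eval₂_X, Polynomial.eval₂_C, Polynomial.eval₂_C, eq_intCast, eq_intCast]
      push_cast
      linear_combination (a : L) * h.root
  let z : 𝓞 L := ⟨(a : L) * x, hint⟩
  have hz : (z : L) = a * x := rfl
  have hz0 : z ≠ 0 := by
    intro e
    have : (z : L) = 0 := by rw [e]; rfl
    rw [hz] at this
    exact mul_ne_zero haL hx0 this
  have ha0 : (a : 𝓞 L) ≠ 0 := by exact_mod_cast h.ha
  have hac : ((a : 𝓞 L) : L) = (a : L) := by simp
  have h1 : ∀ w ∈ ab L p hp, (w (a : L) * max 1 (w x)) * (lf w (span {(a : 𝓞 L), z}) : ℝ) = 1 := by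
    intro w _
    have := max_mul_lf w ha0 hz0
    rw [hac, hz, map_mul] at this
    rw [mul_max_of_nonneg _ _ (apply_nonneg w _), mul_one]
    exact this
  have h2 : (∏ w ∈ ab L p hp, w (a : L)) * (∏ w ∈ ab L p hp, max 1 (w x))
      * ∏ w ∈ ab L p hp, (lf w (span {(a : 𝓞 L), z}) : ℝ) = 1 := by
    rw [← Finset.prod_mul_distrib, ← Finset.prod_mul_distrib]
    exact Finset.prod_eq_one h1
  have h3 : ∏ w ∈ ab L p hp, (lf w (span {(a : 𝓞 L), z}) : ℝ) = (p : ℝ) ^ padicValNat p a.natAbs := by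
    have hI : span {(a : 𝓞 L), z} ≠ ⊥ := by
      intro e
      rw [Ideal.span_eq_bot] at e
      exact ha0 (e _ (by simp))
    have := prod_ab (L := L) hp hI
    rw [absNorm_content hL hx h z hz] at this
    exact_mod_cast congrArg (fun n : ℕ => (n : ℝ)) this
  have h4 := prod_elt (L := L) hp (a : L) haL
  rw [norm_int_two hL, sq, padicNorm.mul] at h4
  have hs : ((padicNorm p (a : ℚ) : ℚ) : ℝ) = ((p : ℝ) ^ padicValNat p a.natAbs)⁻¹ := by
    rw [padicNorm_natAbs, padicNorm_nat p (Int.natAbs_ne_zero.mpr h.ha)]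
  have hppos : (0 : ℝ) < (p : ℝ) ^ padicValNat p a.natAbs := pow_pos (by exact_mod_cast hp.pos) _
  rw [h3, h4] at h2
  push_cast at h2
  rw [hs] at h2 ⊢
  rw [inv_inv]
  field_simp at h2
  exact h2

/-- product of `max (1, w x)` over all finite places -/
theorem finprod_max (hL : Module.finrank ℚ L = 2) {x : L} (hx : x ∉ (algebraMap ℚ L).range) {a b c : ℤ}
    (h : QD x a b c) : ∏ᶠ w : FinitePlace L, max (w x) 1 = |(a : ℝ)| := by
  have haL : (a : L) ≠ 0 := by exact_mod_cast h.ha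
  have hx0 : x ≠ 0 := by
    rintro rfl
    exact hx ⟨0, map_zero _⟩
  have hint : IsIntegral ℤ ((a : L) * x) := by
    refine ⟨Polynomial.X ^ 2 + Polynomial.C b * Polynomial.X + Polynomial.C (a * c), ?_, ?_⟩
    · monicity!
    · rw [Polynomial.eval₂_add, Polynomial.eval₂_add, Polynomial.eval₂_mul, Polynomial.eval₂_pow,
        Polynomial.eval₂_X, Polynomial.eval₂_C, Polynomial.eval₂_C, eq_intCast, eq_intCast]
      push_cast
      linear_combination (a : L) * h.root
  let z : 𝓞 L := ⟨(a : L) * x, hint⟩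
  have hz : (z : L) = a * x := rfl
  have ha0 : (a : 𝓞 L) ≠ 0 := by exact_mod_cast h.ha
  have hac : ((a : 𝓞 L) : L) = (a : L) := by simp
  have hv0 : (![(a : 𝓞 L), z] : Fin 2 → 𝓞 L) ≠ 0 := by
    intro e
    exact ha0 (congrFun e 0)
  have key := absNorm_mul_finprod_finitePlace_eq_one hv0
  have hrange : Set.range (![(a : 𝓞 L), z] : Fin 2 → 𝓞 L) = {(a : 𝓞 L), z} := by
    rw [Matrix.range_cons, Matrix.range_cons, Matrix.range_empty, Set.union_empty]
    rfl
  rw [hrange, absNorm_content hL hx h z hz] at key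
  have hsup : ∀ w : FinitePlace L, ⨆ i, w (((![(a : 𝓞 L), z] : Fin 2 → 𝓞 L) i : 𝓞 L) : L) = w (a : L) * max (w x) 1 := by
    intro w
    have e1 : w (a : L) * max (w x) 1 = max (w (a : L) * w x) (w (a : L)) := by
      rw [mul_max_of_nonneg _ _ (apply_nonneg w _), mul_one]
    have f0 : w (((![(a : 𝓞 L), z] : Fin 2 → 𝓞 L) 0 : 𝓞 L) : L) = w (a : L) := by
      rw [Matrix.cons_val_zero, hac]
    have f1 : w (((![(a : 𝓞 L), z] : Fin 2 → 𝓞 L) 1 : 𝓞 L) : L) = w (a : L) * w x := by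
      rw [Matrix.cons_val_one, Matrix.cons_val_fin_one, hz, map_mul]
    rw [e1]
    apply le_antisymm
    · refine ciSup_le fun i => ?_
      fin_cases i
      · exact f0.le.trans (le_max_right _ _)
      · exact f1.le.trans (le_max_left _ _)
    · have hbdd : BddAbove (Set.range fun i => w (((![(a : 𝓞 L), z] : Fin 2 → 𝓞 L) i : 𝓞 L) : L)) :=
        (Set.finite_range _).bddAbove
      refine max_le ?_ ?_
      · rw [← f1]; exact le_ciSup hbdd 1
      · rw [← f0]; exact le_ciSup hbdd 0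
  have hs1 : (fun w : FinitePlace L => w (a : L)).HasFiniteMulSupport := FinitePlace.hasFiniteMulSupport haL
  have hs2 : (fun w : FinitePlace L => max (w x) 1).HasFiniteMulSupport := by
    refine Set.Finite.subset (FinitePlace.hasFiniteMulSupport hx0) ?_
    intro w hw
    simp only [Function.mem_mulSupport] at hw ⊢
    intro e
    exact hw (by rw [e, max_self])
  rw [finprod_congr hsup, finprod_mul_distrib hs1 hs2, FinitePlace.prod_eq_inv_abs_norm haL, norm_int_two hL] at key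
  have haR : (0 : ℝ) < |(a : ℝ)| := abs_pos.mpr (by exact_mod_cast h.ha)
  have e2 : ((|(a : ℚ) ^ 2|⁻¹ : ℚ) : ℝ) = (|(a : ℝ)| ^ 2)⁻¹ := by push_cast; rw [abs_pow]
  rw [e2, Nat.cast_natAbs, Int.cast_abs] at key
  field_simp at key
  exact key

theorem logHeight_quad (hL : Module.finrank ℚ L = 2) {x : L} (hx : x ∉ (algebraMap ℚ L).range) {a b c : ℤ}
    (h : QD x a b c) {σ : L ≃ₐ[ℚ] L} (hσ : σ ≠ 1) (φ : L →+* ℂ) :
    Height.logHeight₁ x = Real.log |(a : ℝ)| + (Real.log (max 1 ‖φ x‖) + Real.log (max 1 ‖φ (σ x)‖)) := by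
  rw [Height.logHeight₁_eq_log_mulHeight₁, NumberField.mulHeight₁_eq, finprod_max hL hx h]
  have hpos : ∀ w : InfinitePlace L, 0 < max (w x) 1 := fun w => lt_of_lt_of_le one_pos (le_max_right _ _)
  have haR : (0 : ℝ) < |(a : ℝ)| := abs_pos.mpr (by exact_mod_cast h.ha)
  rw [Real.log_mul (Finset.prod_ne_zero_iff.mpr fun w _ => (pow_pos (hpos w) _).ne') haR.ne',
    Real.log_prod (fun w _ => (pow_pos (hpos w) _).ne')]
  simp_rw [Real.log_pow]
  rw [sum_inf hL hσ φ (fun w => Real.log (max (w x) 1)), InfinitePlace.apply, InfinitePlace.apply, max_comm,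
    max_comm ‖_‖ 1, add_comm]
  rfl

end Pool.Agent.Helper77.Voj
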