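import Mathlib
import Pool.Agent.Helper77.Voj.Defs
import Pool.Agent.Helper77.Voj.Plc
import Pool.Agent.Helper77.Voj.FR

/-!
The invariants of a quadratic point in terms of its quadratic equation.
-/

namespace Pool.Agent.Helper77.Voj

open NumberField IntermediateField Polynomial

section

variable {L : Type*} [Field L] [NumberField L]

theorem ab_disjoint {p p' : ℕ} (hp : p.Prime) (hp' : p'.Prime) (hne : p ≠ p') :
    Disjoint (ab L p hp) (ab L p' hp') := by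
  rw [Finset.disjoint_left]
  intro w hw hw'
  obtain ⟨ℓ, n, hℓ, -, hmem⟩ := exists_char w
  rw [mem_ab] at hw hw'
  have h1 := (over_iff hp hℓ w hmem).mp hw
  have h2 := (over_iff hp' hℓ w hmem).mp hw'
  exact hne (h1.trans h2.symm)

/-- sums over the finite places above a finite set of primes -/
theorem finsum_above (S : Finset ℕ) (hS : ∀ p ∈ S, p.Prime) (F : FinitePlace L → ℝ) :
    ∑ᶠ w ∈ {w : FinitePlace L | ∃ p ∈ S, w (p : L) < 1}, F w
      = ∑ p : S, ∑ w ∈ ab L p.1 (hS p.1 p.2), F w := by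
  classical
  have hset : {w : FinitePlace L | ∃ p ∈ S, w (p : L) < 1}
      = ((Finset.univ.biUnion fun p : S => ab L p.1 (hS p.1 p.2) : Finset (FinitePlace L)) : Set (FinitePlace L)) := by
    ext w
    simp only [Set.mem_ofPred_eq, Finset.coe_biUnion, Finset.coe_univ, Set.mem_univ, Set.iUnion_true,
      Set.mem_iUnion, Finset.mem_coe, mem_ab]
    constructor
    · rintro ⟨p, hp, h⟩
      exact ⟨⟨p, hp⟩, h⟩
    · rintro ⟨p, h⟩
      exact ⟨p.1, p.2, h⟩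
  rw [hset, finsum_mem_coe_finset, Finset.sum_biUnion]
  intro p _ p' _ hne
  exact ab_disjoint _ _ fun h => hne (Subtype.ext h)

end

theorem vinf_log_prod (x : Qb) : 0 < vmx vinf x := vmx_pos _ _

/-- all invariants of a quadratic point in terms of its quadratic equation -/
theorem link (S : Finset ℕ) (hS : ∀ p ∈ S, p.Prime) (g : ℚ[X]) (q : ℕ) (x : AlgebraicClosure ℚ)
    (hdeg : Module.finrank ℚ ℚ⟮x⟯ = 2) (hg : aeval x g ≠ 0) :
    ∃ (f : Fin 3 → ℤ) (x' : Qb) (t : ℤ) (ρ : ℚ), FR f x x' ∧ t ≠ 0 ∧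
      f 1 ^ 2 - 4 * f 0 * f 2 = discr ℚ⟮x⟯ * t ^ 2 ∧ ρ ≠ 0 ∧ (ρ : Qb) = aeval x g * aeval x' g ∧
      2 * absLogHeight₁ x = Real.log |(f 0 : ℝ)| + (Real.log (vmx vinf x) + Real.log (vmx vinf x')) ∧
      2 * lamD S g q x = q * (Real.log (vmx vinf x) + Real.log (vmx vinf x')) - Real.log |(ρ : ℝ)|
        + ∑ p : S, (-(q * Real.log (padicNorm p.1 (f 0 : ℚ) : ℝ)) - Real.log (padicNorm p.1 ρ : ℝ)) := by
  classical
  set ξ : ℚ⟮x⟯ := pnt x with hξ
  have hξx : (ξ : Qb) = x := AdjoinSimple.coe_gen ℚ x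
  have hx : ξ ∉ (algebraMap ℚ ℚ⟮x⟯).range := by
    rintro ⟨r, hr⟩
    have h1 : x ∈ (⊥ : IntermediateField ℚ (AlgebraicClosure ℚ)) := by
      rw [IntermediateField.mem_bot]
      refine ⟨r, ?_⟩
      rw [← hξx, ← hr]; rfl
    have h2 : ℚ⟮x⟯ = ⊥ := by
      rw [IntermediateField.adjoin_simple_eq_bot_iff]; exact h1
    rw [h2, IntermediateField.finrank_bot] at hdeg
    exact absurd hdeg (by norm_num)
  -- the quadratic equation, with a positive leading coefficient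
  obtain ⟨a, b, c, hQD, hapos⟩ : ∃ a b c : ℤ, QD ξ a b c ∧ 0 < a := by
    obtain ⟨a, b, c, h⟩ := exists_QD hdeg ξ hx
    rcases lt_or_gt_of_ne h.ha with hneg | hpos
    · refine ⟨-a, -b, -c, ⟨by simpa using h.ha, ?_, ?_⟩, by omega⟩
      · push_cast
        linear_combination (-1 : ℚ⟮x⟯) * h.root
      · obtain ⟨u, v, w, huvw⟩ := h.prim
        exact ⟨-u, -v, -w, by linear_combination huvw⟩
    · exact ⟨a, b, c, h, hpos⟩
  obtain ⟨σ, h1, h2, h3⟩ := exists_conj hdeg hx hQD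
  have hσ := ne_one_of_ne h3
  obtain ⟨t, ht, hdisc⟩ := exists_disc hdeg hx hQD
  set x' : Qb := ((σ ξ : ℚ⟮x⟯) : Qb) with hx'
  set G : ℚ⟮x⟯ := aeval ξ g with hG
  have hGx : (G : Qb) = aeval x g := by
    have e1 : (G : Qb) = aeval (ξ : Qb) g :=
      (Polynomial.aeval_algHom_apply (IntermediateField.val ℚ⟮x⟯) ξ g).symm
    exact e1.trans (congrArg (fun y : Qb => aeval y g) hξx)
  have hGx' : ((σ G : ℚ⟮x⟯) : Qb) = aeval x' g := by
    have e1 : σ G = aeval (σ ξ) g := (Polynomial.aeval_algHom_apply (σ : ℚ⟮x⟯ →ₐ[ℚ] ℚ⟮x⟯) ξ g).symm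
    rw [e1, hx']
    exact (Polynomial.aeval_algHom_apply (IntermediateField.val ℚ⟮x⟯) (σ ξ) g).symm
  have hG0 : G ≠ 0 := by
    intro e
    rw [e] at hGx
    exact hg hGx.symm
  have hnorm := norm_two hdeg hσ G
  set ρ : ℚ := Algebra.norm ℚ G with hρ
  have hρ0 : ρ ≠ 0 := Algebra.norm_ne_zero_iff.mpr hG0
  let φ : ℚ⟮x⟯ →+* ℂ := (toC.toRingHom).comp (algebraMap ℚ⟮x⟯ Qb)
  have hφ : ∀ y : ℚ⟮x⟯, ‖φ y‖ = vinf (y : Qb) := fun y => rfl
  refine ⟨![a, b, c], x', t, ρ, ⟨hapos, ?_, ?_, hQD.prim, ?_⟩, ht, hdisc, hρ0, ?_, ?_, ?_⟩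
  · have := congrArg (algebraMap ℚ⟮x⟯ Qb) h1
    rw [map_mul, map_add, map_intCast, map_neg, map_intCast] at this
    change (b : Qb) = -((a : Qb) * (x + x'))
    have e1 : (a : Qb) * (x + x') = -b := by rw [← hξx]; exact this
    rw [e1, neg_neg]
  · have := congrArg (algebraMap ℚ⟮x⟯ Qb) h2
    rw [map_mul, map_mul, map_intCast, map_intCast] at this
    change (c : Qb) = (a : Qb) * (x * x')
    rw [← hξx]; exact this.symm
  · intro r hr
    apply hx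
    refine ⟨r, ?_⟩
    apply (algebraMap ℚ⟮x⟯ Qb).injective
    rw [eq_ratCast, map_ratCast, hr]
    exact hξx.symm
  · have := congrArg (algebraMap ℚ⟮x⟯ Qb) hnorm
    rw [map_ratCast, map_mul] at this
    rw [← hGx, ← hGx']
    exact this
  · rw [absLog_eq, hdeg]
    have hh := logHeight_quad hdeg hx hQD hσ φ
    rw [Nat.cast_ofNat, mul_div_cancel₀ _ (two_ne_zero), hh, hφ, hφ, hξx]
    rfl
  · unfold lamD
    rw [hdeg, Nat.cast_ofNat, mul_div_cancel₀ _ (two_ne_zero), finsum_above S hS,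
      sum_inf hdeg hσ φ (fun w => weil q (w (pnt x)) (w (aeval (pnt x) g)))]
    have hpart1 : weil q ((InfinitePlace.mk φ) (pnt x)) ((InfinitePlace.mk φ) (aeval (pnt x) g))
        + weil q ((InfinitePlace.mk (φ.comp (σ : ℚ⟮x⟯ →+* ℚ⟮x⟯))) (pnt x))
          ((InfinitePlace.mk (φ.comp (σ : ℚ⟮x⟯ →+* ℚ⟮x⟯))) (aeval (pnt x) g))
        = q * (Real.log (vmx vinf x) + Real.log (vmx vinf x')) - Real.log |(ρ : ℝ)| := by
      rw [InfinitePlace.apply, InfinitePlace.apply, InfinitePlace.apply, InfinitePlace.apply]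
      have m1 : ‖φ (pnt x)‖ = vinf x := by rw [hφ, ← hξ, hξx]
      have m2 : ‖(φ.comp (σ : ℚ⟮x⟯ →+* ℚ⟮x⟯)) (pnt x)‖ = vinf x' := rfl
      have m3 : ‖φ (aeval (pnt x) g)‖ = ‖φ G‖ := rfl
      have m4 : ‖(φ.comp (σ : ℚ⟮x⟯ →+* ℚ⟮x⟯)) (aeval (pnt x) g)‖ = ‖φ (σ G)‖ := rfl
      rw [m1, m2, m3, m4]
      have hprod : ‖φ G‖ * ‖φ (σ G)‖ = |(ρ : ℝ)| := by
        rw [← norm_mul, ← map_mul, ← hnorm, map_ratCast, Complex.norm_ratCast]
      have hφG : ‖φ G‖ ≠ 0 := norm_ne_zero_iff.mpr (by simpa using hG0)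
      have hφσG : ‖φ (σ G)‖ ≠ 0 := norm_ne_zero_iff.mpr (by simpa using hG0)
      rw [← hprod, Real.log_mul hφG hφσG]
      unfold weil vmx
      ring
    rw [hpart1]
    congr 1
    refine Finset.sum_congr rfl fun p _ => ?_
    haveI : Fact p.1.Prime := ⟨hS p.1 p.2⟩
    have k1 := prod_max_ab hdeg hx hQD (hS p.1 p.2)
    have k2 := prod_elt (L := ℚ⟮x⟯) (hS p.1 p.2) G hG0
    unfold weil
    rw [Finset.sum_sub_distrib, ← Finset.mul_sum]
    have hw0 : ∀ w : FinitePlace ℚ⟮x⟯, 0 < max 1 (w (pnt x)) := fun w => lt_of_lt_of_le one_pos (le_max_left _ _)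
    have hw1 : ∀ w : FinitePlace ℚ⟮x⟯, 0 < w (aeval (pnt x) g) := fun w => FinitePlace.pos_iff.mpr hG0
    rw [← Real.log_prod (fun w _ => (hw0 w).ne'), ← Real.log_prod (fun w _ => (hw1 w).ne')]
    rw [k1, k2, Real.log_inv]
    have e : (![a, b, c] : Fin 3 → ℤ) 0 = a := rfl
    rw [e]
    ring

end Pool.Agent.Helper77.Voj
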