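import Mathlib
import Pool.Agent.Helper77.Voj.Abs

/-!
Roots of a squarefree polynomial.
-/

namespace Pool.Agent.Helper77.Voj

open Polynomial

theorem exists_roots (g : ℚ[X]) (hg : Squarefree g) : ∃ (α : Fin g.natDegree → Qb) (γ : Qb),
    Function.Injective α ∧ γ ≠ 0 ∧ ∀ y : Qb, aeval y g = γ * ∏ i, (y - α i) := by
  classical
  have hg0 : g ≠ 0 := hg.ne_zero
  set G : Qb[X] := g.map (algebraMap ℚ Qb) with hG
  have hGs : G.Splits := IsAlgClosed.splits G
  have hsep : G.Separable := (PerfectField.separable_iff_squarefree.mpr hg).map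
  have hnd : G.roots.Nodup := nodup_roots hsep
  have hcard : G.roots.toFinset.card = g.natDegree := by
    rw [Multiset.toFinset_card_of_nodup hnd, ← hGs.natDegree_eq_card_roots, hG, natDegree_map]
  let e : Fin g.natDegree ≃ G.roots.toFinset := (G.roots.toFinset.equivFinOfCardEq hcard).symm
  refine ⟨fun i => (e i : Qb), G.leadingCoeff, ?_, ?_, ?_⟩
  · intro i j hij
    exact e.injective (Subtype.ext hij)
  · rw [leadingCoeff_ne_zero, hG]
    exact (Polynomial.map_ne_zero_iff (algebraMap ℚ Qb).injective).mpr hg0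
  · intro y
    have h1 : aeval y g = eval y G := by rw [hG, eval_map_algebraMap]
    rw [h1, hGs.eval_eq_prod_roots]
    congr 1
    have h2 : ∏ i, (y - (e i : Qb)) = ∏ r : G.roots.toFinset, (y - (r : Qb)) :=
      Equiv.prod_comp e (fun r : G.roots.toFinset => y - (r : Qb))
    rw [h2, Finset.prod_coe_sort G.roots.toFinset (fun r => y - r), Finset.prod, Multiset.toFinset_val,
      Multiset.dedup_eq_self.mpr hnd]

/-- a square root of every integer -/
theorem exists_sq : ∃ sq : ℤ → Qb, ∀ D, sq D ^ 2 = D := by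
  choose sq h using fun D : ℤ => IsAlgClosed.exists_pow_nat_eq (D : Qb) (n := 2) (by norm_num)
  exact ⟨sq, h⟩

end Pool.Agent.Helper77.Voj
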