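import Mathlib
import Pool.Agent.Helper77.Voj.FR

/-!
Labels and the gap principle.
-/

namespace Pool.Agent.Helper77.Voj

open Finset

variable {S : Finset ℕ} (hS : ∀ p ∈ S, p.Prime) {d : ℕ} (α : Fin d → Qb)

/-- size of an integer bounded by `N` at a place -/
def Nv (N : ℝ) : Option S → ℝ
  | none => N
  | some _ => 1

theorem prod_Nv (N : ℝ) : ∏ v : Option S, Nv N v = N := by
  rw [Fintype.prod_option]
  simp [Nv]

theorem Nv_nonneg {N : ℝ} (hN : 0 ≤ N) (v : Option S) : 0 ≤ Nv N v := by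
  rcases v with _ | v
  · exact hN
  · exact zero_le_one

theorem int_le_Nv {z : ℤ} {N : ℝ} (h : |(z : ℝ)| ≤ N) (v : Option S) : va hS v (z : Qb) ≤ Nv N v := by
  rcases v with _ | v
  · rw [va_none_int]; exact h
  · exact va_some_int_le hS v z

/-- labels: near points and exponents for both roots at every place -/
abbrev Lb (S : Finset ℕ) (d : ℕ) : Type := Option S → (Option (Fin d) × Option (Fin d)) × (ℕ × ℕ)

/-- the pair of roots `y`, `z` has the label `ℓ` -/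
def HasLab (C : ℝ) (ℓ : Lb S d) (y z : Qb) : Prop :=
  ∀ v, vdel (va hS v) α (ℓ v).1.1 y ≤ C * (1 / 2) ^ (ℓ v).2.1 ∧
    vdel (va hS v) α (ℓ v).1.2 z ≤ C * (1 / 2) ^ (ℓ v).2.2

/-- weight of a label -/
noncomputable def wt (ℓ : Lb S d) : ℝ := ∏ v, ((1 / 2 : ℝ) ^ (ℓ v).2.1 * (1 / 2) ^ (ℓ v).2.2)

theorem wt_pos (ℓ : Lb S d) : 0 < wt ℓ := Finset.prod_pos fun v _ => by positivity

theorem two_le (v : AbsoluteValue Qb ℝ) : v 2 ≤ 2 := by
  have : (2 : Qb) = 1 + 1 := by norm_num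
  rw [this]
  refine (v.add_le _ _).trans ?_
  rw [v.map_one]; norm_num

theorem gap {C N : ℝ} (hC : 0 ≤ C) (hN : 0 ≤ N) {f g : Fin 3 → ℤ} {y z y' z' r : Qb} (hf : FR f y z)
    (hg : FR g y' z') {D t t' : ℤ} (hr : r ^ 2 = D) (h1 : (f 0 : Qb) * (y - z) = t * r)
    (h2 : (g 0 : Qb) * (y' - z') = t' * r) (hfN : ∀ k, |(f k : ℝ)| ≤ N) (hgN : ∀ k, |(g k : ℝ)| ≤ N)
    {ℓ : Lb S d} (l1 : HasLab hS α C ℓ y z) (l2 : HasLab hS α C ℓ y' z')
    (hsmall : (512 * C ^ 2) ^ (Fintype.card (Option S)) * N ^ 2 * wt ℓ < 1) : f = g := by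
  classical
  have hid := gap_identity hf hg hr h1 h2
  set E : ℤ := f 1 * g 1 - 2 * f 0 * g 2 - 2 * f 2 * g 0 - D * t * t' with hE
  have hbound : ∀ v, va hS v (E : Qb) ≤ (512 * C ^ 2) * (Nv N v * Nv N v) *
      ((1 / 2 : ℝ) ^ (ℓ v).2.1 * (1 / 2) ^ (ℓ v).2.2) := by
    intro v
    set w := va hS v with hw
    have hNv := Nv_nonneg (S := S) hN v
    rw [hid, map_mul, map_mul, map_mul, map_mul, map_neg_eq_map]
    have a1 : w (f 0 : Qb) * (vmx w y * vmx w z) ≤ 8 * Nv N v :=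
      gauss_upper_av w _ _ _ y z hf.hb hf.hc _ (int_le_Nv hS (hfN 0) v) (int_le_Nv hS (hfN 1) v)
        (int_le_Nv hS (hfN 2) v)
    have a2 : w (g 0 : Qb) * (vmx w y' * vmx w z') ≤ 8 * Nv N v :=
      gauss_upper_av w _ _ _ y' z' hg.hb hg.hc _ (int_le_Nv hS (hgN 0) v) (int_le_Nv hS (hgN 1) v)
        (int_le_Nv hS (hgN 2) v)
    have b1 : w (y - y') ≤ (2 * (C * (1 / 2) ^ (ℓ v).2.1)) * (vmx w y * vmx w y') := by
      refine (dist_le_vdel w α (ℓ v).1.1 y y').trans ?_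
      apply mul_le_mul_of_nonneg_right _ (mul_pos (vmx_pos w y) (vmx_pos w y')).le
      have := (l1 v).1; have := (l2 v).1
      linarith
    have b2 : w (z - z') ≤ (2 * (C * (1 / 2) ^ (ℓ v).2.2)) * (vmx w z * vmx w z') := by
      refine (dist_le_vdel w α (ℓ v).1.2 z z').trans ?_
      apply mul_le_mul_of_nonneg_right _ (mul_pos (vmx_pos w z) (vmx_pos w z')).le
      have := (l1 v).2; have := (l2 v).2
      linarith
    have n0 : 0 ≤ w (f 0 : Qb) := apply_nonneg w _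
    have n1 : 0 ≤ w (g 0 : Qb) := apply_nonneg w _
    have p1 := vmx_pos w y
    have p2 := vmx_pos w z
    have p3 := vmx_pos w y'
    have p4 := vmx_pos w z'
    have c1 : w 2 * (w (f 0 : Qb) * w (g 0 : Qb)) * (w (y - y') * w (z - z'))
        ≤ 2 * (w (f 0 : Qb) * w (g 0 : Qb)) * (((2 * (C * (1 / 2) ^ (ℓ v).2.1)) * (vmx w y * vmx w y')) *
          ((2 * (C * (1 / 2) ^ (ℓ v).2.2)) * (vmx w z * vmx w z'))) := by
      apply mul_le_mul
      · exact mul_le_mul_of_nonneg_right (two_le w) (mul_nonneg n0 n1)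
      · exact mul_le_mul b1 b2 (apply_nonneg w _) (by positivity)
      · exact mul_nonneg (apply_nonneg w _) (apply_nonneg w _)
      · positivity
    refine c1.trans ?_
    have e : 2 * (w (f 0 : Qb) * w (g 0 : Qb)) * (((2 * (C * (1 / 2) ^ (ℓ v).2.1)) * (vmx w y * vmx w y')) *
          ((2 * (C * (1 / 2) ^ (ℓ v).2.2)) * (vmx w z * vmx w z')))
        = 8 * C ^ 2 * ((1 / 2) ^ (ℓ v).2.1 * (1 / 2) ^ (ℓ v).2.2) *
          ((w (f 0 : Qb) * (vmx w y * vmx w z)) * (w (g 0 : Qb) * (vmx w y' * vmx w z'))) := by ring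
    rw [e]
    have c2 : (w (f 0 : Qb) * (vmx w y * vmx w z)) * (w (g 0 : Qb) * (vmx w y' * vmx w z'))
        ≤ (8 * Nv N v) * (8 * Nv N v) := mul_le_mul a1 a2 (by positivity) (by positivity)
    calc _ ≤ 8 * C ^ 2 * ((1 / 2) ^ (ℓ v).2.1 * (1 / 2) ^ (ℓ v).2.2) * ((8 * Nv N v) * (8 * Nv N v)) :=
          mul_le_mul_of_nonneg_left c2 (by positivity)
      _ = _ := by ring
  have hE0 : E = 0 := by
    by_contra hne
    have h3 := one_le_prod_va hS hne
    have h4 : ∏ v : Option S, va hS v (E : Qb) ≤ ∏ v : Option S, ((512 * C ^ 2) * (Nv N v * Nv N v) *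
      ((1 / 2 : ℝ) ^ (ℓ v).2.1 * (1 / 2) ^ (ℓ v).2.2)) :=
      Finset.prod_le_prod (fun v _ => apply_nonneg _ _) (fun v _ => hbound v)
    have h5 : ∏ v : Option S, ((512 * C ^ 2) * (Nv N v * Nv N v) *
        ((1 / 2 : ℝ) ^ (ℓ v).2.1 * (1 / 2) ^ (ℓ v).2.2))
        = (512 * C ^ 2) ^ (Fintype.card (Option S)) * N ^ 2 * wt ℓ := by
      generalize 512 * C ^ 2 = K
      rw [Finset.prod_mul_distrib, Finset.prod_mul_distrib, Finset.prod_mul_distrib, prod_Nv,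
        Finset.prod_const, Finset.card_univ, sq]
      rfl
    rw [h5] at h4
    exact absurd (h3.trans h4) (not_le.mpr hsmall)
  rw [hE0, Int.cast_zero] at hid
  have h6 : (f 0 : Qb) * g 0 ≠ 0 := mul_ne_zero hf.a_ne hg.a_ne
  have h7 : (y - y') * (z - z') = 0 := by
    have h8 : (-2 : Qb) * (f 0 * g 0) ≠ 0 := mul_ne_zero (by norm_num) h6
    exact (mul_eq_zero.mp hid.symm).resolve_left h8
  rcases mul_eq_zero.mp h7 with h | h
  · rw [← sub_eq_zero.mp h] at hg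
    exact hf.eq_of_common hg
  · rw [← sub_eq_zero.mp h] at hg
    exact hf.symm.eq_of_common hg.symm

end Pool.Agent.Helper77.Voj
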