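import Mathlib
import Pool.Agent.Helper77.Voj.FR
import Pool.Agent.Helper77.Voj.Gap

/-!
The product of all distances to the divisor in terms of the local Weil functions.
-/

namespace Pool.Agent.Helper77.Voj

open Polynomial Finset

variable {S : Finset ℕ} (hS : ∀ p ∈ S, p.Prime) {d : ℕ} (α : Fin d → Qb)

theorem va_none_rat (ρ : ℚ) : va hS none (ρ : Qb) = |(ρ : ℝ)| := by
  have := vinf_rat ρ
  rw [eq_ratCast] at this
  exact this

theorem va_some_rat (p : S) (ρ : ℚ) : va hS (some p) (ρ : Qb) = (padicNorm p.1 ρ : ℝ) := by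
  have := vp_rat p.1 (hS p.1 p.2) ρ
  rw [eq_ratCast] at this
  exact this

theorem prim_norm {p : S} {f : Fin 3 → ℤ} (hf : ∃ u v w : ℤ, u * f 0 + v * f 1 + w * f 2 = 1) :
    1 ≤ va hS (some p) (f 0 : Qb) ∨ 1 ≤ va hS (some p) (f 1 : Qb) ∨ 1 ≤ va hS (some p) (f 2 : Qb) := by
  by_contra hcon
  push Not at hcon
  obtain ⟨h0, h1, h2⟩ := hcon
  obtain ⟨u, v, w, huvw⟩ := hf
  set n := va hS (some p) with hn
  have hna : IsNonarchimedean n := vp_nonarch p.1 (hS p.1 p.2)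
  have e : (u : Qb) * f 0 + v * f 1 + w * f 2 = 1 := by exact_mod_cast congrArg (fun z : ℤ => (z : Qb)) huvw
  have hm : ∀ (a b : ℤ), n (b : Qb) < 1 → n ((a : Qb) * b) < 1 := by
    intro a b hb
    rw [map_mul]
    have ha := va_some_int_le hS p a
    have hb0 : 0 ≤ n (b : Qb) := apply_nonneg _ _
    calc n (a : Qb) * n (b : Qb) ≤ 1 * n (b : Qb) := mul_le_mul_of_nonneg_right ha hb0
      _ < 1 := by rw [one_mul]; exact hb
  have h3 : n ((u : Qb) * f 0 + v * f 1 + w * f 2) < 1 := by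
    refine (hna _ _).trans_lt (max_lt ((hna _ _).trans_lt (max_lt (hm _ _ h0) (hm _ _ h1))) (hm _ _ h2))
  rw [e, map_one] at h3
  exact lt_irrefl _ h3

theorem small_product (hα : Function.Injective α) (g : ℚ[X]) {γ : Qb} (hγ : γ ≠ 0)
    (hev : ∀ y : Qb, aeval y g = γ * ∏ i, (y - α i)) :
    ∃ Cst : ℝ, 0 < Cst ∧ ∀ (f : Fin 3 → ℤ) (x x' : Qb) (ρ : ℚ), FR f x x' → ρ ≠ 0 →
      (ρ : Qb) = aeval x g * aeval x' g →
      ∃ i j : Option S → Option (Fin d), ∏ v, (vdel (va hS v) α (i v) x * vdel (va hS v) α (j v) x') ≤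
        Cst * Real.exp (-(((d + 1 : ℕ) : ℝ) * (Real.log (vmx vinf x) + Real.log (vmx vinf x')) - Real.log |(ρ : ℝ)|
        + ∑ p : S, (-(((d + 1 : ℕ) : ℝ) * Real.log (padicNorm p.1 (f 0 : ℚ) : ℝ)) - Real.log (padicNorm p.1 ρ : ℝ)))) := by
  classical
  choose C hC1 hnear using fun v => near_point_av (va hS v) α hα γ hγ
  have hCpos : ∀ v, 0 < C v := fun v => lt_of_lt_of_le one_pos (hC1 v)
  refine ⟨(C none ^ 2) * ∏ p : S, (C (some p) ^ 2 * 2 ^ (d + 1)), ?_, ?_⟩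
  · have := hCpos none
    have h2 : 0 < ∏ p : S, (C (some p) ^ 2 * (2 : ℝ) ^ (d + 1)) :=
      Finset.prod_pos fun p _ => mul_pos (pow_pos (hCpos _) 2) (by positivity)
    positivity
  intro f x x' ρ hf hρ hρe
  choose i hi using fun v => hnear v x
  choose j hj using fun v => hnear v x'
  refine ⟨i, j, ?_⟩
  have hv : ∀ v, vdel (va hS v) α (i v) x * vdel (va hS v) α (j v) x'
      ≤ C v ^ 2 * (va hS v (ρ : Qb) / (vmx (va hS v) x * vmx (va hS v) x') ^ (d + 1)) := by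
    intro v
    have m1 := vmx_pos (va hS v) x
    have m2 := vmx_pos (va hS v) x'
    have h1 := hi v
    have h2 := hj v
    rw [← hev] at h1 h2
    have h3 := mul_le_mul h1 h2 (vdel_nonneg _ _ _ _)
      (mul_nonneg (hCpos v).le (div_nonneg (apply_nonneg _ _) (pow_nonneg m1.le _)))
    refine h3.trans (le_of_eq ?_)
    rw [hρe, map_mul, mul_pow]
    field_simp
  have hρR : (0 : ℝ) < |(ρ : ℝ)| := abs_pos.mpr (by exact_mod_cast hρ)
  have hf0 : (f 0 : ℚ) ≠ 0 := by exact_mod_cast hf.pos.ne'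
  -- the archimedean factor
  have hnone : vdel (va hS none) α (i none) x * vdel (va hS none) α (j none) x'
      ≤ C none ^ 2 * Real.exp (Real.log |(ρ : ℝ)| - ((d + 1 : ℕ) : ℝ) * (Real.log (vmx vinf x) + Real.log (vmx vinf x'))) := by
    refine (hv none).trans (le_of_eq ?_)
    rw [va_none_rat, va_none]
    congr 1
    have m1 := vmx_pos vinf x
    have m2 := vmx_pos vinf x'
    rw [Real.exp_sub, Real.exp_log hρR, ← Real.log_mul m1.ne' m2.ne', mul_comm (((d + 1 : ℕ) : ℝ)),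
      Real.exp_mul, Real.exp_log (mul_pos m1 m2), Real.rpow_natCast]
  have hsome : ∀ p : S, vdel (va hS (some p)) α (i (some p)) x * vdel (va hS (some p)) α (j (some p)) x'
      ≤ (C (some p) ^ 2 * 2 ^ (d + 1)) * Real.exp (((d + 1 : ℕ) : ℝ) * Real.log (padicNorm p.1 (f 0 : ℚ) : ℝ)
        + Real.log (padicNorm p.1 ρ : ℝ)) := by
    intro p
    haveI : Fact p.1.Prime := ⟨hS p.1 p.2⟩
    have hap : (0 : ℝ) < (padicNorm p.1 (f 0 : ℚ) : ℝ) := by
      have := padicNorm.nonneg (p := p.1) (f 0 : ℚ)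
      have h0 := padicNorm.nonzero (p := p.1) hf0
      exact_mod_cast lt_of_le_of_ne this h0.symm
    have hρp : (0 : ℝ) < (padicNorm p.1 ρ : ℝ) := by
      have := padicNorm.nonneg (p := p.1) ρ
      have h0 := padicNorm.nonzero (p := p.1) hρ
      exact_mod_cast lt_of_le_of_ne this h0.symm
    refine (hv (some p)).trans ?_
    set w := va hS (some p) with hw
    have m1 := vmx_pos w x
    have m2 := vmx_pos w x'
    have hg := gauss_lower_av w (f 0 : Qb) (f 1 : Qb) (f 2 : Qb) x x' hf.hb hf.hc 1 (prim_norm hS hf.prim)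
    have ha : w (f 0 : Qb) = (padicNorm p.1 (f 0 : ℚ) : ℝ) := va_some_int hS p (f 0)
    rw [ha] at hg
    rw [va_some_rat, Real.exp_add, Real.exp_log hρp, mul_comm (((d + 1 : ℕ) : ℝ)), Real.exp_mul,
      Real.exp_log hap, Real.rpow_natCast, mul_assoc]
    apply mul_le_mul_of_nonneg_left _ (sq_nonneg _)
    have h5 : 1 / (vmx w x * vmx w x') ≤ 2 * (padicNorm p.1 (f 0 : ℚ) : ℝ) := by
      rw [div_le_iff₀ (mul_pos m1 m2)]
      linarith
    have h6 : (1 / (vmx w x * vmx w x')) ^ (d + 1) ≤ (2 * (padicNorm p.1 (f 0 : ℚ) : ℝ)) ^ (d + 1) :=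
      pow_le_pow_left₀ (by positivity) h5 _
    calc (padicNorm p.1 ρ : ℝ) / (vmx w x * vmx w x') ^ (d + 1)
        = (padicNorm p.1 ρ : ℝ) * (1 / (vmx w x * vmx w x')) ^ (d + 1) := by rw [one_div, inv_pow]; rfl
      _ ≤ (padicNorm p.1 ρ : ℝ) * (2 * (padicNorm p.1 (f 0 : ℚ) : ℝ)) ^ (d + 1) :=
          mul_le_mul_of_nonneg_left h6 hρp.le
      _ = _ := by rw [mul_pow]; ring
  rw [Fintype.prod_option]
  have hprod : ∏ p : S, (vdel (va hS (some p)) α (i (some p)) x * vdel (va hS (some p)) α (j (some p)) x')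
      ≤ ∏ p : S, ((C (some p) ^ 2 * 2 ^ (d + 1)) * Real.exp (((d + 1 : ℕ) : ℝ) * Real.log (padicNorm p.1 (f 0 : ℚ) : ℝ)
        + Real.log (padicNorm p.1 ρ : ℝ))) :=
    Finset.prod_le_prod (fun p _ => mul_nonneg (vdel_nonneg _ _ _ _) (vdel_nonneg _ _ _ _)) (fun p _ => hsome p)
  have hsplit : ∏ p : S, ((C (some p) ^ 2 * 2 ^ (d + 1)) * Real.exp (((d + 1 : ℕ) : ℝ) * Real.log (padicNorm p.1 (f 0 : ℚ) : ℝ)
        + Real.log (padicNorm p.1 ρ : ℝ))) = (∏ p : S, (C (some p) ^ 2 * 2 ^ (d + 1)))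
        * Real.exp (∑ p : S, (((d + 1 : ℕ) : ℝ) * Real.log (padicNorm p.1 (f 0 : ℚ) : ℝ)
        + Real.log (padicNorm p.1 ρ : ℝ))) := by
    rw [Real.exp_sum]
    exact Finset.prod_mul_distrib
  rw [hsplit] at hprod
  have hp0 : 0 ≤ ∏ p : S, (vdel (va hS (some p)) α (i (some p)) x * vdel (va hS (some p)) α (j (some p)) x') :=
    Finset.prod_nonneg fun p _ => mul_nonneg (vdel_nonneg _ _ _ _) (vdel_nonneg _ _ _ _)
  refine (mul_le_mul hnone hprod hp0 (mul_nonneg (sq_nonneg _) (Real.exp_pos _).le)).trans (le_of_eq ?_)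
  have e1 : ∀ A B E F : ℝ, A * Real.exp E * (B * Real.exp F) = A * B * Real.exp (E + F) := by
    intro A B E F
    rw [Real.exp_add]; ring
  rw [e1]
  congr 2
  have e2 : ∑ p : S, (-(((d + 1 : ℕ) : ℝ) * Real.log (padicNorm p.1 (f 0 : ℚ) : ℝ)) - Real.log (padicNorm p.1 ρ : ℝ))
      = -∑ p : S, (((d + 1 : ℕ) : ℝ) * Real.log (padicNorm p.1 (f 0 : ℚ) : ℝ) + Real.log (padicNorm p.1 ρ : ℝ)) := by
    rw [← Finset.sum_neg_distrib]
    refine Finset.sum_congr rfl fun p _ => ?_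
    ring
  rw [e2]
  ring

end Pool.Agent.Helper77.Voj
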