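import Mathlib
import Pool.Agent.Helper77.Voj.Forms

/-!
Counting points of a finite set of primitive integer vectors by means of linear functionals.
-/

namespace Pool.Agent.Helper77.Voj

open Finset

section

variable {M : Type*} [AddCommGroup M]

theorem exists_gen (φ : M →+ ℤ) (Λ : AddSubgroup M) (hne : ∃ m ∈ Λ, φ m ≠ 0) :
    ∃ h ∈ Λ, 0 < φ h ∧ ∀ m ∈ Λ, φ h ∣ φ m := by
  obtain ⟨a, ha⟩ := Int.subgroup_cyclic (Λ.map φ)
  have hmem : ∀ m ∈ Λ, a ∣ φ m := by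
    intro m hm
    have h1 : φ m ∈ Λ.map φ := AddSubgroup.mem_map_of_mem φ hm
    rw [ha] at h1
    obtain ⟨k, hk⟩ := AddSubgroup.mem_closure_singleton.mp h1
    exact ⟨k, by rw [← hk, smul_eq_mul, mul_comm]⟩
  have ha0 : a ≠ 0 := by
    rintro rfl
    obtain ⟨m, hm, hm0⟩ := hne
    exact hm0 (zero_dvd_iff.mp (hmem m hm))
  have h2 : a ∈ Λ.map φ := by rw [ha]; exact AddSubgroup.subset_closure rfl
  obtain ⟨h, hh, e⟩ := AddSubgroup.mem_map.mp h2
  rcases lt_or_gt_of_ne ha0 with hlt | hgt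
  · refine ⟨-h, Λ.neg_mem hh, ?_, ?_⟩
    · rw [map_neg, e]; omega
    · intro m hm
      rw [map_neg, e]
      exact (neg_dvd).mpr (hmem m hm)
  · refine ⟨h, hh, by rw [e]; exact hgt, ?_⟩
    intro m hm
    rw [e]; exact hmem m hm

/-- points in the fibres of a linear functional -/
theorem count_fib [DecidableEq M] (φ : M →+ ℤ) (Λ : AddSubgroup M) (Q : Finset M)
    (hQ : ∀ p ∈ Q, ∀ q ∈ Q, p - q ∈ Λ) (g : ℤ) (hg : 0 < g) (hgen : ∀ m ∈ Λ, g ∣ φ m)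
    (X : ℤ) (hX0 : 0 ≤ X) (hX : ∀ p ∈ Q, ∀ q ∈ Q, |φ (p - q)| ≤ X) (F : ℝ)
    (hF : ∀ t, ((Q.filter fun p => φ p = t).card : ℝ) ≤ F) :
    (Q.card : ℝ) ≤ F * (2 * (X / g : ℝ) + 1) := by
  have hF0 : (0 : ℝ) ≤ F := (Nat.cast_nonneg _).trans (hF 0)
  have hX0' : (0 : ℝ) ≤ X := by exact_mod_cast hX0
  have hg' : (0 : ℝ) < g := by exact_mod_cast hg
  rcases Q.eq_empty_or_nonempty with rfl | ⟨q, hq⟩
  · rw [Finset.card_empty, Nat.cast_zero]; positivity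
  · have h1 : (Q.card : ℝ) ≤ F * (Q.image φ).card := by
      have e : Q.card = ∑ t ∈ Q.image φ, (Q.filter fun p => φ p = t).card :=
        Finset.card_eq_sum_card_image φ Q
      rw [e, Nat.cast_sum]
      calc ∑ t ∈ Q.image φ, ((Q.filter fun p => φ p = t).card : ℝ) ≤ ∑ t ∈ Q.image φ, F :=
            Finset.sum_le_sum fun t _ => hF t
        _ = F * (Q.image φ).card := by rw [Finset.sum_const, nsmul_eq_mul, mul_comm]
    have h2 : Q.image φ ⊆ (Finset.Icc (-(X / g)) (X / g)).image (fun k => φ q + g * k) := by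
      intro t ht
      obtain ⟨p, hp, rfl⟩ := Finset.mem_image.mp ht
      obtain ⟨k, hk⟩ := hgen _ (hQ p hp q hq)
      have h3 := hX p hp q hq
      rw [hk, abs_mul, abs_of_pos hg] at h3
      have h4 : |k| ≤ X / g := by
        rw [Int.le_ediv_iff_mul_le hg, mul_comm]; exact h3
      refine Finset.mem_image.mpr ⟨k, Finset.mem_Icc.mpr (abs_le.mp h4), ?_⟩
      rw [← hk, map_sub]; ring
    have h3 : (Q.image φ).card ≤ (2 * (X / g) + 1).toNat := by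
      refine (Finset.card_le_card h2).trans (Finset.card_image_le.trans ?_)
      rw [Int.card_Icc]
      apply le_of_eq
      congr 1
      ring
    have hXg : 0 ≤ X / g := Int.ediv_nonneg hX0 hg.le
    have h4 : ((Q.image φ).card : ℝ) ≤ 2 * (X / g : ℝ) + 1 := by
      have h5 : ((Q.image φ).card : ℤ) ≤ 2 * (X / g) + 1 := by
        have : ((2 * (X / g) + 1).toNat : ℤ) = 2 * (X / g) + 1 := Int.toNat_of_nonneg (by linarith)
        rw [← this]; exact_mod_cast h3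
      have h6 : ((Q.image φ).card : ℝ) ≤ 2 * ((X / g : ℤ) : ℝ) + 1 := by exact_mod_cast h5
      have h7 : ((X / g : ℤ) : ℝ) ≤ (X : ℝ) / g := by
        rw [le_div_iff₀ (by exact_mod_cast hg)]
        exact_mod_cast Int.ediv_mul_le X hg.ne'
      linarith
    exact h1.trans (mul_le_mul_of_nonneg_left h4 hF0)

end

/-- primitive vector -/
def Prim (f : Fin 3 → ℤ) : Prop := ∃ u v w : ℤ, u * f 0 + v * f 1 + w * f 2 = 1

/-- a multiple up to a rational factor of a primitive vector is an integral multiple -/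
theorem prim_mul {f δ : Fin 3 → ℤ} (hf : Prim f) {Δ t : ℤ} (hΔ : Δ ≠ 0) (h : ∀ i, Δ * δ i = t * f i) :
    ∃ c : ℤ, (∀ i, δ i = c * f i) ∧ t = Δ * c := by
  obtain ⟨u, v, w, huvw⟩ := hf
  have h0 := h 0
  have h1 := h 1
  have h2 := h 2
  have ht : t = Δ * (u * δ 0 + v * δ 1 + w * δ 2) := by
    linear_combination (-t) * huvw - u * h0 - v * h1 - w * h2
  refine ⟨u * δ 0 + v * δ 1 + w * δ 2, fun i => ?_, ht⟩
  apply mul_left_cancel₀ hΔ
  rw [h i, ht]; ring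

/-- points on a line in a primitive direction -/
theorem count_line (Q : Finset (Fin 3 → ℤ)) (v1 : Fin 3 → ℤ) (ψ : (Fin 3 → ℤ) →+ ℤ) (hψ : ψ v1 ≠ 0)
    (hQ : ∀ p ∈ Q, ∀ q ∈ Q, ∃ c : ℤ, p - q = c • v1) (hX : ∀ p ∈ Q, ∀ q ∈ Q, |ψ (p - q)| ≤ 2 * |ψ v1|) :
    (Q.card : ℝ) ≤ 5 := by
  classical
  have hpos : 0 < |ψ v1| := abs_pos.mpr hψ
  have h := count_fib ψ (AddSubgroup.zmultiples v1) Q (fun p hp q hq => by
      obtain ⟨c, hc⟩ := hQ p hp q hq
      exact AddSubgroup.mem_zmultiples_iff.mpr ⟨c, hc.symm⟩) |ψ v1| hpos (fun m hm => by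
      obtain ⟨c, rfl⟩ := AddSubgroup.mem_zmultiples_iff.mp hm
      rw [map_zsmul, smul_eq_mul, abs_dvd]
      exact dvd_mul_left _ _) (2 * |ψ v1|) (by positivity) hX 1 (fun t => by
      have : (Q.filter fun p => ψ p = t).card ≤ 1 := by
        rw [Finset.card_le_one]
        intro p hp q hq
        rw [Finset.mem_filter] at hp hq
        obtain ⟨c, hc⟩ := hQ p hp.1 q hq.1
        have h1 : ψ (p - q) = 0 := by rw [map_sub, hp.2, hq.2, sub_self]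
        rw [hc, map_zsmul, smul_eq_mul] at h1
        have hc0 : c = 0 := (mul_eq_zero.mp h1).resolve_right hψ
        rw [hc0, zero_smul] at hc
        exact sub_eq_zero.mp hc
      exact_mod_cast this)
  have hpos' : (0 : ℝ) < (|ψ v1| : ℤ) := by exact_mod_cast hpos
  have e : (1 : ℝ) * (2 * (((2 * |ψ v1| : ℤ) : ℝ) / ((|ψ v1| : ℤ) : ℝ)) + 1) = 5 := by
    rw [Int.cast_mul, mul_div_assoc, div_self hpos'.ne']
    norm_num
  rw [e] at h
  exact h

/-- the functional `h ↦ det (a, b, h)` -/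
def phi3 (a b : Fin 3 → ℤ) : (Fin 3 → ℤ) →+ ℤ where
  toFun h := det3 a b h
  map_zero' := by simp [det3]
  map_add' x y := by simp only [det3, Pi.add_apply]; ring

/-- the functional `h ↦ det (a, h, b)` -/
def phi2 (a b : Fin 3 → ℤ) : (Fin 3 → ℤ) →+ ℤ where
  toFun h := det3 a h b
  map_zero' := by simp [det3]
  map_add' x y := by simp only [det3, Pi.add_apply]; ring

/-- the functional `h ↦ det (h, a, b)` -/
def phi1 (a b : Fin 3 → ℤ) : (Fin 3 → ℤ) →+ ℤ where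
  toFun h := det3 h a b
  map_zero' := by simp [det3]
  map_add' x y := by simp only [det3, Pi.add_apply]; ring

theorem phi3_apply (a b h : Fin 3 → ℤ) : phi3 a b h = det3 a b h := rfl
theorem phi2_apply (a b h : Fin 3 → ℤ) : phi2 a b h = det3 a h b := rfl
theorem phi1_apply (a b h : Fin 3 → ℤ) : phi1 a b h = det3 h a b := rfl

theorem abs_sub_le_two {φ : (Fin 3 → ℤ) →+ ℤ} {p q : Fin 3 → ℤ} {Δ : ℤ} (hp : |φ p| ≤ Δ) (hq : |φ q| ≤ Δ) :
    |φ (p - q)| ≤ 2 * Δ := by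
  rw [map_sub]
  have := abs_sub (φ p) (φ q)
  linarith

theorem cramer3 (a b c h : Fin 3 → ℤ) (i : Fin 3) :
    det3 a b c * h i = det3 h b c * a i + det3 a h c * b i + det3 a b h * c i := by
  have e0 : det3 a b c * h 0 = det3 h b c * a 0 + det3 a h c * b 0 + det3 a b h * c 0 := by
    simp only [det3]; ring
  have e1 : det3 a b c * h 1 = det3 h b c * a 1 + det3 a h c * b 1 + det3 a b h * c 1 := by
    simp only [det3]; ring
  have e2 : det3 a b c * h 2 = det3 h b c * a 2 + det3 a h c * b 2 + det3 a b h * c 2 := by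
    simp only [det3]; ring
  fin_cases i
  · exact e0
  · exact e1
  · exact e2

/-- counting when the points span the whole space -/
theorem rank3 (P : Finset (Fin 3 → ℤ)) (hprim : ∀ f ∈ P, Prim f)
    (hne : ∃ f ∈ P, ∃ g ∈ P, ∃ h ∈ P, det3 f g h ≠ 0) :
    ∃ v1 ∈ P, ∃ v2 ∈ P, ∃ v3 ∈ P, ∃ h2 ∈ AddSubgroup.closure (P : Set (Fin 3 → ℤ)),
      ∃ h3 ∈ AddSubgroup.closure (P : Set (Fin 3 → ℤ)), det3 v1 h2 h3 ≠ 0 ∧
      (P.card : ℝ) * |((det3 v1 h2 h3 : ℤ) : ℝ)| ≤ 125 * |((det3 v1 v2 v3 : ℤ) : ℝ)| := by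
  classical
  obtain ⟨f, hf, g, hg, h, hh, h0⟩ := hne
  obtain ⟨t, ht, hmax⟩ := Finset.exists_max_image (P ×ˢ P ×ˢ P) (fun t => |det3 t.1 t.2.1 t.2.2|)
    ⟨(f, g, h), by simp [hf, hg, hh]⟩
  obtain ⟨v1, v2, v3⟩ := t
  simp only [Finset.mem_product] at ht
  obtain ⟨m1, m2, m3⟩ := ht
  have hM : ∀ a ∈ P, ∀ b ∈ P, ∀ c ∈ P, |det3 a b c| ≤ |det3 v1 v2 v3| := fun a ha b hb c hc =>
    hmax (a, b, c) (by simp [ha, hb, hc])
  have hΔ : det3 v1 v2 v3 ≠ 0 := by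
    intro e
    have := hM f hf g hg h hh
    rw [e, abs_zero] at this
    exact h0 (abs_nonpos_iff.mp this)
  set Δ := |det3 v1 v2 v3| with hΔdef
  have hΔpos : 0 < Δ := abs_pos.mpr hΔ
  set Λ := AddSubgroup.closure (P : Set (Fin 3 → ℤ)) with hΛ
  have hPΛ : ∀ p ∈ P, p ∈ Λ := fun p hp => AddSubgroup.subset_closure hp
  obtain ⟨h3, h3Λ, h3pos, h3gen⟩ := exists_gen (phi3 v1 v2) Λ ⟨v3, hPΛ _ m3, hΔ⟩
  set Λ2 := Λ ⊓ (phi3 v1 v2).ker with hΛ2
  have hv2 : v2 ∈ Λ2 := by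
    refine AddSubgroup.mem_inf.mpr ⟨hPΛ _ m2, ?_⟩
    rw [AddMonoidHom.mem_ker, phi3_apply]
    simp only [det3]; ring
  obtain ⟨h2, h2Λ, h2pos, h2gen⟩ := exists_gen (phi2 v1 v3) Λ2 ⟨v2, hv2, hΔ⟩
  have h2Λ' := AddSubgroup.mem_inf.mp h2Λ
  have h2ker : det3 v1 v2 h2 = 0 := h2Λ'.2
  have hpl : det3 v1 v2 v3 * det3 v1 h2 h3 = det3 v1 v2 h3 * det3 v1 h2 v3 := by
    have : det3 v1 v2 v3 * det3 v1 h2 h3 = det3 v1 v2 h2 * det3 v1 v3 h3 + det3 v1 v2 h3 * det3 v1 h2 v3 := by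
      simp only [det3]; ring
    rw [this, h2ker, zero_mul, zero_add]
  rw [phi3_apply] at h3pos
  rw [phi2_apply] at h2pos
  have hne' : det3 v1 h2 h3 ≠ 0 := by
    intro e
    rw [e, mul_zero] at hpl
    exact (mul_pos h3pos h2pos).ne' hpl.symm
  refine ⟨v1, m1, v2, m2, v3, m3, h2, h2Λ'.1, h3, h3Λ, hne', ?_⟩
  -- lowest level
  have low : ∀ t s : ℤ, ((((P.filter fun p => phi3 v1 v2 p = t).filter fun p => phi2 v1 v3 p = s)).card : ℝ) ≤ 5 := by
    intro t s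
    refine count_line _ v1 (phi1 v2 v3) hΔ ?_ ?_
    · intro p hp q hq
      simp only [Finset.mem_filter] at hp hq
      have e3 : det3 v1 v2 (p - q) = 0 := by
        rw [← phi3_apply, map_sub, hp.1.2, hq.1.2, sub_self]
      have e2 : det3 v1 (p - q) v3 = 0 := by
        rw [← phi2_apply, map_sub, hp.2, hq.2, sub_self]
      have hcr : ∀ i, det3 v1 v2 v3 * (p - q) i = det3 (p - q) v2 v3 * v1 i := by
        intro i
        rw [cramer3 v1 v2 v3 (p - q) i, e2, e3]; ring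
      obtain ⟨c, hc, -⟩ := prim_mul (hprim v1 m1) hΔ hcr
      exact ⟨c, by funext i; rw [hc i]; rfl⟩
    · intro p hp q hq
      simp only [Finset.mem_filter] at hp hq
      exact abs_sub_le_two (hM p hp.1.1 v2 m2 v3 m3) (hM q hq.1.1 v2 m2 v3 m3)
  have mid : ∀ t : ℤ, ((P.filter fun p => phi3 v1 v2 p = t).card : ℝ)
      ≤ 5 * (2 * (((2 * Δ : ℤ) : ℝ) / ((det3 v1 h2 v3 : ℤ) : ℝ)) + 1) := by
    intro t
    refine count_fib (phi2 v1 v3) Λ2 _ ?_ (det3 v1 h2 v3) h2pos h2gen (2 * Δ) (by positivity) ?_ 5 (fun s => low t s)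
    · intro p hp q hq
      simp only [Finset.mem_filter] at hp hq
      refine AddSubgroup.mem_inf.mpr ⟨Λ.sub_mem (hPΛ _ hp.1) (hPΛ _ hq.1), ?_⟩
      rw [AddMonoidHom.mem_ker, map_sub, hp.2, hq.2, sub_self]
    · intro p hp q hq
      simp only [Finset.mem_filter] at hp hq
      exact abs_sub_le_two (hM v1 m1 p hp.1 v3 m3) (hM v1 m1 q hq.1 v3 m3)
  have top := count_fib (phi3 v1 v2) Λ P (fun p hp q hq => Λ.sub_mem (hPΛ _ hp) (hPΛ _ hq)) (det3 v1 v2 h3) h3pos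
    h3gen (2 * Δ) (by positivity) (fun p hp q hq => abs_sub_le_two (hM v1 m1 v2 m2 p hp) (hM v1 m1 v2 m2 q hq)) _ mid
  -- sizes
  have b3 : det3 v1 v2 h3 ≤ Δ := by
    have := h3gen v3 (hPΛ _ m3)
    exact Int.le_of_dvd hΔpos ((dvd_abs _ _).mpr this)
  have b2 : det3 v1 h2 v3 ≤ Δ := by
    have := h2gen v2 hv2
    exact Int.le_of_dvd hΔpos ((dvd_abs _ _).mpr this)
  have c3 : (0 : ℝ) < (det3 v1 v2 h3 : ℤ) := by exact_mod_cast h3pos
  have c2 : (0 : ℝ) < (det3 v1 h2 v3 : ℤ) := by exact_mod_cast h2pos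
  have d3 : ((det3 v1 v2 h3 : ℤ) : ℝ) ≤ Δ := by exact_mod_cast b3
  have d2 : ((det3 v1 h2 v3 : ℤ) : ℝ) ≤ Δ := by exact_mod_cast b2
  have hΔR : (0 : ℝ) < Δ := by exact_mod_cast hΔpos
  have hplR : (Δ : ℝ) * |((det3 v1 h2 h3 : ℤ) : ℝ)| = ((det3 v1 v2 h3 : ℤ) : ℝ) * ((det3 v1 h2 v3 : ℤ) : ℝ) := by
    have := congrArg (fun z : ℤ => |(z : ℝ)|) hpl
    simp only [Int.cast_mul, abs_mul] at this
    rw [abs_of_pos c3, abs_of_pos c2] at this
    rw [← this, hΔdef, Int.cast_abs]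
  rw [Int.cast_mul, Int.cast_ofNat] at top
  set G3 := ((det3 v1 v2 h3 : ℤ) : ℝ) with hG3
  set G2 := ((det3 v1 h2 v3 : ℤ) : ℝ) with hG2
  set D' := |((det3 v1 h2 h3 : ℤ) : ℝ)| with hD'
  have u3 : 2 * (2 * (Δ : ℝ) / G3) + 1 ≤ 5 * (Δ / G3) := by
    have : 1 ≤ (Δ : ℝ) / G3 := (one_le_div c3).mpr d3
    have e : 2 * (2 * (Δ : ℝ) / G3) = 4 * (Δ / G3) := by ring
    linarith
  have u2 : 2 * (2 * (Δ : ℝ) / G2) + 1 ≤ 5 * (Δ / G2) := by
    have : 1 ≤ (Δ : ℝ) / G2 := (one_le_div c2).mpr d2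
    have e : 2 * (2 * (Δ : ℝ) / G2) = 4 * (Δ / G2) := by ring
    linarith
  have hfin : (P.card : ℝ) ≤ 5 * (5 * (Δ / G2)) * (5 * (Δ / G3)) := by
    refine top.trans ?_
    have hz : (0 : ℝ) ≤ 2 * (2 * (Δ : ℝ) / G3) + 1 := by positivity
    have hz' : (0 : ℝ) ≤ 5 * (5 * (Δ / G2)) := by positivity
    exact mul_le_mul (mul_le_mul_of_nonneg_left u2 (by norm_num)) u3 hz hz'
  have hΔcast : |((det3 v1 v2 v3 : ℤ) : ℝ)| = (Δ : ℝ) := by rw [hΔdef, Int.cast_abs]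
  rw [hΔcast]
  have hD'0 : 0 ≤ D' := abs_nonneg _
  calc (P.card : ℝ) * D' ≤ 5 * (5 * (Δ / G2)) * (5 * (Δ / G3)) * D' := mul_le_mul_of_nonneg_right hfin hD'0
    _ = 125 * (Δ / (G3 * G2)) * (Δ * D') := by field_simp; ring
    _ = 125 * Δ := by rw [hplR]; field_simp

/-- coordinates of the cross product -/
def cr (k : Fin 3) (f g : Fin 3 → ℤ) : ℤ :=
  ![f 0 * g 1 - f 1 * g 0, f 0 * g 2 - f 2 * g 0, f 1 * g 2 - f 2 * g 1] k

theorem cr0 (f g : Fin 3 → ℤ) : cr 0 f g = f 0 * g 1 - f 1 * g 0 := rfl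
theorem cr1 (f g : Fin 3 → ℤ) : cr 1 f g = f 0 * g 2 - f 2 * g 0 := rfl
theorem cr2 (f g : Fin 3 → ℤ) : cr 2 f g = f 1 * g 2 - f 2 * g 1 := rfl

theorem cr_add (k : Fin 3) (f x y : Fin 3 → ℤ) : cr k f (x + y) = cr k f x + cr k f y := by
  fin_cases k
  · change f 0 * (x 1 + y 1) - f 1 * (x 0 + y 0) = (f 0 * x 1 - f 1 * x 0) + (f 0 * y 1 - f 1 * y 0); ring
  · change f 0 * (x 2 + y 2) - f 2 * (x 0 + y 0) = (f 0 * x 2 - f 2 * x 0) + (f 0 * y 2 - f 2 * y 0); ring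
  · change f 1 * (x 2 + y 2) - f 2 * (x 1 + y 1) = (f 1 * x 2 - f 2 * x 1) + (f 1 * y 2 - f 2 * y 1); ring

theorem cr_swap (k : Fin 3) (f x : Fin 3 → ℤ) : cr k f x = -cr k x f := by
  fin_cases k
  · change f 0 * x 1 - f 1 * x 0 = -(x 0 * f 1 - x 1 * f 0); ring
  · change f 0 * x 2 - f 2 * x 0 = -(x 0 * f 2 - x 2 * f 0); ring
  · change f 1 * x 2 - f 2 * x 1 = -(x 1 * f 2 - x 2 * f 1); ring

/-- the functional `h ↦ cr k a h` -/
def phc (k : Fin 3) (a : Fin 3 → ℤ) : (Fin 3 → ℤ) →+ ℤ where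
  toFun h := cr k a h
  map_zero' := by
    have := cr_add k a 0 0
    rw [add_zero] at this
    linarith
  map_add' x y := cr_add k a x y

theorem phc_apply (k : Fin 3) (a h : Fin 3 → ℤ) : phc k a h = cr k a h := rfl

/-- coplanar vectors have parallel cross products -/
theorem cr_par {a b h : Fin 3 → ℤ} (hd : det3 a b h = 0) (j k : Fin 3) :
    cr j a h * cr k a b = cr k a h * cr j a b := by
  have e01 : cr 0 a h * cr 1 a b = cr 1 a h * cr 0 a b := by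
    rw [cr0, cr0, cr1, cr1]; unfold det3 at hd; linear_combination (-a 0) * hd
  have e02 : cr 0 a h * cr 2 a b = cr 2 a h * cr 0 a b := by
    rw [cr0, cr0, cr2, cr2]; unfold det3 at hd; linear_combination (-a 1) * hd
  have e12 : cr 1 a h * cr 2 a b = cr 2 a h * cr 1 a b := by
    rw [cr1, cr1, cr2, cr2]; unfold det3 at hd; linear_combination (-a 2) * hd
  fin_cases j <;> fin_cases k
  · rfl
  · exact e01
  · exact e02
  · exact e01.symm
  · rfl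
  · exact e12
  · exact e02.symm
  · exact e12.symm
  · rfl

theorem res_cr (f g : Fin 3 → ℤ) : res f g = cr 1 f g ^ 2 - cr 0 f g * cr 2 f g := rfl

theorem res_par {a b h : Fin 3 → ℤ} (hd : det3 a b h = 0) (k : Fin 3) :
    res a h * cr k a b ^ 2 = res a b * cr k a h ^ 2 := by
  have h0 := cr_par hd 0 k
  have h1 := cr_par hd 1 k
  have h2 := cr_par hd 2 k
  rw [res_cr, res_cr]
  have e1 : (cr 1 a h * cr k a b) ^ 2 = (cr k a h * cr 1 a b) ^ 2 := by rw [h1]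
  have e2 : (cr 0 a h * cr k a b) * (cr 2 a h * cr k a b) = (cr k a h * cr 0 a b) * (cr k a h * cr 2 a b) := by
    rw [h0, h2]
  linear_combination e1 - e2

/-- counting when the points span a plane -/
theorem rank2 (P : Finset (Fin 3 → ℤ)) (hprim : ∀ f ∈ P, Prim f)
    (hdet : ∀ f ∈ P, ∀ g ∈ P, ∀ h ∈ P, det3 f g h = 0) (hne : ∃ f ∈ P, ∃ g ∈ P, res f g ≠ 0)
    (hres : ∀ f ∈ P, ∀ g ∈ P, f ≠ g → res f g ≠ 0) :
    ∃ v1 ∈ P, ∃ v2 ∈ P, ∃ h ∈ AddSubgroup.closure (P : Set (Fin 3 → ℤ)), res v1 h ≠ 0 ∧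
      (P.card : ℝ) ^ 2 * |((res v1 h : ℤ) : ℝ)| ≤ 625 * |((res v1 v2 : ℤ) : ℝ)| := by
  classical
  obtain ⟨f, hf, g, hg, h0⟩ := hne
  obtain ⟨k, hk⟩ : ∃ k, cr k f g ≠ 0 := by
    by_contra hcon
    push Not at hcon
    apply h0
    rw [res_cr, hcon 1, hcon 0]; ring
  obtain ⟨t, ht, hmax⟩ := Finset.exists_max_image (P ×ˢ P) (fun t => |cr k t.1 t.2|)
    ⟨(f, g), by simp [hf, hg]⟩
  obtain ⟨v1, v2⟩ := t
  simp only [Finset.mem_product] at ht
  obtain ⟨m1, m2⟩ := ht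
  have hM : ∀ a ∈ P, ∀ b ∈ P, |cr k a b| ≤ |cr k v1 v2| := fun a ha b hb =>
    hmax (a, b) (by simp [ha, hb])
  have hΔ : cr k v1 v2 ≠ 0 := by
    intro e
    have := hM f hf g hg
    rw [e, abs_zero] at this
    exact hk (abs_nonpos_iff.mp this)
  set Δ := |cr k v1 v2| with hΔdef
  have hΔpos : 0 < Δ := abs_pos.mpr hΔ
  set Λ := AddSubgroup.closure (P : Set (Fin 3 → ℤ)) with hΛ
  have hPΛ : ∀ p ∈ P, p ∈ Λ := fun p hp => AddSubgroup.subset_closure hp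
  have hΛdet : ∀ h ∈ Λ, det3 v1 v2 h = 0 := by
    intro h hh
    have : Λ ≤ (phi3 v1 v2).ker := by
      rw [hΛ, AddSubgroup.closure_le]
      intro p hp
      exact hdet v1 m1 v2 m2 p hp
    exact this hh
  obtain ⟨h, hhΛ, hpos, hgen⟩ := exists_gen (phc k v1) Λ ⟨v2, hPΛ _ m2, hΔ⟩
  rw [phc_apply] at hpos
  have hpar := res_par (hΛdet h hhΛ) k
  have hv12 : v1 ≠ v2 := by
    rintro rfl
    apply hΔ
    have := cr_swap k v1 v1
    omega
  have hr0 : res v1 v2 ≠ 0 := hres v1 m1 v2 m2 hv12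
  have hr1 : res v1 h ≠ 0 := by
    intro e
    rw [e, zero_mul] at hpar
    exact (mul_ne_zero hr0 (pow_ne_zero 2 hpos.ne')) hpar.symm
  refine ⟨v1, m1, v2, m2, h, hhΛ, hr1, ?_⟩
  have low : ∀ t : ℤ, ((P.filter fun p => phc k v1 p = t).card : ℝ) ≤ 5 := by
    intro t
    have hψ : (-(phc k v2)) v1 ≠ 0 := by
      rw [AddMonoidHom.neg_apply, phc_apply, ← cr_swap]; exact hΔ
    refine count_line _ v1 (-(phc k v2)) hψ ?_ ?_
    · intro p hp q hq
      simp only [Finset.mem_filter] at hp hq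
      have hδ : p - q ∈ Λ := Λ.sub_mem (hPΛ _ hp.1) (hPΛ _ hq.1)
      have e1 : cr k v1 (p - q) = 0 := by
        rw [← phc_apply, map_sub, hp.2, hq.2, sub_self]
      have e2 : ∀ j, cr j v1 (p - q) = 0 := by
        intro j
        have h3 := cr_par (hΛdet _ hδ) j k
        rw [e1, zero_mul] at h3
        exact (mul_eq_zero.mp h3).resolve_right hΔ
      -- proportional
      have f0 := e2 0
      have f1 := e2 1
      have f2 := e2 2
      rw [cr0] at f0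
      rw [cr1] at f1
      rw [cr2] at f2
      obtain ⟨u, v, w, huvw⟩ := hprim v1 m1
      refine ⟨u * (p - q) 0 + v * (p - q) 1 + w * (p - q) 2, ?_⟩
      have g0 : (p - q) 0 = (u * (p - q) 0 + v * (p - q) 1 + w * (p - q) 2) * v1 0 := by
        linear_combination (-(p - q) 0) * huvw - v * f0 - w * f1
      have g1 : (p - q) 1 = (u * (p - q) 0 + v * (p - q) 1 + w * (p - q) 2) * v1 1 := by
        linear_combination (-(p - q) 1) * huvw + u * f0 - w * f2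
      have g2 : (p - q) 2 = (u * (p - q) 0 + v * (p - q) 1 + w * (p - q) 2) * v1 2 := by
        linear_combination (-(p - q) 2) * huvw + u * f1 + v * f2
      funext i
      fin_cases i
      · exact g0
      · exact g1
      · exact g2
    · intro p hp q hq
      simp only [Finset.mem_filter] at hp hq
      have e : |(-(phc k v2)) v1| = Δ := by
        rw [AddMonoidHom.neg_apply, phc_apply, ← cr_swap]
      rw [e]
      refine abs_sub_le_two ?_ ?_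
      · rw [AddMonoidHom.neg_apply, phc_apply, abs_neg]; exact hM v2 m2 p hp.1
      · rw [AddMonoidHom.neg_apply, phc_apply, abs_neg]; exact hM v2 m2 q hq.1
  have top := count_fib (phc k v1) Λ P (fun p hp q hq => Λ.sub_mem (hPΛ _ hp) (hPΛ _ hq)) (cr k v1 h) hpos
    hgen (2 * Δ) (by positivity) (fun p hp q hq => abs_sub_le_two (hM v1 m1 p hp) (hM v1 m1 q hq)) 5 low
  have b1 : cr k v1 h ≤ Δ := by
    have := hgen v2 (hPΛ _ m2)
    exact Int.le_of_dvd hΔpos ((dvd_abs _ _).mpr this)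
  have c1 : (0 : ℝ) < ((cr k v1 h : ℤ) : ℝ) := by exact_mod_cast hpos
  have d1 : ((cr k v1 h : ℤ) : ℝ) ≤ Δ := by exact_mod_cast b1
  have hΔR : (0 : ℝ) < Δ := by exact_mod_cast hΔpos
  rw [Int.cast_mul, Int.cast_ofNat] at top
  set G := ((cr k v1 h : ℤ) : ℝ) with hG
  have u3 : 2 * (2 * (Δ : ℝ) / G) + 1 ≤ 5 * (Δ / G) := by
    have : 1 ≤ (Δ : ℝ) / G := (one_le_div c1).mpr d1
    have e : 2 * (2 * (Δ : ℝ) / G) = 4 * (Δ / G) := by ring
    linarith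
  have hfin : (P.card : ℝ) ≤ 25 * (Δ / G) := by
    refine top.trans ?_
    linarith
  have hparR : |((res v1 h : ℤ) : ℝ)| * (Δ : ℝ) ^ 2 = |((res v1 v2 : ℤ) : ℝ)| * G ^ 2 := by
    have := congrArg (fun z : ℤ => |(z : ℝ)|) hpar
    simp only [Int.cast_mul, abs_mul, Int.cast_pow, abs_pow] at this
    rw [abs_of_pos c1] at this
    rw [← this, hΔdef, Int.cast_abs]
  have h5 : (P.card : ℝ) ^ 2 ≤ (25 * (Δ / G)) ^ 2 := pow_le_pow_left₀ (Nat.cast_nonneg _) hfin 2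
  calc (P.card : ℝ) ^ 2 * |((res v1 h : ℤ) : ℝ)| ≤ (25 * (Δ / G)) ^ 2 * |((res v1 h : ℤ) : ℝ)| :=
        mul_le_mul_of_nonneg_right h5 (abs_nonneg _)
    _ = 625 * (|((res v1 h : ℤ) : ℝ)| * (Δ : ℝ) ^ 2) / G ^ 2 := by ring
    _ = 625 * |((res v1 v2 : ℤ) : ℝ)| := by rw [hparR]; field_simp

end Pool.Agent.Helper77.Voj
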