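import Mathlib
import Pool.Agent.Helper77.Voj.Gap
import Pool.Agent.Helper77.Voj.Rank

/-!
Counting forms with a given label.
-/

namespace Pool.Agent.Helper77.Voj

open Finset

/-- integral vector in the algebraic numbers -/
noncomputable def cf (f : Fin 3 → ℤ) : Fin 3 → Qb := fun k => (f k : Qb)

theorem cf_eq {f : Fin 3 → ℤ} {y z : Qb} (h : FR f y z) :
    cf f = ![(f 0 : Qb), -((f 0 : Qb) * (y + z)), (f 0 : Qb) * (y * z)] := by
  funext k
  fin_cases k
  · rfl
  · exact h.hb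
  · exact h.hc

theorem det3_cf (f g h : Fin 3 → ℤ) : det3 (cf f) (cf g) (cf h) = ((det3 f g h : ℤ) : Qb) := by
  simp only [det3, cf]; push_cast; ring

theorem res_cf (f g : Fin 3 → ℤ) : res (cf f) (cf g) = ((res f g : ℤ) : Qb) := by
  simp only [res, cf]; push_cast; ring

theorem vval_add (f g : Fin 3 → ℤ) (P : Qb × Qb) : vval (cf (f + g)) P = vval (cf f) P + vval (cf g) P := by
  simp only [vval, cf, Pi.add_apply]; push_cast; ring

theorem vval_neg (f : Fin 3 → ℤ) (P : Qb × Qb) : vval (cf (-f)) P = -vval (cf f) P := by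
  simp only [vval, cf, Pi.neg_apply]; push_cast; ring

theorem vval_zero (P : Qb × Qb) : vval (cf 0) P = 0 := by
  simp only [vval, cf, Pi.zero_apply]; push_cast; ring

variable {S : Finset ℕ} (hS : ∀ p ∈ S, p.Prime) {d : ℕ} (α : Fin d → Qb)

theorem prod_trick (T : Option S → ℝ) (hT : ∀ v, 0 ≤ T v) {a b : ℤ} (hb : b ≠ 0) {c K : ℝ} (hc : 0 ≤ c)
    (hK : 0 ≤ K) (h : c * |(b : ℝ)| ≤ K * |(a : ℝ)|) (ha : va hS none (a : Qb) ≤ T none)
    (hbp : ∀ p, va hS (some p) (b : Qb) ≤ T (some p)) : c ≤ K * ∏ v, T v := by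
  have h1 := one_le_prod_va hS hb
  rw [Fintype.prod_option, va_none_int] at h1
  rw [va_none_int] at ha
  rw [Fintype.prod_option]
  have h2 : ∏ p : S, va hS (some p) (b : Qb) ≤ ∏ p : S, T (some p) :=
    Finset.prod_le_prod (fun p _ => apply_nonneg _ _) (fun p _ => hbp p)
  have h3 : 0 ≤ ∏ p : S, T (some p) := Finset.prod_nonneg fun p _ => hT _
  have h4 : 1 ≤ |(b : ℝ)| * ∏ p : S, T (some p) :=
    h1.trans (mul_le_mul_of_nonneg_left h2 (abs_nonneg _))
  calc c = c * 1 := (mul_one c).symm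
    _ ≤ c * (|(b : ℝ)| * ∏ p : S, T (some p)) := mul_le_mul_of_nonneg_left h4 hc
    _ = (c * |(b : ℝ)|) * ∏ p : S, T (some p) := by ring
    _ ≤ (K * |(a : ℝ)|) * ∏ p : S, T (some p) := mul_le_mul_of_nonneg_right h h3
    _ ≤ (K * T none) * ∏ p : S, T (some p) :=
        mul_le_mul_of_nonneg_right (mul_le_mul_of_nonneg_left ha hK) h3
    _ = _ := by ring

/-- at every place the forms with a given local label lie in a small box -/
theorem local_box (hd : ∀ i : Option (Fin d), ∃ j, i ≠ j) {C : ℝ} (hC : 0 ≤ C) (v : Option S) :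
    ∃ K : ℝ, 1 ≤ K ∧ ∀ (i j : Option (Fin d)) (e e' : ℕ) (N : ℝ), 0 ≤ N →
      ∃ (i' j' : Option (Fin d)) (A B : ℝ), i' ≠ j' ∧ 0 ≤ A ∧ 0 ≤ B ∧
        A * B ≤ K * Nv N v ^ 2 * ((1 / 2) ^ e * (1 / 2) ^ e') ∧
        ∀ (f : Fin 3 → ℤ) (y z : Qb), FR f y z → (∀ k, |(f k : ℝ)| ≤ N) →
          vdel (va hS v) α i y ≤ C * (1 / 2) ^ e → vdel (va hS v) α j z ≤ C * (1 / 2) ^ e' →
          va hS v (vval (cf f) (vpt α i')) ≤ A ∧ va hS v (vval (cf f) (vpt α j')) ≤ B := by
  set w := va hS v with hw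
  have hR := one_le_vrb w α
  set R := vrb w α with hRdef
  refine ⟨1 + 256 * C ^ 2 * R ^ 2 + 24 * C ^ 2 * R ^ 2, ?_, ?_⟩
  · have : 0 ≤ 256 * C ^ 2 * R ^ 2 := by positivity
    have : 0 ≤ 24 * C ^ 2 * R ^ 2 := by positivity
    linarith
  intro i j e e' N hN
  have hNv := Nv_nonneg (S := S) hN v
  set n := Nv N v with hn
  set a : ℝ := (1 / 2) ^ e with ha
  set b : ℝ := (1 / 2) ^ e' with hb
  have ha0 : 0 < a := by positivity
  have hb0 : 0 < b := by positivity
  have main : ∀ (f : Fin 3 → ℤ) (y z : Qb), FR f y z → (∀ k, |(f k : ℝ)| ≤ N) → ∀ k : Option (Fin d),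
      w (vval (cf f) (vpt α k)) ≤ 8 * n * (vdel w α k y * vdel w α k z) := by
    intro f y z hf hfN k
    rw [cf_eq hf, vval_eq]
    apply mul_le_mul_of_nonneg_right _ (mul_nonneg (vdel_nonneg _ _ _ _) (vdel_nonneg _ _ _ _))
    exact gauss_upper_av w _ _ _ y z hf.hb hf.hc _ (int_le_Nv hS (hfN 0) v) (int_le_Nv hS (hfN 1) v)
        (int_le_Nv hS (hfN 2) v)
  by_cases hij : i = j
  · obtain ⟨j', hj'⟩ := hd i
    refine ⟨i, j', 8 * n * ((C * a) * (C * b)), 3 * R ^ 2 * n, hj', by positivity, by positivity, ?_, ?_⟩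
    · have e1 : 8 * n * ((C * a) * (C * b)) * (3 * R ^ 2 * n) = (24 * C ^ 2 * R ^ 2) * (n ^ 2 * (a * b)) := by ring
      rw [e1]
      have e2 : (1 + 256 * C ^ 2 * R ^ 2 + 24 * C ^ 2 * R ^ 2) * n ^ 2 * (a * b)
          = (1 + 256 * C ^ 2 * R ^ 2 + 24 * C ^ 2 * R ^ 2) * (n ^ 2 * (a * b)) := by ring
      rw [e2]
      apply mul_le_mul_of_nonneg_right _ (by positivity)
      have : 0 ≤ 256 * C ^ 2 * R ^ 2 := by positivity
      linarith
    · intro f y z hf hfN h1 h2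
      refine ⟨(main f y z hf hfN i).trans ?_, ?_⟩
      · apply mul_le_mul_of_nonneg_left _ (by positivity)
        rw [← hij] at h2
        exact mul_le_mul h1 h2 (vdel_nonneg _ _ _ _) (by positivity)
      · exact vval_le w α j' (cf f) (fun k => int_le_Nv hS (hfN k) v)
  · refine ⟨i, j, 8 * n * ((C * a) * (2 * R)), 8 * n * ((2 * R) * (C * b)), hij, by positivity, by positivity, ?_, ?_⟩
    · have e1 : 8 * n * ((C * a) * (2 * R)) * (8 * n * ((2 * R) * (C * b)))
          = (256 * C ^ 2 * R ^ 2) * (n ^ 2 * (a * b)) := by ring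
      rw [e1]
      have e2 : (1 + 256 * C ^ 2 * R ^ 2 + 24 * C ^ 2 * R ^ 2) * n ^ 2 * (a * b)
          = (1 + 256 * C ^ 2 * R ^ 2 + 24 * C ^ 2 * R ^ 2) * (n ^ 2 * (a * b)) := by ring
      rw [e2]
      apply mul_le_mul_of_nonneg_right _ (by positivity)
      have : 0 ≤ 24 * C ^ 2 * R ^ 2 := by positivity
      linarith
    · intro f y z hf hfN h1 h2
      refine ⟨(main f y z hf hfN i).trans ?_, (main f y z hf hfN j).trans ?_⟩
      · apply mul_le_mul_of_nonneg_left _ (by positivity)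
        exact mul_le_mul h1 (vdel_le w α i z) (vdel_nonneg _ _ _ _) (by positivity)
      · apply mul_le_mul_of_nonneg_left _ (by positivity)
        exact mul_le_mul (vdel_le w α j y) h2 (vdel_nonneg _ _ _ _) (by positivity)

/-- ultrametric boxes contain the group generated by their points -/
theorem box_closure (p : S) (P : Set (Fin 3 → ℤ)) (Q : Qb × Qb) {A : ℝ} (hA : 0 ≤ A)
    (h : ∀ f ∈ P, va hS (some p) (vval (cf f) Q) ≤ A) :
    ∀ f ∈ AddSubgroup.closure P, va hS (some p) (vval (cf f) Q) ≤ A := by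
  intro f hf
  induction hf using AddSubgroup.closure_induction with
  | mem f hf => exact h f hf
  | zero => rw [vval_zero, map_zero]; exact hA
  | add f g _ _ hf hg =>
    rw [vval_add]
    exact (vp_nonarch p.1 (hS p.1 p.2) _ _).trans (max_le hf hg)
  | neg f _ hf => rw [vval_neg, map_neg_eq_map]; exact hf

theorem wt_le_one (ℓ : Lb S d) (v : Option S) : (1 / 2 : ℝ) ^ (ℓ v).2.1 * (1 / 2) ^ (ℓ v).2.2 ≤ 1 := by
  have h1 : (1 / 2 : ℝ) ^ (ℓ v).2.1 ≤ 1 := pow_le_one₀ (by norm_num) (by norm_num)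
  have h2 : (1 / 2 : ℝ) ^ (ℓ v).2.2 ≤ 1 := pow_le_one₀ (by norm_num) (by norm_num)
  have h3 : (0 : ℝ) ≤ (1 / 2 : ℝ) ^ (ℓ v).2.2 := by positivity
  calc _ ≤ 1 * (1 : ℝ) := mul_le_mul h1 h2 h3 zero_le_one
    _ = 1 := one_mul 1

/-- the number of forms with a given label -/
theorem bigD (hα : Function.Injective α) (hd : ∀ i : Option (Fin d), ∃ j, i ≠ j) {C : ℝ} (hC : 0 ≤ C) :
    ∃ K : ℝ, 1 ≤ K ∧ ∀ (ℓ : Lb S d) (N : ℝ), 1 ≤ N → ∀ P : Finset (Fin 3 → ℤ),
      (∀ f ∈ P, (∀ k, |(f k : ℝ)| ≤ N) ∧ ∃ y z, FR f y z ∧ HasLab hS α C ℓ y z) →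
      (P.card : ℝ) ≤ 1 + K * (N ^ 2 * Real.sqrt (wt ℓ)) + K * (N ^ 3 * wt ℓ) := by
  classical
  choose K hK1 hK using fun v => local_box hS α hd hC v
  choose B hB1 hB using fun v => box_bounds_av (va hS v) α hα
  set K3 : ℝ := 125 * ∏ v, (B v * K v) with hK3
  set K2 : ℝ := 25 * Real.sqrt (∏ v, (B v * (K v + K v ^ 2))) with hK2
  have hKpos : ∀ v, 0 < K v := fun v => lt_of_lt_of_le one_pos (hK1 v)
  have hBpos : ∀ v, 0 < B v := fun v => lt_of_lt_of_le one_pos (hB1 v)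
  have hK30 : 0 ≤ K3 := by
    have : 0 ≤ ∏ v, (B v * K v) := Finset.prod_nonneg fun v _ => (mul_pos (hBpos v) (hKpos v)).le
    positivity
  have hK20 : 0 ≤ K2 := by positivity
  refine ⟨1 + K2 + K3, by linarith, ?_⟩
  intro ℓ N hN P hP
  have hN0 : 0 ≤ N := by linarith
  have hwt := wt_pos ℓ
  have hprim : ∀ f ∈ P, Prim f := by
    intro f hf
    obtain ⟨-, y, z, hfr, -⟩ := hP f hf
    exact hfr.prim
  have hresne : ∀ f ∈ P, ∀ g ∈ P, f ≠ g → res f g ≠ 0 := by
    intro f hf g hg hne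
    obtain ⟨-, y, z, hfr, -⟩ := hP f hf
    obtain ⟨-, y', z', hgr, -⟩ := hP g hg
    exact hfr.res_ne hgr hne
  -- the boxes
  choose i' j' A A' hij hA0 hA0' hAA hbox using fun v => hK v (ℓ v).1.1 (ℓ v).1.2 (ℓ v).2.1 (ℓ v).2.2 N hN0
  have hin : ∀ f ∈ P, ∀ v, va hS v (vval (cf f) (vpt α (i' v))) ≤ A v ∧ va hS v (vval (cf f) (vpt α (j' v))) ≤ A' v := by
    intro f hf v
    obtain ⟨hfN, y, z, hfr, hl⟩ := hP f hf
    exact hbox v f y z hfr hfN (hl v).1 (hl v).2
  have hinp : ∀ f ∈ AddSubgroup.closure (P : Set (Fin 3 → ℤ)), ∀ p : S,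
      va hS (some p) (vval (cf f) (vpt α (i' (some p)))) ≤ A (some p) ∧
      va hS (some p) (vval (cf f) (vpt α (j' (some p)))) ≤ A' (some p) := by
    intro f hf p
    exact ⟨box_closure hS p _ _ (hA0 _) (fun g hg => (hin g hg (some p)).1) f hf,
      box_closure hS p _ _ (hA0' _) (fun g hg => (hin g hg (some p)).2) f hf⟩
  have hNv0 : ∀ v : Option S, 0 ≤ Nv N v := fun v => Nv_nonneg hN0 v
  have hsmall : ∀ v, 0 ≤ (1 / 2 : ℝ) ^ (ℓ v).2.1 * (1 / 2) ^ (ℓ v).2.2 := fun v => by positivity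
  by_cases h3 : ∃ f ∈ P, ∃ g ∈ P, ∃ h ∈ P, det3 f g h ≠ 0
  · -- the points span the space
    obtain ⟨v1, m1, v2, m2, v3, m3, h2, hh2, h3', hh3, hne, hcard⟩ := rank3 P hprim h3
    have key := prod_trick hS (fun v => B v * (Nv N v * A v * A' v))
      (fun v => mul_nonneg (hBpos v).le (mul_nonneg (mul_nonneg (hNv0 v) (hA0 v)) (hA0' v))) hne
      (Nat.cast_nonneg P.card) (by norm_num : (0 : ℝ) ≤ 125) hcard
      (by
        rw [← det3_cf]
        exact ((hB none _ _ (hij none) _ _ _).1 (cf v1) (cf v2) (cf v3)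
          (fun k => int_le_Nv hS ((hP v1 m1).1 k) none) (fun k => int_le_Nv hS ((hP v2 m2).1 k) none)
          (fun k => int_le_Nv hS ((hP v3 m3).1 k) none) (hin v1 m1 none).1 (hin v2 m2 none).1 (hin v3 m3 none).1
          (hin v1 m1 none).2 (hin v2 m2 none).2 (hin v3 m3 none).2))
      (by
        intro p
        rw [← det3_cf]
        have m1' := AddSubgroup.subset_closure (k := (P : Set (Fin 3 → ℤ))) m1
        exact ((hB (some p) _ _ (hij (some p)) _ _ _).1 (cf v1) (cf h2) (cf h3')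
          (fun k => va_some_int_le hS p _) (fun k => va_some_int_le hS p _)
          (fun k => va_some_int_le hS p _) (hinp v1 m1' p).1 (hinp h2 hh2 p).1 (hinp h3' hh3 p).1
          (hinp v1 m1' p).2 (hinp h2 hh2 p).2 (hinp h3' hh3 p).2))
    have hle : ∏ v, B v * (Nv N v * A v * A' v) ≤ (∏ v, (B v * K v)) * (N ^ 3 * wt ℓ) := by
      have e : (∏ v, (B v * K v)) * (N ^ 3 * wt ℓ)
          = ∏ v, ((B v * K v) * (Nv N v ^ 3 * ((1 / 2 : ℝ) ^ (ℓ v).2.1 * (1 / 2) ^ (ℓ v).2.2))) := by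
        rw [Finset.prod_mul_distrib (f := fun v => B v * K v), Finset.prod_mul_distrib (f := fun v => Nv N v ^ 3),
          Finset.prod_pow, prod_Nv]
        rfl
      rw [e]
      apply Finset.prod_le_prod
      · intro v _
        exact mul_nonneg (hBpos v).le (mul_nonneg (mul_nonneg (hNv0 v) (hA0 v)) (hA0' v))
      · intro v _
        have h5 := mul_le_mul_of_nonneg_left (hAA v) (mul_nonneg (hBpos v).le (hNv0 v))
        calc B v * (Nv N v * A v * A' v) = B v * Nv N v * (A v * A' v) := by ring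
          _ ≤ B v * Nv N v * (K v * Nv N v ^ 2 * ((1 / 2 : ℝ) ^ (ℓ v).2.1 * (1 / 2) ^ (ℓ v).2.2)) := h5
          _ = _ := by ring
    have hN2 : 0 ≤ N ^ 2 * Real.sqrt (wt ℓ) := by positivity
    have hN3 : 0 ≤ N ^ 3 * wt ℓ := by positivity
    calc (P.card : ℝ) ≤ 125 * ∏ v, B v * (Nv N v * A v * A' v) := key
      _ ≤ 125 * ((∏ v, (B v * K v)) * (N ^ 3 * wt ℓ)) := mul_le_mul_of_nonneg_left hle (by norm_num)
      _ = K3 * (N ^ 3 * wt ℓ) := by rw [hK3]; ring
      _ ≤ (1 + K2 + K3) * (N ^ 3 * wt ℓ) := mul_le_mul_of_nonneg_right (by linarith) hN3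
      _ ≤ _ := by
        have : 0 ≤ (1 + K2 + K3) * (N ^ 2 * Real.sqrt (wt ℓ)) := by positivity
        linarith
  · push Not at h3
    by_cases h2 : ∃ f ∈ P, ∃ g ∈ P, res f g ≠ 0
    · -- the points span a plane
      obtain ⟨v1, m1, v2, m2, h, hh, hne, hcard⟩ := rank2 P hprim h3 h2 hresne
      have hT0 : ∀ v, 0 ≤ B v * (Nv N v ^ 2 * A v * A' v + (A v * A' v) ^ 2) := fun v =>
        mul_nonneg (hBpos v).le (add_nonneg (mul_nonneg (mul_nonneg (sq_nonneg _) (hA0 v)) (hA0' v)) (sq_nonneg _))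
      have key := prod_trick hS (fun v => B v * (Nv N v ^ 2 * A v * A' v + (A v * A' v) ^ 2)) hT0 hne
        (sq_nonneg (P.card : ℝ)) (by norm_num : (0 : ℝ) ≤ 625) hcard
        (by
          rw [← res_cf]
          exact ((hB none _ _ (hij none) _ _ _).2 (cf v1) (cf v2)
            (fun k => int_le_Nv hS ((hP v1 m1).1 k) none) (fun k => int_le_Nv hS ((hP v2 m2).1 k) none)
            (hin v1 m1 none).1 (hin v2 m2 none).1 (hin v1 m1 none).2 (hin v2 m2 none).2))
        (by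
          intro p
          rw [← res_cf]
          have m1' := AddSubgroup.subset_closure (k := (P : Set (Fin 3 → ℤ))) m1
          exact ((hB (some p) _ _ (hij (some p)) _ _ _).2 (cf v1) (cf h)
            (fun k => va_some_int_le hS p _) (fun k => va_some_int_le hS p _)
            (hinp v1 m1' p).1 (hinp h hh p).1 (hinp v1 m1' p).2 (hinp h hh p).2))
      have hle : ∏ v, B v * (Nv N v ^ 2 * A v * A' v + (A v * A' v) ^ 2)
          ≤ (∏ v, (B v * (K v + K v ^ 2))) * (N ^ 4 * wt ℓ) := by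
        have e : (∏ v, (B v * (K v + K v ^ 2))) * (N ^ 4 * wt ℓ)
            = ∏ v, ((B v * (K v + K v ^ 2)) * (Nv N v ^ 4 * ((1 / 2 : ℝ) ^ (ℓ v).2.1 * (1 / 2) ^ (ℓ v).2.2))) := by
          rw [Finset.prod_mul_distrib (f := fun v => B v * (K v + K v ^ 2)),
            Finset.prod_mul_distrib (f := fun v => Nv N v ^ 4), Finset.prod_pow, prod_Nv]
          rfl
        rw [e]
        apply Finset.prod_le_prod
        · intro v _
          exact hT0 v
        · intro v _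
          have hw1 := wt_le_one ℓ v
          have hw0 := hsmall v
          have hAA' := hAA v
          have hAA0 := mul_nonneg (hA0 v) (hA0' v)
          set w := (1 / 2 : ℝ) ^ (ℓ v).2.1 * (1 / 2) ^ (ℓ v).2.2 with hw
          have hKv := (hKpos v).le
          have s1 : Nv N v ^ 2 * A v * A' v ≤ K v * (Nv N v ^ 4 * w) := by
            calc Nv N v ^ 2 * A v * A' v = Nv N v ^ 2 * (A v * A' v) := by ring
              _ ≤ Nv N v ^ 2 * (K v * Nv N v ^ 2 * w) := mul_le_mul_of_nonneg_left hAA' (sq_nonneg _)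
              _ = _ := by ring
          have s2 : (A v * A' v) ^ 2 ≤ K v ^ 2 * (Nv N v ^ 4 * w) := by
            calc (A v * A' v) ^ 2 ≤ (K v * Nv N v ^ 2 * w) ^ 2 := pow_le_pow_left₀ hAA0 hAA' 2
              _ = K v ^ 2 * (Nv N v ^ 4 * (w * w)) := by ring
              _ ≤ K v ^ 2 * (Nv N v ^ 4 * w) := by
                apply mul_le_mul_of_nonneg_left _ (sq_nonneg _)
                apply mul_le_mul_of_nonneg_left _ (pow_nonneg (hNv0 v) 4)
                calc w * w ≤ 1 * w := mul_le_mul_of_nonneg_right hw1 hw0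
                  _ = w := one_mul w
          calc B v * (Nv N v ^ 2 * A v * A' v + (A v * A' v) ^ 2)
              ≤ B v * (K v * (Nv N v ^ 4 * w) + K v ^ 2 * (Nv N v ^ 4 * w)) :=
                mul_le_mul_of_nonneg_left (add_le_add s1 s2) (hBpos v).le
            _ = _ := by ring
      have hprod0 : 0 ≤ ∏ v, (B v * (K v + K v ^ 2)) :=
        Finset.prod_nonneg fun v _ => mul_nonneg (hBpos v).le (add_nonneg (hKpos v).le (sq_nonneg _))
      have hsq : (P.card : ℝ) ^ 2 ≤ (K2 * (N ^ 2 * Real.sqrt (wt ℓ))) ^ 2 := by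
        calc (P.card : ℝ) ^ 2 ≤ 625 * ∏ v, B v * (Nv N v ^ 2 * A v * A' v + (A v * A' v) ^ 2) := key
          _ ≤ 625 * ((∏ v, (B v * (K v + K v ^ 2))) * (N ^ 4 * wt ℓ)) := mul_le_mul_of_nonneg_left hle (by norm_num)
          _ = _ := by
            rw [hK2, mul_pow, mul_pow, mul_pow, Real.sq_sqrt hprod0, Real.sq_sqrt hwt.le]; ring
      have hlin : (P.card : ℝ) ≤ K2 * (N ^ 2 * Real.sqrt (wt ℓ)) :=
        le_of_sq_le_sq hsq (by positivity)
      have hN2 : 0 ≤ N ^ 2 * Real.sqrt (wt ℓ) := by positivity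
      calc (P.card : ℝ) ≤ K2 * (N ^ 2 * Real.sqrt (wt ℓ)) := hlin
        _ ≤ (1 + K2 + K3) * (N ^ 2 * Real.sqrt (wt ℓ)) := mul_le_mul_of_nonneg_right (by linarith) hN2
        _ ≤ _ := by
          have : 0 ≤ (1 + K2 + K3) * (N ^ 3 * wt ℓ) := by positivity
          linarith
    · push Not at h2
      have hc1 : P.card ≤ 1 := by
        rw [Finset.card_le_one]
        intro f hf g hg
        by_contra hne
        exact hresne f hf g hg hne (h2 f hf g hg)
      have hc2 : (P.card : ℝ) ≤ 1 := by exact_mod_cast hc1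
      have h5 : 0 ≤ (1 + K2 + K3) * (N ^ 2 * Real.sqrt (wt ℓ)) := by positivity
      have h6 : 0 ≤ (1 + K2 + K3) * (N ^ 3 * wt ℓ) := by positivity
      linarith

end Pool.Agent.Helper77.Voj
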