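import Mathlib
import Pool.Agent.Helper77.Voj.Box

/-!
Existence of labels.
-/

namespace Pool.Agent.Helper77.Voj

open Finset

theorem exists_exponents {ι : Type*} [Fintype ι] (u : ι → ℝ) (h0 : ∀ k, 0 ≤ u k) (h1 : ∀ k, u k ≤ 1) {B : ℝ}
    (hB : 0 < B) (hu : ∏ k, u k ≤ B) (J : ℕ) (hJ : (1 / 2 : ℝ) ^ J ≤ B) :
    ∃ e : ι → ℕ, (∀ k, e k ≤ J) ∧ (∀ k, u k ≤ (1 / 2) ^ (e k)) ∧
      ∏ k, (1 / 2 : ℝ) ^ (e k) ≤ 2 ^ (Fintype.card ι) * B := by
  classical
  have h2 : (1 : ℝ) ≤ 2 ^ (Fintype.card ι) := one_le_pow₀ (by norm_num)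
  by_cases hex : ∃ k0, u k0 ≤ (1 / 2) ^ J
  · obtain ⟨k0, hk0⟩ := hex
    refine ⟨fun k => if k = k0 then J else 0, ?_, ?_, ?_⟩
    · intro k; dsimp only; split_ifs
      · exact le_rfl
      · exact Nat.zero_le _
    · intro k; dsimp only; split_ifs with h
      · rw [h]; exact hk0
      · rw [pow_zero]; exact h1 k
    · have e : ∏ k, (1 / 2 : ℝ) ^ (if k = k0 then J else 0) = (1 / 2) ^ J := by
        rw [Finset.prod_eq_single k0]
        · rw [if_pos rfl]
        · intro k _ hk; rw [if_neg hk, pow_zero]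
        · intro h; exact absurd (mem_univ _) h
      rw [e]
      nlinarith
  · push Not at hex
    have hpos : ∀ k, 0 < u k := fun k => lt_of_le_of_lt (by positivity) (hex k)
    choose e he1 he2 using fun k => exists_nat_pow_near_of_lt_one (hpos k) (h1 k)
      (by norm_num : (0 : ℝ) < 1 / 2) (by norm_num : (1 / 2 : ℝ) < 1)
    refine ⟨e, ?_, he2, ?_⟩
    · intro k
      by_contra hlt
      push Not at hlt
      have h3 : (1 / 2 : ℝ) ^ (e k) ≤ (1 / 2) ^ J :=
        pow_le_pow_of_le_one (by norm_num) (by norm_num) hlt.le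
      exact absurd ((he2 k).trans h3) (not_le.mpr (hex k))
    · calc ∏ k, (1 / 2 : ℝ) ^ (e k) ≤ ∏ k, (2 * u k) := by
            apply Finset.prod_le_prod
            · intro k _; positivity
            · intro k _
              have := he1 k
              rw [pow_succ] at this
              linarith
        _ = 2 ^ (Fintype.card ι) * ∏ k, u k := by
            rw [Finset.prod_mul_distrib, Finset.prod_const, Finset.card_univ]
        _ ≤ _ := mul_le_mul_of_nonneg_left hu (by positivity)

variable {S : Finset ℕ} (hS : ∀ p ∈ S, p.Prime) {d : ℕ} (α : Fin d → Qb)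

/-- labels with bounded exponents -/
abbrev LbF (S : Finset ℕ) (d J : ℕ) : Type :=
  Option S → (Option (Fin d) × Option (Fin d)) × (Fin (J + 1) × Fin (J + 1))

/-- forget the bound -/
def toLb {J : ℕ} (ℓ : LbF S d J) : Lb S d := fun v => ((ℓ v).1, ((ℓ v).2.1.1, (ℓ v).2.2.1))

theorem card_LbF (J : ℕ) : Fintype.card (LbF S d J)
    = (((d + 1) * (d + 1)) * ((J + 1) * (J + 1))) ^ (S.card + 1) := by
  rw [Fintype.card_fun, Fintype.card_prod, Fintype.card_prod, Fintype.card_prod, Fintype.card_option,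
    Fintype.card_option, Fintype.card_fin, Fintype.card_fin, Fintype.card_coe]

theorem card_opt : Fintype.card (Option S) = S.card + 1 := by
  rw [Fintype.card_option, Fintype.card_coe]

theorem exists_label {C : ℝ} (hC : ∀ v, 2 * vrb (va hS v) α ≤ C) (y z : Qb) (i j : Option S → Option (Fin d))
    {B : ℝ} (hB : 0 < B) (h : ∏ v, (vdel (va hS v) α (i v) y * vdel (va hS v) α (j v) z) ≤ B)
    (J : ℕ) (hJ : (1 / 2 : ℝ) ^ J ≤ B) :
    ∃ ℓ : LbF S d J, HasLab hS α C (toLb ℓ) y z ∧ wt (toLb ℓ) ≤ 4 ^ (S.card + 1) * B := by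
  classical
  have hC1 : 1 ≤ C := by
    have h1 := hC none
    have h2 := one_le_vrb (va hS none) α
    linarith
  have hC0 : 0 < C := by linarith
  let u : Option S × Bool → ℝ := fun k => if k.2 then vdel (va hS k.1) α (i k.1) y / C
    else vdel (va hS k.1) α (j k.1) z / C
  have hu : ∏ k, u k = (∏ v, (vdel (va hS v) α (i v) y * vdel (va hS v) α (j v) z)) / (C * C) ^ (S.card + 1) := by
    rw [Fintype.prod_prod_type]
    simp only [Fintype.prod_bool, u, if_true, Bool.false_eq_true, if_false]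
    rw [← card_opt (S := S), ← Finset.card_univ, ← Finset.prod_const, ← Finset.prod_div_distrib]
    refine Finset.prod_congr rfl fun v _ => ?_
    rw [div_mul_div_comm]
  have hprod0 : 0 ≤ ∏ v, (vdel (va hS v) α (i v) y * vdel (va hS v) α (j v) z) :=
    Finset.prod_nonneg fun v _ => mul_nonneg (vdel_nonneg _ _ _ _) (vdel_nonneg _ _ _ _)
  have hCC : 1 ≤ (C * C) ^ (S.card + 1) := one_le_pow₀ (by nlinarith)
  obtain ⟨e, he1, he2, he3⟩ := exists_exponents u (by
      intro k
      simp only [u]
      split_ifs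
      · exact div_nonneg (vdel_nonneg _ _ _ _) hC0.le
      · exact div_nonneg (vdel_nonneg _ _ _ _) hC0.le)
    (by
      intro k
      simp only [u]
      split_ifs
      · exact (div_le_one hC0).mpr ((vdel_le _ _ _ _).trans (hC _))
      · exact (div_le_one hC0).mpr ((vdel_le _ _ _ _).trans (hC _))) hB
    (by rw [hu]; exact (div_le_self hprod0 hCC).trans h) J hJ
  refine ⟨fun v => ((i v, j v), (⟨e (v, true), Nat.lt_succ_of_le (he1 _)⟩, ⟨e (v, false), Nat.lt_succ_of_le (he1 _)⟩)),
    ?_, ?_⟩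
  · intro v
    constructor
    · have := he2 (v, true)
      simp only [u, if_true] at this
      rw [div_le_iff₀ hC0, mul_comm] at this
      exact this
    · have := he2 (v, false)
      simp only [u, Bool.false_eq_true, if_false] at this
      rw [div_le_iff₀ hC0, mul_comm] at this
      exact this
  · rw [Fintype.prod_prod_type] at he3
    simp only [Fintype.prod_bool] at he3
    have hcard : Fintype.card (Option S × Bool) = 2 * (S.card + 1) := by
      rw [Fintype.card_prod, card_opt, Fintype.card_bool, mul_comm]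
    have h4 : (2 : ℝ) ^ 2 = 4 := by norm_num
    rw [hcard, pow_mul, h4] at he3
    exact he3

end Pool.Agent.Helper77.Voj
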