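import Mathlib
import Pool.Agent.Helper77.Voj.Label

/-!
Counting violating forms in dyadic ranges.
-/

namespace Pool.Agent.Helper77.Voj

open Finset

theorem poly_exp (c m : ℕ) {ε : ℝ} (hε : 0 < ε) :
    ∃ K : ℝ, 0 < K ∧ ∀ n : ℕ, (((c * ((5 * n + 1) * (5 * n + 1))) ^ m : ℕ) : ℝ) * ((2 : ℝ) ^ n) ^ (-ε / 3) ≤ K := by
  set r : ℝ := (2 : ℝ) ^ (-ε / 3) with hr
  have hr0 : 0 < r := Real.rpow_pos_of_pos (by norm_num) _
  have hr1 : r < 1 := Real.rpow_lt_one_of_one_lt_of_neg (by norm_num) (by linarith)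
  have ht := tendsto_pow_const_mul_const_pow_of_abs_lt_one (2 * m) (r := r) (by rw [abs_of_pos hr0]; exact hr1)
  obtain ⟨M, hM⟩ := ht.bddAbove_range
  have hM0 : 0 ≤ M := by
    have h1 := hM ⟨1, rfl⟩
    refine le_trans ?_ h1
    positivity
  refine ⟨((c : ℝ) * 36) ^ m * (M * r⁻¹) + 1, by positivity, fun n => ?_⟩
  have e1 : ((2 : ℝ) ^ n) ^ (-ε / 3) = r ^ n := by
    rw [hr, ← Real.rpow_natCast, ← Real.rpow_mul (by norm_num), mul_comm, Real.rpow_mul (by norm_num),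
      Real.rpow_natCast]
  rw [e1]
  have h1 : ((n + 1 : ℕ) : ℝ) ^ (2 * m) * r ^ (n + 1) ≤ M := hM ⟨n + 1, rfl⟩
  have h2 : (((c * ((5 * n + 1) * (5 * n + 1))) ^ m : ℕ) : ℝ) ≤ ((c : ℝ) * 36) ^ m * ((n + 1 : ℕ) : ℝ) ^ (2 * m) := by
    rw [pow_mul, ← mul_pow]
    push_cast
    apply pow_le_pow_left₀ (by positivity)
    have hn : (0 : ℝ) ≤ n := Nat.cast_nonneg n
    have hc : (0 : ℝ) ≤ c := Nat.cast_nonneg c
    have : ((5 * (n : ℝ) + 1) * (5 * n + 1)) ≤ 36 * ((n : ℝ) + 1) ^ 2 := by nlinarith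
    nlinarith
  have h3 : ((n + 1 : ℕ) : ℝ) ^ (2 * m) * r ^ n ≤ M * r⁻¹ := by
    rw [← div_eq_mul_inv, le_div_iff₀ hr0, mul_assoc, ← pow_succ]
    exact h1
  calc (((c * ((5 * n + 1) * (5 * n + 1))) ^ m : ℕ) : ℝ) * r ^ n
      ≤ (((c : ℝ) * 36) ^ m * ((n + 1 : ℕ) : ℝ) ^ (2 * m)) * r ^ n := mul_le_mul_of_nonneg_right h2 (by positivity)
    _ = ((c : ℝ) * 36) ^ m * (((n + 1 : ℕ) : ℝ) ^ (2 * m) * r ^ n) := by ring
    _ ≤ ((c : ℝ) * 36) ^ m * (M * r⁻¹) := mul_le_mul_of_nonneg_left h3 (by positivity)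
    _ ≤ _ := by linarith

variable {S : Finset ℕ} (hS : ∀ p ∈ S, p.Prime) {d : ℕ} (α : Fin d → Qb)

/-- violating form of size at most `2 ^ (n + 1)` -/
def Viol (sq : ℤ → Qb) (κ ε : ℝ) (n : ℕ) (f : Fin 3 → ℤ) : Prop :=
  (∀ k, |(f k : ℝ)| ≤ 2 * 2 ^ n) ∧ ∃ (y z : Qb) (D t : ℤ) (i j : Option S → Option (Fin d)),
    FR f y z ∧ D ≠ 0 ∧ t ≠ 0 ∧ sq D ^ 2 = D ∧ (f 0 : Qb) * (y - z) = t * sq D ∧
    ∏ v, (vdel (va hS v) α (i v) y * vdel (va hS v) α (j v) z) ≤ κ * ((2 : ℝ) ^ n) ^ (-(2 + ε)) / |(D : ℝ)|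

theorem disc_bound {f : Fin 3 → ℤ} {y z r : Qb} (hf : FR f y z) {D t : ℤ} (ht : t ≠ 0) (hr : r ^ 2 = D)
    (h : (f 0 : Qb) * (y - z) = t * r) {N : ℝ} (hN : 0 ≤ N) (hfN : ∀ k, |(f k : ℝ)| ≤ N) :
    |(D : ℝ)| ≤ 5 * N ^ 2 := by
  have h1 : ((f 1 ^ 2 - 4 * f 0 * f 2 : ℤ) : Qb) = ((D * t ^ 2 : ℤ) : Qb) := by
    push_cast
    have h2 : ((f 0 : Qb) * (y - z)) ^ 2 = D * t ^ 2 := by rw [h, mul_pow, hr]; ring
    rw [← h2, hf.hb, hf.hc]; ring
  have h2 : f 1 ^ 2 - 4 * f 0 * f 2 = D * t ^ 2 := by exact_mod_cast h1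
  have h3 : |D| ≤ |f 1 ^ 2 - 4 * f 0 * f 2| := by
    rw [h2, abs_mul]
    have h4 : 1 ≤ |t ^ 2| := Int.one_le_abs (pow_ne_zero 2 ht)
    have h5 := abs_nonneg D
    nlinarith
  have h4 : |(D : ℝ)| ≤ |(f 1 : ℝ) ^ 2 - 4 * f 0 * f 2| := by exact_mod_cast h3
  refine h4.trans ?_
  have a0 := hfN 0
  have a1 := hfN 1
  have a2 := hfN 2
  have b1 : |(f 1 : ℝ) ^ 2| ≤ N ^ 2 := by
    rw [abs_pow]; exact pow_le_pow_left₀ (abs_nonneg _) a1 2
  have b2 : |4 * (f 0 : ℝ) * f 2| ≤ 4 * N ^ 2 := by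
    rw [abs_mul, abs_mul, abs_of_pos (by norm_num : (0 : ℝ) < 4)]
    have : |(f 0 : ℝ)| * |(f 2 : ℝ)| ≤ N * N := mul_le_mul a0 a2 (abs_nonneg _) hN
    nlinarith
  calc _ ≤ |(f 1 : ℝ) ^ 2| + |4 * (f 0 : ℝ) * f 2| := abs_sub _ _
    _ ≤ N ^ 2 + 4 * N ^ 2 := add_le_add b1 b2
    _ = 5 * N ^ 2 := by ring

/-- trivial bound -/
theorem box_card (n : ℕ) (P : Finset (Fin 3 → ℤ)) (hP : ∀ f ∈ P, ∀ k, |(f k : ℝ)| ≤ 2 * 2 ^ n) :
    P.card ≤ (4 * 2 ^ n + 1) ^ 3 := by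
  classical
  have hsub : P ⊆ Fintype.piFinset (fun _ : Fin 3 => Finset.Icc (-(2 * 2 ^ n : ℤ)) (2 * 2 ^ n)) := by
    intro f hf
    rw [Fintype.mem_piFinset]
    intro k
    rw [Finset.mem_Icc, ← abs_le]
    exact_mod_cast hP f hf k
  refine (Finset.card_le_card hsub).trans ?_
  rw [Fintype.card_piFinset_const, Int.card_Icc]
  apply Nat.pow_le_pow_left
  apply le_of_eq
  have : (2 * 2 ^ n + 1 - -(2 * 2 ^ n) : ℤ) = ((4 * 2 ^ n + 1 : ℕ) : ℤ) := by push_cast; ring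
  rw [this, Int.toNat_natCast]

theorem dyadic (hα : Function.Injective α) (hd : ∀ i : Option (Fin d), ∃ j, i ≠ j) (sq : ℤ → Qb)
    {κ ε : ℝ} (hκ : 20 ≤ κ) (hε : 0 < ε) (hε1 : ε ≤ 1) :
    ∃ K : ℝ, 0 < K ∧ ∀ (n : ℕ) (P : Finset (Fin 3 → ℤ)), (∀ f ∈ P, Viol hS α sq κ ε n f) →
      (P.card : ℝ) ≤ K * ((2 : ℝ) ^ n) ^ (2 / 3 : ℝ) := by
  classical
  set C : ℝ := ∑ v, 2 * vrb (va hS v) α with hCdef
  have hCpos : ∀ v, 0 ≤ 2 * vrb (va hS v) α := fun v => by have := one_le_vrb (va hS v) α; linarith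
  have hCv : ∀ v, 2 * vrb (va hS v) α ≤ C := fun v =>
    Finset.single_le_sum (f := fun v => 2 * vrb (va hS v) α) (fun w _ => hCpos w) (mem_univ v)
  have hC0 : 0 ≤ C := Finset.sum_nonneg fun v _ => hCpos v
  obtain ⟨K1, hK1, hbig⟩ := bigD hS α hα hd hC0
  have hK10 : 0 < K1 := by linarith
  set m := S.card + 1 with hm
  set Q : ℝ := (512 * C ^ 2) ^ (Fintype.card (Option S)) with hQ
  have hQ0 : 0 ≤ Q := by positivity
  have hκ0 : 0 < κ := by linarith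
  set R : ℝ := Q * 4 * (4 ^ m * κ) with hR
  have hR0 : 0 ≤ R := by positivity
  obtain ⟨n0, hn0⟩ : ∃ n0 : ℕ, ∀ n ≥ n0, R * ((2 : ℝ) ^ n) ^ (-ε) < 1 := by
    set r : ℝ := (2 : ℝ) ^ (-ε) with hr
    have hr0 : 0 < r := Real.rpow_pos_of_pos (by norm_num) _
    have hr1 : r < 1 := Real.rpow_lt_one_of_one_lt_of_neg (by norm_num) (by linarith)
    have ht := (tendsto_pow_atTop_nhds_zero_of_lt_one hr0.le hr1).const_mul R
    rw [mul_zero] at ht
    obtain ⟨n0, hn0⟩ := (ht.eventually (gt_mem_nhds one_pos)).exists_forall_of_atTop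
    refine ⟨n0, fun n hn => ?_⟩
    have e1 : ((2 : ℝ) ^ n) ^ (-ε) = r ^ n := by
      rw [hr, ← Real.rpow_natCast, ← Real.rpow_mul (by norm_num), mul_comm, Real.rpow_mul (by norm_num),
        Real.rpow_natCast]
    rw [e1]
    exact hn0 n hn
  obtain ⟨K3, hK3, hpoly⟩ := poly_exp ((d + 1) * (d + 1)) m hε
  set W0 : ℝ := 4 ^ m * κ with hW0
  have hW00 : 0 < W0 := by positivity
  set K2 : ℝ := 1 + K1 * (4 * Real.sqrt W0) + K1 * (8 * W0) with hK2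
  have hK20 : 0 < K2 := by positivity
  refine ⟨((4 * 2 ^ n0 + 1) ^ 3 : ℝ) + (3 + K2) * K3, by positivity, ?_⟩
  intro n P hP
  set X : ℝ := (2 : ℝ) ^ n with hX
  have hX1 : 1 ≤ X := one_le_pow₀ (by norm_num)
  have hX0 : 0 < X := by linarith
  have hXe : 1 ≤ X ^ (2 / 3 : ℝ) := Real.one_le_rpow hX1 (by norm_num)
  have hXm : ∀ a b : ℝ, X ^ a * X ^ b = X ^ (a + b) := fun a b => (Real.rpow_add hX0 a b).symm
  rcases lt_or_ge n n0 with hn | hn
  · have h1 := box_card n P (fun f hf => (hP f hf).1)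
    have h2 : (4 * 2 ^ n + 1) ^ 3 ≤ (4 * 2 ^ n0 + 1) ^ 3 := by
      apply Nat.pow_le_pow_left
      have : 2 ^ n ≤ 2 ^ n0 := Nat.pow_le_pow_right (by norm_num) hn.le
      omega
    have h3 : (P.card : ℝ) ≤ (4 * 2 ^ n0 + 1) ^ 3 := by exact_mod_cast h1.trans h2
    have h4 : (0 : ℝ) ≤ (3 + K2) * K3 := by positivity
    calc (P.card : ℝ) ≤ ((4 * 2 ^ n0 + 1) ^ 3 : ℝ) + (3 + K2) * K3 := by linarith
      _ ≤ _ := le_mul_of_one_le_right (by positivity) hXe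
  -- main case
  set Y : ℝ := X ^ ((2 - ε) / 3) with hY
  have hY1 : 1 ≤ Y := Real.one_le_rpow hX1 (by linarith)
  have hY0 : 0 < Y := by linarith
  have hL : ∀ f ∈ P, ∃ (D : ℤ) (L : LbF S d (5 * n)), D ≠ 0 ∧
      wt (toLb L) ≤ 4 ^ m * (κ * X ^ (-(2 + ε)) / |(D : ℝ)|) ∧
      ∃ (y z : Qb) (t : ℤ), FR f y z ∧ sq D ^ 2 = D ∧ (f 0 : Qb) * (y - z) = t * sq D ∧
        HasLab hS α C (toLb L) y z := by
    intro f hf
    obtain ⟨hfN, y, z, D, t, i, j, hfr, hD, ht, hsq, hdiff, hprod⟩ := hP f hf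
    have hDpos : 0 < |(D : ℝ)| := abs_pos.mpr (by exact_mod_cast hD)
    have hXp : 0 < X ^ (-(2 + ε)) := Real.rpow_pos_of_pos hX0 _
    have hB : 0 < κ * X ^ (-(2 + ε)) / |(D : ℝ)| := by positivity
    have hJ : (1 / 2 : ℝ) ^ (5 * n) ≤ κ * X ^ (-(2 + ε)) / |(D : ℝ)| := by
      have hdb := disc_bound hfr ht hsq hdiff (N := 2 * X) (by positivity) hfN
      rw [le_div_iff₀ hDpos]
      have e1 : (1 / 2 : ℝ) ^ (5 * n) = X ^ (-5 : ℝ) := by
        rw [hX, Real.rpow_neg (by positivity), one_div, inv_pow]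
        congr 1
        rw [show (5 : ℝ) = ((5 : ℕ) : ℝ) by norm_num, Real.rpow_natCast, ← pow_mul, mul_comm]
      rw [e1]
      have hX5 : 0 < X ^ (-5 : ℝ) := Real.rpow_pos_of_pos hX0 _
      have e2 : X ^ (-5 : ℝ) * X ^ 2 = X ^ (-3 : ℝ) := by
        rw [← Real.rpow_natCast X 2, hXm]; norm_num
      have h5 : X ^ (-3 : ℝ) ≤ X ^ (-(2 + ε)) := Real.rpow_le_rpow_of_exponent_le hX1 (by linarith)
      calc X ^ (-5 : ℝ) * |(D : ℝ)| ≤ X ^ (-5 : ℝ) * (5 * (2 * X) ^ 2) := mul_le_mul_of_nonneg_left hdb hX5.le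
        _ = 20 * (X ^ (-5 : ℝ) * X ^ 2) := by ring
        _ = 20 * X ^ (-3 : ℝ) := by rw [e2]
        _ ≤ κ * X ^ (-(2 + ε)) := mul_le_mul hκ h5 (Real.rpow_nonneg hX0.le _) hκ0.le
    obtain ⟨L, hL1, hL2⟩ := exists_label hS α hCv y z i j hB hprod (5 * n) hJ
    exact ⟨D, L, hD, hL2, y, z, t, hfr, hsq, hdiff, hL1⟩
  choose! Dd Lf hD hw hrest using hL
  have hDpos : ∀ f ∈ P, 1 ≤ |(Dd f : ℝ)| := by
    intro f hf
    have := Int.one_le_abs (hD f hf)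
    exact_mod_cast this
  have hXp : 0 < X ^ (-(2 + ε)) := Real.rpow_pos_of_pos hX0 _
  set NL : ℕ := Fintype.card (LbF S d (5 * n)) with hNL
  have hNLc : (NL : ℝ) * X ^ (-ε / 3) ≤ K3 := by
    have := hpoly n
    rw [hNL, card_LbF]
    exact this
  -- small discriminants
  have hP1 : ((P.filter fun f => |(Dd f : ℝ)| ≤ Y).card : ℝ) ≤ 3 * Y * NL := by
    have hmaps : ∀ f ∈ P.filter (fun f => |(Dd f : ℝ)| ≤ Y),
        (fun f => (Dd f, Lf f)) f ∈ (Finset.Icc (-⌊Y⌋) ⌊Y⌋) ×ˢ (univ : Finset (LbF S d (5 * n))) := by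
      intro f hf
      rw [Finset.mem_filter] at hf
      rw [Finset.mem_product]
      refine ⟨?_, mem_univ _⟩
      rw [Finset.mem_Icc, ← abs_le, Int.le_floor]
      exact_mod_cast hf.2
    have hinj : Set.InjOn (fun f => (Dd f, Lf f)) (P.filter fun f => |(Dd f : ℝ)| ≤ Y : Finset (Fin 3 → ℤ)) := by
      intro f hf g hg hfg
      rw [Finset.mem_coe, Finset.mem_filter] at hf hg
      simp only [Prod.mk.injEq] at hfg
      obtain ⟨hDD, hLL⟩ := hfg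
      obtain ⟨y, z, t, hfr, hsq, hdiff, hlab⟩ := hrest f hf.1
      obtain ⟨y', z', t', hgr, hsq', hdiff', hlab'⟩ := hrest g hg.1
      rw [← hDD] at hdiff'
      rw [← hLL] at hlab'
      refine gap hS α hC0 (by positivity : (0 : ℝ) ≤ 2 * X) hfr hgr hsq hdiff hdiff' (hP f hf.1).1 (hP g hg.1).1
        hlab hlab' ?_
      have h1 := hw f hf.1
      have h2 : 4 ^ m * (κ * X ^ (-(2 + ε)) / |(Dd f : ℝ)|) ≤ W0 * X ^ (-(2 + ε)) := by
        rw [hW0, mul_assoc]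
        apply mul_le_mul_of_nonneg_left _ (by positivity)
        exact div_le_self (by positivity) (hDpos f hf.1)
      calc Q * (2 * X) ^ 2 * wt (toLb (Lf f)) ≤ Q * (2 * X) ^ 2 * (W0 * X ^ (-(2 + ε))) :=
            mul_le_mul_of_nonneg_left (h1.trans h2) (by positivity)
        _ = R * (X ^ 2 * X ^ (-(2 + ε))) := by rw [hR]; ring
        _ = R * X ^ (-ε) := by
            rw [← Real.rpow_natCast X 2, hXm]; congr 2; push_cast; ring
        _ < 1 := hn0 n hn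
    have hc := Finset.card_le_card_of_injOn _ hmaps hinj
    rw [Finset.card_product, Int.card_Icc, Finset.card_univ, ← hNL] at hc
    have hfl : 0 ≤ ⌊Y⌋ := Int.floor_nonneg.mpr hY0.le
    have e : (((⌊Y⌋ + 1 - -⌊Y⌋).toNat : ℕ) : ℝ) = 2 * (⌊Y⌋ : ℝ) + 1 := by
      have h1 : (((⌊Y⌋ + 1 - -⌊Y⌋).toNat : ℕ) : ℤ) = 2 * ⌊Y⌋ + 1 := by
        rw [Int.toNat_of_nonneg (by linarith)]; ring
      exact_mod_cast h1
    have hcR : ((P.filter fun f => |(Dd f : ℝ)| ≤ Y).card : ℝ) ≤ (2 * (⌊Y⌋ : ℝ) + 1) * NL := by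
      rw [← e]; exact_mod_cast hc
    refine hcR.trans (mul_le_mul_of_nonneg_right ?_ (Nat.cast_nonneg _))
    have := Int.floor_le Y
    linarith
  -- large discriminants
  have hP2 : ((P.filter fun f => ¬ |(Dd f : ℝ)| ≤ Y).card : ℝ) ≤ K2 * Y * NL := by
    have hfib : ∀ L : LbF S d (5 * n),
        (((P.filter fun f => ¬ |(Dd f : ℝ)| ≤ Y).filter fun f => Lf f = L).card : ℝ) ≤ K2 * Y := by
      intro L
      rcases ((P.filter fun f => ¬ |(Dd f : ℝ)| ≤ Y).filter fun f => Lf f = L).eq_empty_or_nonempty with he | hne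
      · rw [he, Finset.card_empty, Nat.cast_zero]; positivity
      · obtain ⟨f, hf⟩ := hne
        rw [Finset.mem_filter, Finset.mem_filter] at hf
        obtain ⟨⟨hfP, hfY⟩, hfL⟩ := hf
        push Not at hfY
        have hwt : wt (toLb L) ≤ W0 * X ^ (-(8 + 2 * ε) / 3) := by
          have h1 := hw f hfP
          rw [hfL] at h1
          refine h1.trans ?_
          have h2 : κ * X ^ (-(2 + ε)) / |(Dd f : ℝ)| ≤ κ * X ^ (-(2 + ε)) / Y :=
            div_le_div_of_nonneg_left (by positivity) hY0 hfY.le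
          calc 4 ^ m * (κ * X ^ (-(2 + ε)) / |(Dd f : ℝ)|) ≤ 4 ^ m * (κ * X ^ (-(2 + ε)) / Y) :=
                mul_le_mul_of_nonneg_left h2 (by positivity)
            _ = W0 * (X ^ (-(2 + ε)) * Y⁻¹) := by rw [hW0]; ring
            _ = _ := by
              rw [hY, ← Real.rpow_neg hX0.le, hXm]; congr 2; ring
        have hb := hbig (toLb L) (2 * X) (by linarith) ((P.filter fun f => ¬ |(Dd f : ℝ)| ≤ Y).filter fun f => Lf f = L)
          (by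
            intro g hg
            rw [Finset.mem_filter, Finset.mem_filter] at hg
            obtain ⟨y, z, t, hfr, -, -, hlab⟩ := hrest g hg.1.1
            rw [hg.2] at hlab
            exact ⟨(hP g hg.1.1).1, y, z, hfr, hlab⟩)
        refine hb.trans ?_
        have hs : Real.sqrt (wt (toLb L)) ≤ Real.sqrt W0 * X ^ (-(4 + ε) / 3) := by
          rw [Real.sqrt_le_left (by positivity), mul_pow, Real.sq_sqrt hW00.le]
          refine hwt.trans (le_of_eq ?_)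
          congr 1
          rw [← Real.rpow_natCast (X ^ (-(4 + ε) / 3)) 2, ← Real.rpow_mul hX0.le]
          congr 1; push_cast; ring
        have t1 : K1 * ((2 * X) ^ 2 * Real.sqrt (wt (toLb L))) ≤ K1 * (4 * Real.sqrt W0) * Y := by
          calc K1 * ((2 * X) ^ 2 * Real.sqrt (wt (toLb L)))
              ≤ K1 * ((2 * X) ^ 2 * (Real.sqrt W0 * X ^ (-(4 + ε) / 3))) := by
                apply mul_le_mul_of_nonneg_left _ hK10.le
                exact mul_le_mul_of_nonneg_left hs (by positivity)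
            _ = K1 * (4 * Real.sqrt W0) * (X ^ 2 * X ^ (-(4 + ε) / 3)) := by ring
            _ = _ := by
              rw [← Real.rpow_natCast X 2, hXm, hY]; congr 2; push_cast; ring
        have t2 : K1 * ((2 * X) ^ 3 * wt (toLb L)) ≤ K1 * (8 * W0) * Y := by
          calc K1 * ((2 * X) ^ 3 * wt (toLb L)) ≤ K1 * ((2 * X) ^ 3 * (W0 * X ^ (-(8 + 2 * ε) / 3))) := by
                apply mul_le_mul_of_nonneg_left _ hK10.le
                exact mul_le_mul_of_nonneg_left hwt (by positivity)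
            _ = K1 * (8 * W0) * (X ^ 3 * X ^ (-(8 + 2 * ε) / 3)) := by ring
            _ ≤ _ := by
              apply mul_le_mul_of_nonneg_left _ (by positivity)
              rw [← Real.rpow_natCast X 3, hXm, hY]
              apply Real.rpow_le_rpow_of_exponent_le hX1
              push_cast
              linarith
        rw [hK2]
        nlinarith
    have e : (P.filter fun f => ¬ |(Dd f : ℝ)| ≤ Y).card
        = ∑ L : LbF S d (5 * n), ((P.filter fun f => ¬ |(Dd f : ℝ)| ≤ Y).filter fun f => Lf f = L).card :=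
      Finset.card_eq_sum_card_fiberwise (fun f _ => mem_univ _)
    rw [e, Nat.cast_sum]
    calc _ ≤ ∑ L : LbF S d (5 * n), K2 * Y := Finset.sum_le_sum fun L _ => hfib L
      _ = K2 * Y * NL := by rw [Finset.sum_const, Finset.card_univ, nsmul_eq_mul, ← hNL]; ring
  have hsplit : (P.card : ℝ) = ((P.filter fun f => |(Dd f : ℝ)| ≤ Y).card : ℝ)
      + ((P.filter fun f => ¬ |(Dd f : ℝ)| ≤ Y).card : ℝ) := by
    exact_mod_cast (Finset.card_filter_add_card_filter_not (s := P) (fun f => |(Dd f : ℝ)| ≤ Y)).symm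
  have hYX : Y = X ^ (2 / 3 : ℝ) * X ^ (-ε / 3) := by
    rw [hXm, hY]; congr 1; ring
  have hfinal : (P.card : ℝ) ≤ (3 + K2) * K3 * X ^ (2 / 3 : ℝ) := by
    calc (P.card : ℝ) ≤ 3 * Y * NL + K2 * Y * NL := by rw [hsplit]; exact add_le_add hP1 hP2
      _ = (3 + K2) * (NL * X ^ (-ε / 3)) * X ^ (2 / 3 : ℝ) := by rw [hYX]; ring
      _ ≤ (3 + K2) * K3 * X ^ (2 / 3 : ℝ) := by
          apply mul_le_mul_of_nonneg_right _ (by positivity)
          exact mul_le_mul_of_nonneg_left hNLc (by positivity)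
  calc (P.card : ℝ) ≤ (3 + K2) * K3 * X ^ (2 / 3 : ℝ) := hfinal
    _ ≤ _ := by
      apply mul_le_mul_of_nonneg_right _ (by positivity)
      have : (0 : ℝ) ≤ (4 * 2 ^ n0 + 1) ^ 3 := by positivity
      linarith

end Pool.Agent.Helper77.Voj
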