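import Mathlib
import Pool.Agent.Helper77.Voj.Count

/-!
Summation of the dyadic bounds.
-/

namespace Pool.Agent.Helper77.Voj

open Finset

variable {S : Finset ℕ} (hS : ∀ p ∈ S, p.Prime) {d : ℕ} (α : Fin d → Qb)

theorem count_all (hα : Function.Injective α) (hd : ∀ i : Option (Fin d), ∃ j, i ≠ j) (sq : ℤ → Qb)
    {κ ε : ℝ} (hκ : 20 ≤ κ) (hε : 0 < ε) (hε1 : ε ≤ 1) :
    ∃ K : ℝ, 0 < K ∧ ∀ (Z : ℝ), 1 ≤ Z → ∀ (P : Finset (Fin 3 → ℤ)),
      (∀ f ∈ P, ∃ n : ℕ, (2 : ℝ) ^ n ≤ Z ∧ Viol hS α sq κ ε n f) →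
      (P.card : ℝ) ≤ K * Z ^ (2 / 3 : ℝ) := by
  classical
  obtain ⟨K, hK, hdy⟩ := dyadic hS α hα hd sq hκ hε hε1
  set s : ℝ := (2 : ℝ) ^ (2 / 3 : ℝ) with hs
  have hs1 : 1 < s := Real.one_lt_rpow (by norm_num) (by norm_num)
  have hs0 : 0 < s := by linarith
  have hsm : 0 < s - 1 := by linarith
  refine ⟨K * (s / (s - 1)), by positivity, ?_⟩
  intro Z hZ P hP
  have hZ0 : 0 < Z := by linarith
  obtain ⟨N, hN1, hN2⟩ := exists_nat_pow_near hZ (by norm_num : (1 : ℝ) < 2)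
  have hsub : P ⊆ (Finset.range (N + 1)).biUnion fun n => P.filter fun f => Viol hS α sq κ ε n f := by
    intro f hf
    obtain ⟨n, hn, hv⟩ := hP f hf
    rw [Finset.mem_biUnion]
    refine ⟨n, ?_, Finset.mem_filter.mpr ⟨hf, hv⟩⟩
    rw [Finset.mem_range]
    by_contra hlt
    push Not at hlt
    have h1 : (2 : ℝ) ^ (N + 1) ≤ 2 ^ n := pow_le_pow_right₀ (by norm_num) hlt
    linarith
  have e1 : ∀ n : ℕ, ((2 : ℝ) ^ n) ^ (2 / 3 : ℝ) = s ^ n := by
    intro n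
    rw [hs, ← Real.rpow_natCast, ← Real.rpow_mul (by norm_num), mul_comm, Real.rpow_mul (by norm_num),
      Real.rpow_natCast]
  have h1 : (P.card : ℝ) ≤ ∑ n ∈ Finset.range (N + 1), K * s ^ n := by
    calc (P.card : ℝ) ≤ (((Finset.range (N + 1)).biUnion fun n => P.filter fun f => Viol hS α sq κ ε n f).card : ℝ) := by
          exact_mod_cast Finset.card_le_card hsub
      _ ≤ ((∑ n ∈ Finset.range (N + 1), (P.filter fun f => Viol hS α sq κ ε n f).card : ℕ) : ℝ) := by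
          exact_mod_cast Finset.card_biUnion_le
      _ = ∑ n ∈ Finset.range (N + 1), ((P.filter fun f => Viol hS α sq κ ε n f).card : ℝ) := by push_cast; rfl
      _ ≤ _ := by
          refine Finset.sum_le_sum fun n _ => ?_
          rw [← e1]
          exact hdy n _ fun f hf => (Finset.mem_filter.mp hf).2
  rw [← Finset.mul_sum, geom_sum_eq hs1.ne'] at h1
  have h2 : s ^ N ≤ Z ^ (2 / 3 : ℝ) := by
    rw [← e1]
    exact Real.rpow_le_rpow (by positivity) hN1 (by norm_num)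
  calc (P.card : ℝ) ≤ K * ((s ^ (N + 1) - 1) / (s - 1)) := h1
    _ ≤ K * ((s * Z ^ (2 / 3 : ℝ)) / (s - 1)) := by
        apply mul_le_mul_of_nonneg_left _ hK.le
        apply div_le_div_of_nonneg_right _ hsm.le
        rw [pow_succ]
        nlinarith
    _ = _ := by ring

end Pool.Agent.Helper77.Voj
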