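import Mathlib
import Pool.Agent.Helper77.Voj.Small
import Pool.Agent.Helper77.Voj.Link
import Pool.Agent.Helper77.Voj.Total
import Pool.Agent.Helper77.Voj.Roots

/-!
Counting the quadratic points which violate the inequality.
-/

namespace Pool.Agent.Helper77.Voj

open NumberField IntermediateField Polynomial

/-- `x` lies on the divisor or violates the inequality -/
def Bad (S : Finset ℕ) (g : ℚ[X]) (q : ℕ) (ε C₀ : ℝ) (x : AlgebraicClosure ℚ) : Prop :=
  aeval x g = 0 ∨ ¬ (-2 * absLogHeight₁ x + lamD S g q x ≤ ε * absLogHeight₁ x + dQ x + C₀)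

open Classical in
/-- roots of an integral quadratic polynomial -/
noncomputable def qroots (f : Fin 3 → ℤ) : Finset Qb :=
  (C (f 0 : Qb) * X ^ 2 + C (f 1 : Qb) * X + C (f 2 : Qb)).roots.toFinset

theorem card_qroots (f : Fin 3 → ℤ) : (qroots f).card ≤ 2 := by
  classical
  unfold qroots
  refine (Multiset.toFinset_card_le _).trans ((card_roots' _).trans natDegree_quadratic_le)

theorem mem_qroots {f : Fin 3 → ℤ} {x x' : Qb} (h : FR f x x') : x ∈ qroots f := by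
  classical
  unfold qroots
  rw [Multiset.mem_toFinset, mem_roots', IsRoot.def]
  constructor
  · intro h0
    have := congrArg (fun p : Qb[X] => p.coeff 2) h0
    simp only [coeff_add, coeff_C_mul, coeff_X_pow, coeff_X, coeff_C, coeff_zero] at this
    norm_num at this
    exact h.pos.ne' this
  · have := h.eval x
    simp only [eval_add, eval_mul, eval_C, eval_pow, eval_X]
    rw [this]; ring

/-- one violating point yields a violating form -/
theorem point_to_form {S : Finset ℕ} (hS : ∀ p ∈ S, p.Prime) (g : ℚ[X]) {d : ℕ} (α : Fin d → Qb)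
    {Cst : ℝ} (hCst : 0 < Cst)
    (hsmall : ∀ (f : Fin 3 → ℤ) (x x' : Qb) (ρ : ℚ), FR f x x' → ρ ≠ 0 →
      (ρ : Qb) = aeval x g * aeval x' g →
      ∃ i j : Option S → Option (Fin d), ∏ v, (vdel (va hS v) α (i v) x * vdel (va hS v) α (j v) x') ≤
        Cst * Real.exp (-(((d + 1 : ℕ) : ℝ) * (Real.log (vmx vinf x) + Real.log (vmx vinf x')) - Real.log |(ρ : ℝ)|
        + ∑ p : S, (-(((d + 1 : ℕ) : ℝ) * Real.log (padicNorm p.1 (f 0 : ℚ) : ℝ)) - Real.log (padicNorm p.1 ρ : ℝ)))))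
    (sq : ℤ → Qb) (hsq : ∀ D, sq D ^ 2 = D) {ε C₀ : ℝ} (hε : 0 < ε) (hε1 : ε ≤ 1) {T : ℝ}
    {x : AlgebraicClosure ℚ} (hdeg : Module.finrank ℚ ℚ⟮x⟯ = 2) (hT : absLogHeight₁ x ≤ T) (hg : aeval x g ≠ 0)
    (hv : ¬ (-2 * absLogHeight₁ x + lamD S g (d + 1) x ≤ ε * absLogHeight₁ x + dQ x + C₀)) :
    ∃ (f : Fin 3 → ℤ) (n : ℕ), (2 : ℝ) ^ n ≤ 2 * Real.exp (2 * T) ∧
      Viol hS α sq (20 + Cst * 8 * Real.exp (-2 * C₀)) ε n f ∧ x ∈ qroots f := by
  obtain ⟨f, x', t, ρ, hFR, ht, hdisc, hρ, hρe, hh, hlam⟩ := link S hS g (d + 1) x hdeg hg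
  obtain ⟨i, j, hprod⟩ := hsmall f x x' ρ hFR hρ hρe
  rw [← hlam] at hprod
  push Not at hv
  -- the size of the form
  set N : ℝ := max |(f 0 : ℝ)| (max |(f 1 : ℝ)| |(f 2 : ℝ)|) with hN
  have hf0R : (1 : ℝ) ≤ |(f 0 : ℝ)| := by
    have := Int.one_le_abs hFR.pos.ne'
    exact_mod_cast this
  have hN1 : 1 ≤ N := hf0R.trans (le_max_left _ _)
  have hfN : ∀ k, |(f k : ℝ)| ≤ N := by
    intro k
    fin_cases k
    · exact le_max_left _ _
    · exact (le_max_left _ _).trans (le_max_right _ _)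
    · exact (le_max_right _ _).trans (le_max_right _ _)
  obtain ⟨n, hn1, hn2⟩ := exists_nat_pow_near hN1 (by norm_num : (1 : ℝ) < 2)
  have hf0pos : (0 : ℝ) < |(f 0 : ℝ)| := by linarith
  have m1 := vmx_pos vinf x
  have m2 := vmx_pos vinf x'
  set Λ : ℝ := |(f 0 : ℝ)| * (vmx vinf x * vmx vinf x') with hΛ
  have hΛ0 : 0 < Λ := by positivity
  have hlogΛ : Real.log Λ = 2 * absLogHeight₁ x := by
    rw [hh, hΛ, Real.log_mul hf0pos.ne' (mul_pos m1 m2).ne', Real.log_mul m1.ne' m2.ne']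
  have hvi : ∀ z : ℤ, vinf (z : Qb) = |(z : ℝ)| := by
    intro z
    have := vinf_rat (z : ℚ)
    rw [eq_ratCast, Rat.cast_intCast, Rat.cast_intCast] at this
    exact this
  have hNΛ : N ≤ 2 * Λ := by
    have hor : N ≤ vinf (f 0 : Qb) ∨ N ≤ vinf (f 1 : Qb) ∨ N ≤ vinf (f 2 : Qb) := by
      rw [hvi, hvi, hvi]
      rcases le_total |(f 0 : ℝ)| (max |(f 1 : ℝ)| |(f 2 : ℝ)|) with h | h
      · rw [hN, max_eq_right h]
        rcases le_total |(f 1 : ℝ)| |(f 2 : ℝ)| with h' | h'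
        · right; right; rw [max_eq_right h']
        · right; left; rw [max_eq_left h']
      · left; rw [hN, max_eq_left h]
    have := gauss_lower_av vinf (f 0 : Qb) (f 1 : Qb) (f 2 : Qb) x x' hFR.hb hFR.hc N hor
    rw [hvi] at this
    exact this
  set D : ℤ := discr ℚ⟮x⟯ with hD
  have hD0 : D ≠ 0 := discr_ne_zero ℚ⟮x⟯
  have hDpos : (0 : ℝ) < |(D : ℝ)| := abs_pos.mpr (by exact_mod_cast hD0)
  have hdQ : 2 * dQ x = Real.log |(D : ℝ)| := by
    unfold dQ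
    rw [hdeg]; push_cast; ring
  have hX0 : (0 : ℝ) < 2 ^ n := by positivity
  -- the bound for the product
  have hexp : Real.exp (-(2 * lamD S g (d + 1) x)) ≤ 8 * Real.exp (-2 * C₀) * ((2 : ℝ) ^ n) ^ (-(2 + ε)) / |(D : ℝ)| := by
    have h1 : -(2 * lamD S g (d + 1) x) ≤ Real.log Λ * (-(2 + ε)) + (-2 * C₀) - Real.log |(D : ℝ)| := by
      rw [hlogΛ, ← hdQ]
      linarith
    refine (Real.exp_le_exp.mpr h1).trans ?_
    rw [Real.exp_sub, Real.exp_log hDpos, Real.exp_add, Real.exp_mul, Real.exp_log hΛ0]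
    apply div_le_div_of_nonneg_right _ hDpos.le
    have h2 : Λ ^ (-(2 + ε)) ≤ 8 * ((2 : ℝ) ^ n) ^ (-(2 + ε)) := by
      have h3 : (2 : ℝ) ^ n / 2 ≤ Λ := by linarith
      have h4 : Λ ^ (-(2 + ε)) ≤ ((2 : ℝ) ^ n / 2) ^ (-(2 + ε)) :=
        Real.rpow_le_rpow_of_nonpos (by positivity) h3 (by linarith)
      refine h4.trans ?_
      rw [Real.div_rpow hX0.le (by norm_num)]
      rw [div_eq_mul_inv, mul_comm]
      apply mul_le_mul_of_nonneg_right _ (Real.rpow_nonneg hX0.le _)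
      rw [← Real.rpow_neg (by norm_num), neg_neg]
      calc (2 : ℝ) ^ (2 + ε) ≤ 2 ^ (3 : ℝ) := Real.rpow_le_rpow_of_exponent_le (by norm_num) (by linarith)
        _ = 8 := by norm_num
    calc Λ ^ (-(2 + ε)) * Real.exp (-2 * C₀) ≤ (8 * ((2 : ℝ) ^ n) ^ (-(2 + ε))) * Real.exp (-2 * C₀) :=
          mul_le_mul_of_nonneg_right h2 (Real.exp_pos _).le
      _ = _ := by ring
  refine ⟨f, n, ?_, ⟨?_, x, x', D, ?_⟩, mem_qroots hFR⟩
  · have h5 : Λ ≤ Real.exp (2 * T) := by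
      rw [← Real.log_le_iff_le_exp hΛ0, hlogΛ]
      linarith
    linarith
  · intro k
    have := hfN k
    rw [pow_succ] at hn2
    linarith
  · -- the square root
    have hsqr : ((f 0 : Qb) * (x - x')) ^ 2 = ((t : Qb) * sq D) ^ 2 := by
      have e1 : ((f 1 ^ 2 - 4 * f 0 * f 2 : ℤ) : Qb) = ((D * t ^ 2 : ℤ) : Qb) := by rw [hdisc]
      push_cast at e1
      have e2 : ((f 0 : Qb) * (x - x')) ^ 2 = (f 1 : Qb) ^ 2 - 4 * f 0 * f 2 := by
        rw [hFR.hb, hFR.hc]; ring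
      rw [e2, e1, mul_pow, hsq]; ring
    have hκ : Cst * Real.exp (-(2 * lamD S g (d + 1) x))
        ≤ (20 + Cst * 8 * Real.exp (-2 * C₀)) * ((2 : ℝ) ^ n) ^ (-(2 + ε)) / |(D : ℝ)| := by
      have h6 : 0 ≤ ((2 : ℝ) ^ n) ^ (-(2 + ε)) := Real.rpow_nonneg hX0.le _
      calc Cst * Real.exp (-(2 * lamD S g (d + 1) x))
          ≤ Cst * (8 * Real.exp (-2 * C₀) * ((2 : ℝ) ^ n) ^ (-(2 + ε)) / |(D : ℝ)|) :=
            mul_le_mul_of_nonneg_left hexp hCst.le
        _ = (Cst * 8 * Real.exp (-2 * C₀)) * ((2 : ℝ) ^ n) ^ (-(2 + ε)) / |(D : ℝ)| := by ring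
        _ ≤ _ := by
          apply div_le_div_of_nonneg_right _ hDpos.le
          apply mul_le_mul_of_nonneg_right _ h6
          linarith
    rcases sq_eq_sq_iff_eq_or_eq_neg.mp hsqr with h | h
    · exact ⟨t, i, j, hFR, hD0, ht, hsq D, h, hprod.trans hκ⟩
    · refine ⟨-t, i, j, hFR, hD0, neg_ne_zero.mpr ht, hsq D, ?_, hprod.trans hκ⟩
      rw [h]; push_cast; ring

theorem main_aux {S : Finset ℕ} (hS : ∀ p ∈ S, p.Prime) (g : ℚ[X]) (hg : Squarefree g) (hgd : 1 ≤ g.natDegree)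
    {ε : ℝ} (hε : 0 < ε) (hε1 : ε ≤ 1) (C₀ : ℝ) :
    ∃ K : ℝ, ∀ T : ℝ, 0 ≤ T →
      {x : AlgebraicClosure ℚ | Module.finrank ℚ ℚ⟮x⟯ = 2 ∧ absLogHeight₁ x ≤ T ∧
        Bad S g (g.natDegree + 1) ε C₀ x}.Finite ∧
      ({x : AlgebraicClosure ℚ | Module.finrank ℚ ℚ⟮x⟯ = 2 ∧ absLogHeight₁ x ≤ T ∧
        Bad S g (g.natDegree + 1) ε C₀ x}.ncard : ℝ) ≤ K * Real.exp (4 / 3 * T) := by
  classical
  obtain ⟨α, γ, hα, hγ, hev⟩ := exists_roots g hg
  obtain ⟨sq, hsq⟩ := exists_sq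
  obtain ⟨Cst, hCst, hsmall⟩ := small_product hS α hα g hγ hev
  have hd : ∀ i : Option (Fin g.natDegree), ∃ j, i ≠ j := by
    intro i
    rcases i with _ | i
    · exact ⟨some ⟨0, hgd⟩, by simp⟩
    · exact ⟨none, by simp⟩
  have hκ20 : 20 ≤ 20 + Cst * 8 * Real.exp (-2 * C₀) := by
    have := Real.exp_pos (-2 * C₀)
    have : 0 ≤ Cst * 8 * Real.exp (-2 * C₀) := by positivity
    linarith
  obtain ⟨K, hK, hcount⟩ := count_all hS α hα hd sq hκ20 hε hε1
  refine ⟨g.natDegree + 2 * (K * 2 ^ (2 / 3 : ℝ)), ?_⟩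
  intro T hT
  set V : Set (AlgebraicClosure ℚ) := {x : AlgebraicClosure ℚ | Module.finrank ℚ ℚ⟮x⟯ = 2 ∧ absLogHeight₁ x ≤ T ∧
        Bad S g (g.natDegree + 1) ε C₀ x} with hV
  set Z : ℝ := 2 * Real.exp (2 * T) with hZ
  have hZ1 : 1 ≤ Z := by
    have : 1 ≤ Real.exp (2 * T) := Real.one_le_exp (by linarith)
    linarith
  set P : Finset (Fin 3 → ℤ) := (Fintype.piFinset (fun _ : Fin 3 => Finset.Icc (-⌊2 * Z⌋) ⌊2 * Z⌋)).filter
    (fun f => ∃ n : ℕ, (2 : ℝ) ^ n ≤ Z ∧ Viol hS α sq (20 + Cst * 8 * Real.exp (-2 * C₀)) ε n f) with hP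
  have hPcard := hcount Z hZ1 P (fun f hf => (Finset.mem_filter.mp hf).2)
  set R0 : Finset Qb := (g.map (algebraMap ℚ Qb)).roots.toFinset with hR0
  have hsub : V ⊆ ((R0 ∪ P.biUnion qroots : Finset Qb) : Set Qb) := by
    rintro x ⟨hdeg, hx, hbad⟩
    rw [Finset.mem_coe, Finset.mem_union]
    by_cases hgx : aeval x g = 0
    · left
      rw [hR0, Multiset.mem_toFinset, mem_roots', IsRoot.def, eval_map_algebraMap]
      exact ⟨(Polynomial.map_ne_zero_iff (algebraMap ℚ Qb).injective).mpr hg.ne_zero, hgx⟩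
    · right
      rcases hbad with hbad | hbad
      · exact absurd hbad hgx
      · obtain ⟨f, n, hn, hviol, hxf⟩ := point_to_form hS g α hCst hsmall sq hsq hε hε1 hdeg hx hgx hbad
        rw [Finset.mem_biUnion]
        refine ⟨f, ?_, hxf⟩
        rw [hP, Finset.mem_filter]
        refine ⟨?_, n, hn, hviol⟩
        rw [Fintype.mem_piFinset]
        intro k
        rw [Finset.mem_Icc, ← abs_le, Int.le_floor]
        have h1 := hviol.1 k
        push_cast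
        linarith
  have hfin : V.Finite := Set.Finite.subset (Finset.finite_toSet _) hsub
  refine ⟨hfin, ?_⟩
  have h1 : V.ncard ≤ (R0 ∪ P.biUnion qroots).card := by
    have := Set.ncard_le_ncard hsub (Finset.finite_toSet _)
    rwa [Set.ncard_coe_finset] at this
  have h2 : (R0 ∪ P.biUnion qroots).card ≤ g.natDegree + P.card * 2 := by
    refine (Finset.card_union_le _ _).trans (add_le_add ?_ ?_)
    · refine (Multiset.toFinset_card_le _).trans ((card_roots' _).trans ?_)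
      rw [natDegree_map]
    · exact Finset.card_biUnion_le_card_mul _ _ _ fun f _ => card_qroots f
  have h3 : (V.ncard : ℝ) ≤ g.natDegree + (P.card : ℝ) * 2 := by exact_mod_cast h1.trans h2
  have h4 : Z ^ (2 / 3 : ℝ) = 2 ^ (2 / 3 : ℝ) * Real.exp (4 / 3 * T) := by
    rw [hZ, Real.mul_rpow (by norm_num) (Real.exp_pos _).le, ← Real.exp_mul]
    congr 2; ring
  have h5 : 1 ≤ Real.exp (4 / 3 * T) := Real.one_le_exp (by linarith)
  rw [h4] at hPcard
  have h6 : (0 : ℝ) ≤ g.natDegree := Nat.cast_nonneg _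
  calc (V.ncard : ℝ) ≤ g.natDegree + (P.card : ℝ) * 2 := h3
    _ ≤ g.natDegree * Real.exp (4 / 3 * T) + (K * (2 ^ (2 / 3 : ℝ) * Real.exp (4 / 3 * T))) * 2 := by
        apply add_le_add
        · exact le_mul_of_one_le_right h6 h5
        · exact mul_le_mul_of_nonneg_right hPcard (by norm_num)
    _ = _ := by ring

end Pool.Agent.Helper77.Voj
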